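import Pool.Agent.Lib.P962033.Core

/-!
Descent between adjacent gaps, in coordinates.
-/

namespace Pool.Agent.Lib.P962033

def Kq (g1 g2 h1 h2 : ℝ) : ℝ := g1 ^ 2 + g2 ^ 2 + (g1 * h1 + g2 * h2)
def omq (g1 g2 h1 h2 : ℝ) : ℝ := h2 * g1 - h1 * g2
def Dq (lam g1 g2 h1 h2 : ℝ) : ℝ := g1 ^ 2 + g2 ^ 2 - lam * omq g1 g2 h1 h2
/-- tangent of the angle between two circles through the ends of a gap -/
noncomputable def Tq (lam g1 g2 h1 h2 : ℝ) : ℝ :=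
  |lam| * Kq g1 g2 h1 h2 / Dq lam g1 g2 h1 h2

/-- near `(1/2, 0)` -/
def NearHalf (a b : ℝ) : Prop := |a - 1/2| ≤ 0.0000000001 ∧ |b| ≤ 0.0000000001

theorem NearHalf.G {a b : ℝ} (h : NearHalf a b) : |a ^ 2 + b ^ 2 - 1/4| ≤ 0.000000001 := by
  obtain ⟨h1, h2⟩ := h
  obtain ⟨h3, h4⟩ := abs_le.mp h1
  have hb : |b * b| ≤ 0.0000000001 * 0.0000000001 := by
    rw [abs_mul]; exact mul_le_mul h2 h2 (abs_nonneg _) (by norm_num)
  have ha : |(a - 1/2) * (a + 1/2)| ≤ 0.0000000001 * 2 := by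
    rw [abs_mul]
    apply mul_le_mul h1 _ (abs_nonneg _) (by norm_num)
    rw [abs_le]; constructor <;> linarith
  obtain ⟨h5, h6⟩ := abs_le.mp hb
  obtain ⟨h7, h8⟩ := abs_le.mp ha
  rw [abs_le]
  constructor <;> nlinarith

theorem NearHalf.dot {a b c d : ℝ} (h : NearHalf a b) (h' : NearHalf c d) :
    |(a * c + b * d) - 1/4| ≤ 0.000000001 := by
  obtain ⟨h1, h2⟩ := h
  obtain ⟨h3, h4⟩ := h'
  have hc : |c| ≤ 1 := by
    obtain ⟨h5, h6⟩ := abs_le.mp h3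
    rw [abs_le]; constructor <;> linarith
  have hb : |b * d| ≤ 0.0000000001 * 0.0000000001 := by
    rw [abs_mul]; exact mul_le_mul h2 h4 (abs_nonneg _) (by norm_num)
  have ha : |(a - 1/2) * c| ≤ 0.0000000001 * 1 := by
    rw [abs_mul]; exact mul_le_mul h1 hc (abs_nonneg _) (by norm_num)
  have e : (a * c + b * d) - 1/4 = (a - 1/2) * c + 1/2 * (c - 1/2) + b * d := by ring
  rw [e]
  obtain ⟨h5, h6⟩ := abs_le.mp hb
  obtain ⟨h7, h8⟩ := abs_le.mp ha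
  obtain ⟨h9, h10⟩ := abs_le.mp h3
  rw [abs_le]
  constructor <;> linarith

theorem NearHalf.omq {a b c d : ℝ} (h : NearHalf a b) (h' : NearHalf c d) :
    |omq a b c d| ≤ 0.0000000003 := by
  obtain ⟨h1, h2⟩ := h
  obtain ⟨h3, h4⟩ := h'
  have hc : |c| ≤ 1 := by
    obtain ⟨h5, h6⟩ := abs_le.mp h3
    rw [abs_le]; constructor <;> linarith
  have ha : |a| ≤ 1 := by
    obtain ⟨h5, h6⟩ := abs_le.mp h1
    rw [abs_le]; constructor <;> linarith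
  have hb : |d * a| ≤ 0.0000000001 * 1 := by
    rw [abs_mul]; exact mul_le_mul h4 ha (abs_nonneg _) (by norm_num)
  have ha : |c * b| ≤ 1 * 0.0000000001 := by
    rw [abs_mul]; exact mul_le_mul hc h2 (abs_nonneg _) (by norm_num)
  obtain ⟨h5, h6⟩ := abs_le.mp hb
  obtain ⟨h7, h8⟩ := abs_le.mp ha
  unfold P962033.omq
  rw [abs_le]
  constructor <;> linarith

theorem NearHalf.K {a b c d : ℝ} (h : NearHalf a b) (h' : NearHalf c d) :
    |Kq a b c d - 1/2| ≤ 0.00001 := by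
  have e1 := h.G
  have e2 := h.dot h'
  obtain ⟨h5, h6⟩ := abs_le.mp e1
  obtain ⟨h7, h8⟩ := abs_le.mp e2
  unfold Kq
  rw [abs_le]
  constructor <;> linarith

theorem NearHalf.D {a b c d lam : ℝ} (h : NearHalf a b) (h' : NearHalf c d)
    (hlam : |lam| ≤ 8600) : |Dq lam a b c d - 1/4| ≤ 0.00001 := by
  have e1 := h.G
  have e2 := h.omq h'
  have e3 : |lam * P962033.omq a b c d| ≤ 8600 * 0.0000000003 := by
    rw [abs_mul]; exact mul_le_mul hlam e2 (abs_nonneg _) (by norm_num)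
  obtain ⟨h5, h6⟩ := abs_le.mp e1
  obtain ⟨h7, h8⟩ := abs_le.mp e3
  unfold Dq
  rw [abs_le]
  constructor <;> linarith

theorem Tq_est {a b c d lam : ℝ} (h : NearHalf a b) (h' : NearHalf c d)
    (hlam : |lam| ≤ 8600) :
    1.9998 * |lam| ≤ Tq lam a b c d ∧ Tq lam a b c d ≤ 2.0002 * |lam| := by
  have e1 := h.K h'
  have e2 := h.D h' hlam
  obtain ⟨h5, h6⟩ := abs_le.mp e1
  obtain ⟨h7, h8⟩ := abs_le.mp e2
  have hD : 0 < Dq lam a b c d := by linarith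
  unfold Tq
  have hl := abs_nonneg lam
  constructor
  · rw [le_div_iff₀ hD]
    have : |lam| * (1.9998 * Dq lam a b c d) ≤ |lam| * Kq a b c d :=
      mul_le_mul_of_nonneg_left (by linarith) hl
    linarith
  · rw [div_le_iff₀ hD]
    have : |lam| * Kq a b c d ≤ |lam| * (2.0002 * Dq lam a b c d) :=
      mul_le_mul_of_nonneg_left (by linarith) hl
    linarith

/-- Main adjacent descent lemma: the white of the gap to the right of the shared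
black point lies in the critical disk of the gap to the left. -/
theorem adj_descent (g1 g2 h1 h2 k1 k2 mu u1 u2 lam lk : ℝ)
    (hg : NearHalf g1 g2) (hh : NearHalf h1 h2) (hkk : NearHalf k1 k2)
    (hmg : NearHalf (mu * g1) (mu * g2))
    (hmu : |mu - 1| ≤ 0.000001)
    (hk : k1 ^ 2 + k2 ^ 2 = (mu * g1) ^ 2 + (mu * g2) ^ 2)
    (hlam : |lam| ≤ 8500)
    (hown : u1 ^ 2 + u2 ^ 2 < 2 * (u1 * (mu * g1) + u2 * (mu * g2)))
    (hcov : u1 ^ 2 + u2 ^ 2 <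
      2 * (u1 * (-g1 + lam * (g2 + h2)) + u2 * (-g2 - lam * (g1 + h1))))
    (hlk : 2 * (u1 * (mu * g1) + u2 * (mu * g2)) - (u1 ^ 2 + u2 ^ 2) =
      2 * lk * ((mu * g1 + k1) * u2 - (mu * g2 + k2) * u1)) :
    lam * ((mu * g1 + k1) * u2 - (mu * g2 + k2) * u1) < 0 ∧
    0 < lk * ((mu * g1 + k1) * u2 - (mu * g2 + k2) * u1) ∧
    |lk| ≤ 1.001 * |lam| ∧
    Tq lk k1 k2 (mu * g1) (mu * g2) + 1.8 * |(mu * g1 + k1) * u2 - (mu * g2 + k2) * u1| ≤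
      Tq lam g1 g2 h1 h2 := by
  set bk := (mu * g1 + k1) * u2 - (mu * g2 + k2) * u1 with hbkdef
  have hG := hg.G
  have hGG : |g1 ^ 2 + g2 ^ 2 - 1/4| ≤ 0.00001 := by linarith
  have hDD := hg.D hh (lam := lam) (by linarith)
  have hKK := hg.K hh
  have hKk := hkk.K hmg
  have hom : |omq k1 k2 (mu * g1) (mu * g2)| ≤ 0.000000001 := by
    have := hkk.omq hmg; linarith
  have hmu' : |mu - 1| ≤ 0.00001 := by linarith
  have hG0 : 0 < g1 ^ 2 + g2 ^ 2 := by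
    obtain ⟨h5, h6⟩ := abs_le.mp hG; linarith
  have eown : (u1 * g1 + u2 * g2) ^ 2 + (u2 * g1 - u1 * g2) ^ 2 <
      2 * mu * (g1 ^ 2 + g2 ^ 2) * (u1 * g1 + u2 * g2) := by
    have := mul_lt_mul_of_pos_left hown hG0
    nlinarith
  have ecov : (u1 * g1 + u2 * g2) ^ 2 + (u2 * g1 - u1 * g2) ^ 2 <
      -2 * (u1 * g1 + u2 * g2) * Dq lam g1 g2 h1 h2 -
        2 * lam * Kq g1 g2 h1 h2 * (u2 * g1 - u1 * g2) := by
    have := mul_lt_mul_of_pos_left hcov hG0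
    unfold Dq Kq omq
    nlinarith
  have ebk : mu * (g1 ^ 2 + g2 ^ 2) * bk =
      (u2 * g1 - u1 * g2) * Kq k1 k2 (mu * g1) (mu * g2) +
        (u1 * g1 + u2 * g2) * omq k1 k2 (mu * g1) (mu * g2) := by
    rw [hbkdef]
    unfold Kq omq
    rw [hk]
    ring
  have ePk : (g1 ^ 2 + g2 ^ 2) *
      (2 * (u1 * (mu * g1) + u2 * (mu * g2)) - (u1 ^ 2 + u2 ^ 2)) =
      2 * mu * (g1 ^ 2 + g2 ^ 2) * (u1 * g1 + u2 * g2) -
        ((u1 * g1 + u2 * g2) ^ 2 + (u2 * g1 - u1 * g2) ^ 2) := by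
    ring
  have hDk : Dq lk k1 k2 (mu * g1) (mu * g2) =
      mu ^ 2 * (g1 ^ 2 + g2 ^ 2) - lk * omq k1 k2 (mu * g1) (mu * g2) := by
    unfold Dq
    rw [hk]; ring
  rcases le_total lam 0 with hl | hl
  · have ecov' : (u1 * g1 + u2 * g2) ^ 2 + (u2 * g1 - u1 * g2) ^ 2 <
      -2 * (u1 * g1 + u2 * g2) * Dq lam g1 g2 h1 h2 +
        2 * (-lam) * Kq g1 g2 h1 h2 * (u2 * g1 - u1 * g2) := by linarith
    have hlam' : -lam ≤ 8500 := by rw [abs_of_nonpos hl] at hlam; exact hlam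
    obtain ⟨_, _, hb, ht, _, _, _⟩ := descent_abs_neg _ _ (-lam) _ _ mu _ _ _ _ _ eown ecov'
      (by linarith) hlam' hDD hKK hmu' hGG hKk hom ebk ePk
    obtain ⟨r1, r2, r3, r4⟩ := descent_T_neg _ _ (-lam) _ _ mu _ _ _ _ _ lk eown ecov'
      (by linarith) hlam' hDD hKK hmu' hGG hKk hom ebk ePk hlk
    refine ⟨mul_neg_of_neg_of_pos (by linarith) hb, mul_pos r1 hb, ?_, ?_⟩
    · rw [abs_of_pos r1, abs_of_nonpos hl]; exact r2
    · unfold Tq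
      rw [abs_of_pos r1, abs_of_pos hb, abs_of_nonpos hl, hDk]; exact r4
  · have eown' : (u1 * g1 + u2 * g2) ^ 2 + (-(u2 * g1 - u1 * g2)) ^ 2 <
      2 * mu * (g1 ^ 2 + g2 ^ 2) * (u1 * g1 + u2 * g2) := by rw [neg_sq]; exact eown
    have ecov' : (u1 * g1 + u2 * g2) ^ 2 + (-(u2 * g1 - u1 * g2)) ^ 2 <
      -2 * (u1 * g1 + u2 * g2) * Dq lam g1 g2 h1 h2 +
        2 * lam * Kq g1 g2 h1 h2 * (-(u2 * g1 - u1 * g2)) := by rw [neg_sq]; linarith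
    have ebk' : mu * (g1 ^ 2 + g2 ^ 2) * (-bk) =
      (-(u2 * g1 - u1 * g2)) * Kq k1 k2 (mu * g1) (mu * g2) +
        (u1 * g1 + u2 * g2) * (-omq k1 k2 (mu * g1) (mu * g2)) := by linarith
    have ePk' : (g1 ^ 2 + g2 ^ 2) *
      (2 * (u1 * (mu * g1) + u2 * (mu * g2)) - (u1 ^ 2 + u2 ^ 2)) =
      2 * mu * (g1 ^ 2 + g2 ^ 2) * (u1 * g1 + u2 * g2) -
        ((u1 * g1 + u2 * g2) ^ 2 + (-(u2 * g1 - u1 * g2)) ^ 2) := by
      rw [neg_sq]; exact ePk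
    have hom' : |-omq k1 k2 (mu * g1) (mu * g2)| ≤ 0.000000001 := by rw [abs_neg]; exact hom
    have hlk' : 2 * (u1 * (mu * g1) + u2 * (mu * g2)) - (u1 ^ 2 + u2 ^ 2) =
      2 * (-lk) * (-bk) := by rw [hlk]; ring
    have hlam' : lam ≤ 8500 := by rw [abs_of_nonneg hl] at hlam; exact hlam
    obtain ⟨_, _, hb, ht, _, _, _⟩ := descent_abs_neg _ _ lam _ _ mu _ _ _ _ _ eown' ecov'
      hl hlam' hDD hKK hmu' hGG hKk hom' ebk' ePk'
    obtain ⟨r1, r2, r3, r4⟩ := descent_T_neg _ _ lam _ _ mu _ _ _ _ _ (-lk) eown' ecov'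
      hl hlam' hDD hKK hmu' hGG hKk hom' ebk' ePk' hlk'
    have hb' : bk < 0 := by linarith
    have hlk0 : lk < 0 := by linarith
    refine ⟨mul_neg_of_pos_of_neg ht hb', mul_pos_of_neg_of_neg hlk0 hb', ?_, ?_⟩
    · rw [abs_of_neg hlk0, abs_of_nonneg hl]; exact r2
    · unfold Tq
      rw [abs_of_neg hlk0, abs_of_neg hb', abs_of_nonneg hl, hDk]
      have e : (-lk) * (-omq k1 k2 (mu * g1) (mu * g2)) = lk * omq k1 k2 (mu * g1) (mu * g2) := by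
        ring
      rw [e] at r4
      exact r4

/-- The supporter lies on the other side. -/
theorem adj_sign (g1 g2 h1 h2 k1 k2 mu u1 u2 lam : ℝ)
    (hg : NearHalf g1 g2) (hh : NearHalf h1 h2) (hkk : NearHalf k1 k2)
    (hmg : NearHalf (mu * g1) (mu * g2))
    (hmu : |mu - 1| ≤ 0.000001)
    (hk : k1 ^ 2 + k2 ^ 2 = (mu * g1) ^ 2 + (mu * g2) ^ 2)
    (hlam : |lam| ≤ 8500)
    (hown : u1 ^ 2 + u2 ^ 2 < 2 * (u1 * (mu * g1) + u2 * (mu * g2)))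
    (hcov : u1 ^ 2 + u2 ^ 2 <
      2 * (u1 * (-g1 + lam * (g2 + h2)) + u2 * (-g2 - lam * (g1 + h1)))) :
    lam * ((mu * g1 + k1) * u2 - (mu * g2 + k2) * u1) < 0 := by
  set bk := (mu * g1 + k1) * u2 - (mu * g2 + k2) * u1 with hbkdef
  have hG := hg.G
  have hGG : |g1 ^ 2 + g2 ^ 2 - 1/4| ≤ 0.00001 := by linarith
  have hDD := hg.D hh (lam := lam) (by linarith)
  have hKK := hg.K hh
  have hKk := hkk.K hmg
  have hom : |omq k1 k2 (mu * g1) (mu * g2)| ≤ 0.000000001 := by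
    have := hkk.omq hmg; linarith
  have hmu' : |mu - 1| ≤ 0.00001 := by linarith
  have hG0 : 0 < g1 ^ 2 + g2 ^ 2 := by
    obtain ⟨h5, h6⟩ := abs_le.mp hG; linarith
  have eown : (u1 * g1 + u2 * g2) ^ 2 + (u2 * g1 - u1 * g2) ^ 2 <
      2 * mu * (g1 ^ 2 + g2 ^ 2) * (u1 * g1 + u2 * g2) := by
    have := mul_lt_mul_of_pos_left hown hG0
    nlinarith
  have ecov : (u1 * g1 + u2 * g2) ^ 2 + (u2 * g1 - u1 * g2) ^ 2 <
      -2 * (u1 * g1 + u2 * g2) * Dq lam g1 g2 h1 h2 -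
        2 * lam * Kq g1 g2 h1 h2 * (u2 * g1 - u1 * g2) := by
    have := mul_lt_mul_of_pos_left hcov hG0
    unfold Dq Kq omq
    nlinarith
  have ebk : mu * (g1 ^ 2 + g2 ^ 2) * bk =
      (u2 * g1 - u1 * g2) * Kq k1 k2 (mu * g1) (mu * g2) +
        (u1 * g1 + u2 * g2) * omq k1 k2 (mu * g1) (mu * g2) := by
    rw [hbkdef]
    unfold Kq omq
    rw [hk]
    ring
  have ePk : (g1 ^ 2 + g2 ^ 2) *
      (2 * (u1 * (mu * g1) + u2 * (mu * g2)) - (u1 ^ 2 + u2 ^ 2)) =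
      2 * mu * (g1 ^ 2 + g2 ^ 2) * (u1 * g1 + u2 * g2) -
        ((u1 * g1 + u2 * g2) ^ 2 + (u2 * g1 - u1 * g2) ^ 2) := by
    ring
  rcases le_total lam 0 with hl | hl
  · have ecov' : (u1 * g1 + u2 * g2) ^ 2 + (u2 * g1 - u1 * g2) ^ 2 <
      -2 * (u1 * g1 + u2 * g2) * Dq lam g1 g2 h1 h2 +
        2 * (-lam) * Kq g1 g2 h1 h2 * (u2 * g1 - u1 * g2) := by linarith
    have hlam' : -lam ≤ 8500 := by rw [abs_of_nonpos hl] at hlam; exact hlam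
    obtain ⟨_, _, hb, ht, _, _, _⟩ := descent_abs_neg _ _ (-lam) _ _ mu _ _ _ _ _ eown ecov'
      (by linarith) hlam' hDD hKK hmu' hGG hKk hom ebk ePk
    exact mul_neg_of_neg_of_pos (by linarith) hb
  · have eown' : (u1 * g1 + u2 * g2) ^ 2 + (-(u2 * g1 - u1 * g2)) ^ 2 <
      2 * mu * (g1 ^ 2 + g2 ^ 2) * (u1 * g1 + u2 * g2) := by rw [neg_sq]; exact eown
    have ecov' : (u1 * g1 + u2 * g2) ^ 2 + (-(u2 * g1 - u1 * g2)) ^ 2 <
      -2 * (u1 * g1 + u2 * g2) * Dq lam g1 g2 h1 h2 +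
        2 * lam * Kq g1 g2 h1 h2 * (-(u2 * g1 - u1 * g2)) := by rw [neg_sq]; linarith
    have ebk' : mu * (g1 ^ 2 + g2 ^ 2) * (-bk) =
      (-(u2 * g1 - u1 * g2)) * Kq k1 k2 (mu * g1) (mu * g2) +
        (u1 * g1 + u2 * g2) * (-omq k1 k2 (mu * g1) (mu * g2)) := by linarith
    have ePk' : (g1 ^ 2 + g2 ^ 2) *
      (2 * (u1 * (mu * g1) + u2 * (mu * g2)) - (u1 ^ 2 + u2 ^ 2)) =
      2 * mu * (g1 ^ 2 + g2 ^ 2) * (u1 * g1 + u2 * g2) -
        ((u1 * g1 + u2 * g2) ^ 2 + (-(u2 * g1 - u1 * g2)) ^ 2) := by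
      rw [neg_sq]; exact ePk
    have hom' : |-omq k1 k2 (mu * g1) (mu * g2)| ≤ 0.000000001 := by rw [abs_neg]; exact hom
    have hlam' : lam ≤ 8500 := by rw [abs_of_nonneg hl] at hlam; exact hlam
    obtain ⟨_, _, hb, ht, _, _, _⟩ := descent_abs_neg _ _ lam _ _ mu _ _ _ _ _ eown' ecov'
      hl hlam' hDD hKK hmu' hGG hKk hom' ebk' ePk'
    have hb' : bk < 0 := by linarith
    exact mul_neg_of_pos_of_neg ht hb'

end Pool.Agent.Lib.P962033
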