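import Pool.Agent.Lib.P962033.Global

/-!
The lower bound for the number of white points.
-/

namespace Pool.Agent.Lib.P962033

open Finset

namespace Strip

variable {N : ℕ} (S : Strip N)

/-- chain of the top points -/
def topChain (w : ℕ → ℝ × ℝ)
    (hw : ∀ i < 400 * N, HitP (S.px i) (S.py i) (S.tm1 i 0) (S.tm2 i 0) (w i).1 (w i).2) :
    Chain where
  M := 400 * N
  px := S.px
  py := S.py
  vx := S.vx
  vy := S.vy
  wx := fun i => (w i).1
  wy := fun i => (w i).2
  near_v := S.top.near_v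
  near_u := S.top.near_u
  eq_norm := S.top.eq_norm
  tangent := S.top.tangent
  near_p := S.top.near_p
  own := by
    intro i hi
    have h := hw i hi
    unfold HitP tm1 tm2 at h
    linarith

/-- chain of the bottom points, in its own frame -/
noncomputable def botChain (z : ℕ → ℝ × ℝ)
    (hz : ∀ j < N, HitP (fx (S.qx j)) (fy (S.qy j)) (S.bm1 j 0) (S.bm2 j 0)
      (fx (z j).1) (fy (z j).2)) :
    Chain where
  M := N
  px := fun j => S.qx j / 400
  py := fun j => -(S.qy j + 3200) / 400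
  vx := S.sx
  vy := S.sy
  wx := fun j => fx (z j).1
  wy := fun j => fy (z j).2
  near_v := S.bot.near_v
  near_u := S.bot.near_u
  eq_norm := S.bot.eq_norm
  tangent := S.bot.tangent
  near_p := S.bot.near_p
  own := by
    intro j hj
    have h := hz j hj
    unfold HitP bm1 bm2 at h
    unfold fx fy at h ⊢
    linarith

theorem top_hit_iff {w : ℕ → ℝ × ℝ} {hw} {i k : ℕ} {l : ℝ} :
    HitP (S.px i) (S.py i) (S.tm1 i l) (S.tm2 i l) (w k).1 (w k).2 ↔
      2 * l * (S.topChain w hw).bf i ((S.topChain w hw).wx k) ((S.topChain w hw).wy k) <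
        (S.topChain w hw).Pf i ((S.topChain w hw).wx k) ((S.topChain w hw).wy k) := by
  unfold HitP tm1 tm2 Chain.bf Chain.Pf Chain.ux Chain.uy topChain
  simp only
  constructor <;> intro h <;> linarith

theorem bot_hit_iff {z : ℕ → ℝ × ℝ} {hz} {j k : ℕ} {l : ℝ} :
    HitP (fx (S.qx j)) (fy (S.qy j)) (S.bm1 j l) (S.bm2 j l) (fx (z k).1) (fy (z k).2) ↔
      2 * l * (S.botChain z hz).bf j ((S.botChain z hz).wx k) ((S.botChain z hz).wy k) <
        (S.botChain z hz).Pf j ((S.botChain z hz).wx k) ((S.botChain z hz).wy k) := by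
  unfold HitP bm1 bm2 Chain.bf Chain.Pf Chain.ux Chain.uy botChain
  unfold fx fy
  simp only
  constructor <;> intro h <;> linarith

/-- position of the whites of the top chain -/
theorem top_white_y {w : ℕ → ℝ × ℝ}
    (hw : ∀ i < 400 * N, HitP (S.px i) (S.py i) (S.tm1 i 0) (S.tm2 i 0) (w i).1 (w i).2)
    {k : ℕ} (hk : k < 400 * N) : -0.6 ≤ (w k).2 := by
  obtain ⟨_, _, h, _⟩ := own_box _ _ _ _ ((S.topChain w hw).near_u k hk)
    ((S.topChain w hw).own k hk)
  have h' : |(w k).2 - S.py k| ≤ 0.501 := h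
  have h2 := (S.top.near_p k hk.le).2
  rw [abs_le] at h' h2
  linarith

theorem bot_white_y {z : ℕ → ℝ × ℝ}
    (hz : ∀ j < N, HitP (fx (S.qx j)) (fy (S.qy j)) (S.bm1 j 0) (S.bm2 j 0)
      (fx (z j).1) (fy (z j).2))
    {k : ℕ} (hk : k < N) : (z k).2 ≤ -2999 := by
  obtain ⟨_, _, h, _⟩ := own_box _ _ _ _ ((S.botChain z hz).near_u k hk)
    ((S.botChain z hz).own k hk)
  have h' : |fy (z k).2 - (-(S.qy k + 3200) / 400)| ≤ 0.501 := h
  have h2 := S.qy_near hk.le
  unfold fy at h'
  rw [abs_le] at h' h2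
  linarith

end Strip

theorem strip_bound (K Nb Lb N : ℕ) (hNb : 44402400 ≤ Nb) (hLb : Lb = 90 + 300 * Nb)
    (hN : N = K * Lb)
    (S : Strip N) (W : Finset (ℝ × ℝ)) (hb : S.Blk W) :
    400 * N + N + K ≤ W.card := by
  classical
  by_contra hcon
  push Not at hcon
  -- choose whites
  have hw0 : ∀ i : ℕ, ∃ z : ℝ × ℝ, i < 400 * N →
      z ∈ W ∧ HitP (S.px i) (S.py i) (S.tm1 i 0) (S.tm2 i 0) z.1 z.2 := by
    intro i
    by_cases hi : i < 400 * N
    · obtain ⟨z, hz1, hz2⟩ := S.topW hb hi (l := 0) (by norm_num) (by norm_num)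
      exact ⟨z, fun _ => ⟨hz1, hz2⟩⟩
    · exact ⟨(0, 0), fun h => absurd h hi⟩
  choose w hw using hw0
  have hz0 : ∀ j : ℕ, ∃ z : ℝ × ℝ, j < N →
      z ∈ W ∧ HitP (Strip.fx (S.qx j)) (Strip.fy (S.qy j)) (S.bm1 j 0) (S.bm2 j 0)
        (Strip.fx z.1) (Strip.fy z.2) := by
    intro j
    by_cases hj : j < N
    · obtain ⟨z, hz1, hz2⟩ := S.botW hb hj (l := 0) (by norm_num) (by norm_num)
      exact ⟨z, fun _ => ⟨hz1, hz2⟩⟩
    · exact ⟨(0, 0), fun h => absurd h hj⟩
  choose z hz using hz0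
  have hw1 : ∀ i < 400 * N, HitP (S.px i) (S.py i) (S.tm1 i 0) (S.tm2 i 0) (w i).1 (w i).2 :=
    fun i hi => (hw i hi).2
  have hz1 : ∀ j < N, HitP (Strip.fx (S.qx j)) (Strip.fy (S.qy j)) (S.bm1 j 0) (S.bm2 j 0)
      (Strip.fx (z j).1) (Strip.fy (z j).2) := fun j hj => (hz j hj).2
  set Ct := S.topChain w hw1 with hCt
  set Cb := S.botChain z hz1 with hCb
  -- sets of representatives
  set Wt := (range (400 * N)).image w with hWt
  set Wb := (range N).image z with hWb
  have hcWt : Wt.card = 400 * N := by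
    rw [hWt, card_image_of_injOn, card_range]
    intro i hi k hk hik
    rw [Finset.coe_range, Set.mem_Iio] at hi hk
    exact Ct.inj (i := i) (k := k) hi hk (congrArg Prod.fst hik) (congrArg Prod.snd hik)
  have hcWb : Wb.card = N := by
    rw [hWb, card_image_of_injOn, card_range]
    intro i hi k hk hik
    rw [Finset.coe_range, Set.mem_Iio] at hi hk
    have e1 : z i = z k := hik
    have hx : Cb.wx i = Cb.wx k := by
      change Strip.fx (z i).1 = Strip.fx (z k).1
      rw [e1]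
    have hy : Cb.wy i = Cb.wy k := by
      change Strip.fy (z i).2 = Strip.fy (z k).2
      rw [e1]
    exact Cb.inj (i := i) (k := k) hi hk hx hy
  have hdisj : Disjoint Wt Wb := by
    rw [disjoint_left]
    intro a ha ha'
    rw [hWt, mem_image] at ha
    rw [hWb, mem_image] at ha'
    obtain ⟨i, hi, rfl⟩ := ha
    obtain ⟨j, hj, hij⟩ := ha'
    rw [mem_range] at hi hj
    have h1 := S.top_white_y hw1 hi
    have h2 := S.bot_white_y hz1 hj
    rw [hij] at h2
    linarith
  have hsub : Wt ∪ Wb ⊆ W := by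
    intro a ha
    rw [mem_union] at ha
    rcases ha with ha | ha
    · rw [hWt, mem_image] at ha
      obtain ⟨i, hi, rfl⟩ := ha
      exact (hw i (mem_range.mp hi)).1
    · rw [hWb, mem_image] at ha
      obtain ⟨i, hi, rfl⟩ := ha
      exact (hz i (mem_range.mp hi)).1
  set E := W \ (Wt ∪ Wb) with hE
  have hEcard : E.card < K := by
    have h1 := card_le_card hsub
    rw [card_union_of_disjoint hdisj, hcWt, hcWb] at h1
    rw [hE, card_sdiff_of_subset hsub, card_union_of_disjoint hdisj, hcWt, hcWb]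
    clear hNb
    omega
  have hLbpos : 0 < Lb := by omega
  have hLbR : (0 : ℝ) < Lb := by exact_mod_cast hLbpos
  obtain ⟨s, hsK, hs⟩ := exists_free_slab E (fun a => ⌊a.1 / (400 * Lb)⌋) K hEcard
  -- points of W in the slab are representatives
  have hrep : ∀ a ∈ W, 400 * (s * Lb : ℕ) < a.1 → a.1 < 400 * ((s * Lb + Lb : ℕ) : ℝ) →
      a ∈ Wt ∨ a ∈ Wb := by
    intro a ha h1 h2
    by_contra hc
    push Not at hc
    have haE : a ∈ E := by
      rw [hE, mem_sdiff, mem_union]
      exact ⟨ha, fun h => by rcases h with h | h; exact hc.1 h; exact hc.2 h⟩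
    apply hs a haE
    rw [Int.floor_eq_iff]
    push_cast at h1 h2 ⊢
    constructor
    · rw [le_div_iff₀ (by positivity)]; linarith
    · rw [div_lt_iff₀ (by positivity)]; linarith
  set A0 := s * Lb + 45 with hA0
  set A1 := s * Lb + 45 + 300 * Nb with hA1
  have hA1' : A1 + 45 = s * Lb + Lb := by rw [hA1, hLb]; ring
  have hsN : s * Lb + Lb ≤ N := by
    have : (s + 1) * Lb ≤ K * Lb := Nat.mul_le_mul_right _ hsK
    rw [hN]; linarith
  have hA1N : A1 ≤ N := by omega
  have hA0R : (A0 : ℝ) = (s * Lb : ℕ) + 45 := by rw [hA0]; push_cast; ring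
  have hA1R : (A1 : ℝ) + 45 = ((s * Lb + Lb : ℕ) : ℝ) := by exact_mod_cast hA1'
  -- support for the top chain
  have hSt : Ct.Supp (400 * A0) (400 * A1) 8499 1491.495 := by
    intro i hi1 hi2 l hl1 hl2
    have hiM : i < 400 * N := by omega
    obtain ⟨a, haW, hh⟩ := S.topW hb hiM (l := l) (by linarith) (by linarith)
    have hl : |l| ≤ 8500 := by rw [abs_le]; constructor <;> linarith
    obtain ⟨k1, k2⟩ := S.top.m_est hiM hl
    have k2' : |S.tm2 i l| ≤ 8501 := by
      obtain ⟨x1, x2⟩ := abs_le.mp k2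
      obtain ⟨x3, x4⟩ := abs_le.mp hl
      unfold Strip.tm2
      rw [abs_le]; constructor <;> linarith
    have hext := hh.extent k1 k2'
    obtain ⟨p1, _⟩ := S.top.near_p i hiM.le
    rw [abs_le] at hext p1
    have i1 : (400 * A0 : ℝ) ≤ i := by exact_mod_cast hi1
    have i2 : (i : ℝ) ≤ 400 * A1 := by
      have : i ≤ 400 * A1 := by omega
      exact_mod_cast this
    rcases hrep a haW (by linarith) (by linarith) with h | h
    · rw [hWt, mem_image] at h
      obtain ⟨k, hk, rfl⟩ := h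
      exact ⟨k, mem_range.mp hk, (S.top_hit_iff (hw := hw1)).mp hh⟩
    · exfalso
      rw [hWb, mem_image] at h
      obtain ⟨k, hk, rfl⟩ := h
      have hy := S.bot_white_y hz1 (mem_range.mp hk)
      obtain ⟨_, p2⟩ := S.top.near_p i hiM.le
      rw [abs_le] at p2
      refine no_hit_far (G := 2998) (Lam := 1491.6) (k1.trans (by norm_num)) ?_ ?_
        (by norm_num) (by norm_num) hh
      · obtain ⟨x1, x2⟩ := abs_le.mp k2
        unfold Strip.tm2
        linarith
      · linarith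
  have hSb : Cb.Supp A0 A1 20.9 3.904 := by
    intro j hj1 hj2 l hl1 hl2
    have hjM : j < N := by omega
    obtain ⟨a, haW, hh⟩ := S.botW hb hjM (l := l) (by linarith) (by linarith)
    have hl : |l| ≤ 8500 := by rw [abs_le]; constructor <;> linarith
    have hl' : |l| ≤ 21 := by rw [abs_le]; constructor <;> linarith
    obtain ⟨k1, k2⟩ := S.bot.m_est hjM hl
    have k2' : |S.bm2 j l| ≤ 22 := by
      obtain ⟨x1, x2⟩ := abs_le.mp k2
      obtain ⟨x3, x4⟩ := abs_le.mp hl'
      unfold Strip.bm2 Strip.fx Strip.fy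
      rw [abs_le]; constructor <;> linarith
    have hext := hh.extent k1 k2'
    have p1 := S.qx_near hjM.le
    unfold Strip.fx at hext
    rw [abs_le] at hext p1
    have i1 : (A0 : ℝ) ≤ j := by exact_mod_cast hj1
    have i2 : (j : ℝ) ≤ A1 := by
      have : j ≤ A1 := by omega
      exact_mod_cast this
    rcases hrep a haW (by linarith) (by linarith) with h | h
    · exfalso
      rw [hWt, mem_image] at h
      obtain ⟨k, hk, rfl⟩ := h
      have hy := S.top_white_y hw1 (mem_range.mp hk)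
      have p2 := S.qy_near hjM.le
      rw [abs_le] at p2
      refine no_hit_far (G := 7.99) (Lam := 3.9045) (k1.trans (by norm_num)) ?_ ?_
        (by norm_num) (by norm_num) hh
      · obtain ⟨x1, x2⟩ := abs_le.mp k2
        unfold Strip.bm2 Strip.fx Strip.fy
        linarith
      · unfold Strip.fy
        linarith
    · rw [hWb, mem_image] at h
      obtain ⟨k, hk, rfl⟩ := h
      exact ⟨k, mem_range.mp hk, (S.bot_hit_iff (hz := hz1)).mp hh⟩
  have hMt : Ct.M = 400 * N := rfl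
  have hMb : Cb.M = N := rfl
  -- heavy counts
  have hct := Ct.heavy_count (lo := 400 * A0) (hi := 400 * A1) (r0 := 1490) (by omega)
    (by norm_num) (by norm_num) (hSt.mono le_rfl le_rfl (by norm_num) (by norm_num))
  have hcb := Cb.heavy_count (lo := A0) (hi := A1) (r0 := 3.9) (by omega)
    (by norm_num) (by norm_num) (hSb.mono le_rfl le_rfl (by norm_num) (by norm_num))
  have hct' : cnt (Ct.Heavy 1490) (400 * A0) (400 * A1) ≤ 44402002 := by
    have : (cnt (Ct.Heavy 1490) (400 * A0) (400 * A1) : ℝ) ≤ (44402002 : ℕ) := by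
      refine hct.trans ?_
      norm_num
    exact_mod_cast this
  have hcb' : cnt (Cb.Heavy 3.9) A0 A1 ≤ 307 := by
    have : (cnt (Cb.Heavy 3.9) A0 A1 : ℝ) ≤ (307 : ℕ) := by
      refine hcb.trans ?_
      norm_num
    exact_mod_cast this
  obtain ⟨A, A', hA', hA2, hA3, hlt, hlb⟩ :=
    exists_light_block (Ct.Heavy 1490) (Cb.Heavy 3.9) A0 Nb (by
      have e : A0 + 300 * Nb = A1 := by rw [hA0, hA1]
      rw [e]; omega)
  have hA3' : A' ≤ A1 := by omega
  have hStA : Ct.Supp (400 * A) (400 * A') (5.2 * 1600.6) (1.001 * 1490) :=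
    hSt.mono (by omega) (by omega) (by norm_num) (by norm_num)
  have hSbA : Cb.Supp A A' (5.2 * 4) (1.001 * 3.9) :=
    hSb.mono (by omega) (by omega) (by norm_num) (by norm_num)
  have hAR : (A0 : ℝ) ≤ A := by exact_mod_cast hA2
  have hAR' : (A' : ℝ) ≤ A1 := by exact_mod_cast hA3'
  have hA'N : A' ≤ N := by omega
  clear_value A0 A1
  clear hcon hNb hsub hE hEcard hs hct hcb hct' hcb' hA3 hA2 hA3' hA1N hA1' hsN hA0 hA1 hLb hN
  -- mixed tests
  have hmix : ∀ i b : ℕ, ∀ m : ℝ, b ≤ N → 400 * A ≤ i → i ≤ 400 * A' →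
      (m = 1/8 ∨ m = -(1/8)) → 44 ≤ |S.px i + m - S.qx b| → |S.px i + m - S.qx b| ≤ 56 →
      (∃ c k, -1600.6 ≤ c ∧ c ≤ -1600.2 ∧ k < Ct.M ∧ Ct.Hit i k m c) ∨
      (∃ c k, -4 ≤ c ∧ c ≤ -3.995 ∧ k < Cb.M ∧
        Cb.Hit b k ((S.px i + m - S.qx b) / 400) c) := by
    intro i b m hb2 hi1 hi2 hm ht1 ht2
    have hiM : i ≤ 400 * N := by omega
    obtain ⟨c, c', c1, c2, c3, c4, a, haW, hh, hh'⟩ :=
      S.mixW hb hiM (b := b) hb2 hm rfl ht1 ht2
    have hmabs : |m| ≤ 0.15 := by
      rcases hm with h | h <;> rw [h] <;> norm_num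
    have hcabs : |c| ≤ 1601 := by rw [abs_le]; constructor <;> linarith
    have hext := hh.extent hmabs hcabs
    obtain ⟨p1, _⟩ := S.top.near_p i hiM
    rw [abs_le] at hext p1
    have i1 : (400 * A : ℝ) ≤ i := by exact_mod_cast hi1
    have i2 : (i : ℝ) ≤ 400 * A' := by exact_mod_cast hi2
    rcases hrep a haW (by linarith) (by linarith) with h | h
    · left
      rw [hWt, mem_image] at h
      obtain ⟨k, hk, rfl⟩ := h
      exact ⟨c, k, c1, c2, mem_range.mp hk, hh⟩
    · right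
      rw [hWb, mem_image] at h
      obtain ⟨k, hk, rfl⟩ := h
      exact ⟨c', k, c3, c4, mem_range.mp hk, hh'⟩
  -- position estimates
  have hpos : ∀ i b : ℕ, i ≤ 400 * N → b ≤ N → |S.px i - S.qx b - ((i : ℝ) - 400 * b)| ≤ 0.001 := by
    intro i b hi hb'
    have p1 := (S.top.near_p i hi).1
    have p2 := S.qx_near hb'
    rw [abs_le] at p1 p2 ⊢
    constructor <;> linarith
  -- one bottom black point, one sign
  have hside : ∀ b B : ℕ, ∀ sg : ℝ, b ≤ N → A + 10 ≤ b → b + 10 ≤ A' → 400 * A + 101 ≤ B →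
      B + 116 ≤ 400 * A' →
      ((sg = 1 ∧ B = 400 * b + 45) ∨ (sg = -1 ∧ B + 55 = 400 * b)) →
      ∃ a c k, RngG 4 a c ∧ k < Cb.M ∧ Cb.Hit b k (sg * a) c := by
    intro b B sg hbN hbA hbA' hB1 hB2 hsg
    by_contra hno
    have hall : ∀ m : ℝ, (m = 1/8 ∨ m = -(1/8)) → ∀ t < 10,
        ∃ c k, -1600.6 ≤ c ∧ c ≤ -1600.2 ∧ k < Ct.M ∧ Ct.Hit (B + t + 1) k m c := by
      intro m hm t ht
      have hi1 : B + t + 1 ≤ 400 * A' := by omega
      have hi2 : 400 * A ≤ B + t + 1 := by omega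
      have hpp := hpos (B + t + 1) b (by omega) hbN
      push_cast at hpp
      rw [abs_le] at hpp
      have ht' : (t : ℝ) ≤ 9 := by
        have : t ≤ 9 := by omega
        exact_mod_cast this
      have ht0 : (0 : ℝ) ≤ t := Nat.cast_nonneg t
      have hm1 : -(1/8) ≤ m ∧ m ≤ 1/8 := by
        rcases hm with h | h <;> rw [h] <;> norm_num
      set T := S.px (B + t + 1) + m - S.qx b with hT
      have hsT : 44 ≤ sg * T ∧ sg * T ≤ 56 := by
        rcases hsg with ⟨h1, h2⟩ | ⟨h1, h2⟩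
        · have h2' : (B : ℝ) = 400 * b + 45 := by exact_mod_cast h2
          rw [h1]; constructor <;> linarith
        · have h2' : (B : ℝ) + 55 = 400 * b := by exact_mod_cast h2
          rw [h1]; constructor <;> linarith
      have hsgT : sg * T = |T| := by
        rcases hsg with ⟨h1, _⟩ | ⟨h1, _⟩
        · rw [h1] at hsT ⊢; rw [abs_of_nonneg (by linarith)]; ring
        · rw [h1] at hsT ⊢; rw [abs_of_nonpos (by linarith)]; ring
      rcases hmix (B + t + 1) b m hbN hi2 hi1 hm (by rw [← hT, ← hsgT]; exact hsT.1)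
        (by rw [← hT, ← hsgT]; exact hsT.2) with h | h
      · exact h
      · exfalso
        apply hno
        obtain ⟨c, k, c1, c2, hk, hh⟩ := h
        refine ⟨sg * T / 400, c, k, ⟨by linarith, by linarith, by linarith, by linarith⟩, hk, ?_⟩
        have hsq : sg * sg = 1 := by
          rcases hsg with ⟨h1, _⟩ | ⟨h1, _⟩ <;> rw [h1] <;> norm_num
        have e : sg * (sg * T / 400) = T / 400 := by
          have : sg * (sg * T / 400) = (sg * sg) * T / 400 := by ring
          rw [this, hsq]; ring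
        rw [e]; exact hh
    refine Ct.window_contra (lo := 400 * A) (hi := 400 * A') (R := 1600.6) (r0 := 1490)
      (by rw [hMt]; omega) (by norm_num) (by norm_num) (by norm_num) (by norm_num) hStA hlt
      (i := B) hB1 hB2 ?_ ?_
    · intro t ht
      obtain ⟨c, k, c1, c2, hk, hh⟩ := hall (1/8) (Or.inl rfl) t ht
      exact ⟨1/8, c, k, ⟨by norm_num, by norm_num, by linarith, by linarith⟩, hk, hh⟩
    · intro t ht
      obtain ⟨c, k, c1, c2, hk, hh⟩ := hall (-(1/8)) (Or.inr rfl) t ht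
      exact ⟨1/8, c, k, ⟨by norm_num, by norm_num, by linarith, by linarith⟩, hk, hh⟩
  -- the contradiction
  refine Cb.window_contra (lo := A) (hi := A') (R := 4) (r0 := 3.9) hA'N
    (by norm_num) (by norm_num) (by norm_num) (by norm_num) hSbA hlb (i := A + 140)
    (by omega) (by omega) ?_ ?_
  · intro j hj
    obtain ⟨b, hbdef⟩ : ∃ b, b = A + 140 + j + 1 := ⟨_, rfl⟩
    obtain ⟨B, hB⟩ : ∃ B, B = 400 * b + 45 := ⟨_, rfl⟩
    obtain ⟨a, c, k, h1, h2, h3⟩ := hside b B 1 (by omega) (by omega) (by omega) (by omega)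
      (by omega) (Or.inl ⟨rfl, hB⟩)
    refine ⟨a, c, k, h1, h2, ?_⟩
    rw [← hbdef]
    rw [one_mul] at h3
    exact h3
  · intro j hj
    obtain ⟨b, hbdef⟩ : ∃ b, b = A + 140 + j + 1 := ⟨_, rfl⟩
    obtain ⟨B, hB⟩ : ∃ B, B + 55 = 400 * b := ⟨400 * b - 55, by omega⟩
    obtain ⟨a, c, k, h1, h2, h3⟩ := hside b B (-1) (by omega) (by omega) (by omega) (by omega)
      (by omega) (Or.inr ⟨rfl, hB⟩)
    refine ⟨a, c, k, h1, h2, ?_⟩
    rw [← hbdef]
    rw [neg_one_mul] at h3
    exact h3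

end Pool.Agent.Lib.P962033
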