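import Pool.Agent.Lib.P962033.Far

/-!
Chains of tangent disks with one white point in each disk.
-/

namespace Pool.Agent.Lib.P962033

theorem Tq_mirror {a b c d lam : ℝ} (h : a ^ 2 + b ^ 2 = c ^ 2 + d ^ 2) :
    Tq lam c (-d) a (-b) = Tq lam a b c d := by
  unfold Tq Kq Dq omq
  have e1 : c ^ 2 + (-d) ^ 2 + (c * a + -d * -b) = a ^ 2 + b ^ 2 + (a * c + b * d) := by
    rw [h]; ring
  have e2 : c ^ 2 + (-d) ^ 2 - lam * (-b * c - a * -d) =
      a ^ 2 + b ^ 2 - lam * (d * a - c * b) := by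
    rw [h]; ring
  rw [e1, e2]

structure Chain where
  M : ℕ
  px : ℕ → ℝ
  py : ℕ → ℝ
  vx : ℕ → ℝ
  vy : ℕ → ℝ
  wx : ℕ → ℝ
  wy : ℕ → ℝ
  near_v : ∀ i < M, NearHalf (vx i) (vy i)
  near_u : ∀ i < M, NearHalf (px (i + 1) - px i - vx i) (py (i + 1) - py i - vy i)
  eq_norm : ∀ i < M, vx i ^ 2 + vy i ^ 2 =
    (px (i + 1) - px i - vx i) ^ 2 + (py (i + 1) - py i - vy i) ^ 2
  tangent : ∀ i, i + 1 < M → ∃ mu : ℝ, |mu - 1| ≤ 0.0000001 ∧
    px (i + 1 + 1) - px (i + 1) - vx (i + 1) = mu * vx i ∧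
    py (i + 1 + 1) - py (i + 1) - vy (i + 1) = mu * vy i
  near_p : ∀ i ≤ M, |px i - i| ≤ 0.0000000001 ∧ |py i| ≤ 0.0000000001
  own : ∀ i < M, (wx i - px i) ^ 2 + (wy i - py i) ^ 2 <
    2 * ((wx i - px i) * (px (i + 1) - px i - vx i) + (wy i - py i) * (py (i + 1) - py i - vy i))

namespace Chain

variable (C : Chain)

def ux (i : ℕ) : ℝ := C.px (i + 1) - C.px i - C.vx i
def uy (i : ℕ) : ℝ := C.py (i + 1) - C.py i - C.vy i
def bf (i : ℕ) (x y : ℝ) : ℝ :=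
  (C.px (i + 1) - C.px i) * (y - C.py i) - (C.py (i + 1) - C.py i) * (x - C.px i)
def Pf (i : ℕ) (x y : ℝ) : ℝ :=
  2 * ((x - C.px i) * C.ux i + (y - C.py i) * C.uy i) - ((x - C.px i) ^ 2 + (y - C.py i) ^ 2)
def B (i : ℕ) : ℝ := C.bf i (C.wx i) (C.wy i)
def Pw (i : ℕ) : ℝ := C.Pf i (C.wx i) (C.wy i)
noncomputable def lam (i : ℕ) : ℝ := C.Pw i / (2 * C.B i)
noncomputable def T (i : ℕ) : ℝ := Tq (C.lam i) (C.vx i) (C.vy i) (C.ux i) (C.uy i)
def Cov (i k : ℕ) : Prop :=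
  2 * C.lam i * C.bf i (C.wx k) (C.wy k) < C.Pf i (C.wx k) (C.wy k)

theorem Pw_pos {i : ℕ} (hi : i < C.M) : 0 < C.Pw i := by
  have := C.own i hi
  unfold Pw Pf ux uy
  linarith

theorem Pw_eq {i : ℕ} (hB : C.B i ≠ 0) : C.Pw i = 2 * C.lam i * C.B i := by
  unfold lam
  field_simp

theorem not_cov_self {i : ℕ} (hB : C.B i ≠ 0) : ¬ C.Cov i i := by
  intro h
  have := C.Pw_eq hB
  unfold Cov at h
  unfold Pw B at this
  linarith

theorem abs_lam_B {i : ℕ} (hi : i < C.M) (hB : C.B i ≠ 0) :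
    C.Pw i = 2 * |C.lam i| * |C.B i| := by
  have h1 := C.Pw_eq hB
  have h2 := C.Pw_pos hi
  have h3 : |C.Pw i| = |2 * C.lam i * C.B i| := by rw [← h1]
  rw [abs_of_pos h2, abs_mul, abs_mul] at h3
  simpa using h3

theorem lam_B_pos {i : ℕ} (hi : i < C.M) (hB : C.B i ≠ 0) : 0 < C.lam i * C.B i := by
  have h1 := C.Pw_eq hB
  have h2 := C.Pw_pos hi
  linarith

/-- own bounds relative to the left black -/
theorem own_left {i : ℕ} (hi : i < C.M) :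
    (C.wx i - C.px i) ^ 2 + (C.wy i - C.py i) ^ 2 <
    2 * ((C.wx i - C.px i) * C.ux i + (C.wy i - C.py i) * C.uy i) := by
  have := C.own i hi
  unfold ux uy
  linarith

theorem own_right {i : ℕ} (hi : i < C.M) :
    (C.wx i - C.px (i + 1)) ^ 2 + (C.wy i - C.py (i + 1)) ^ 2 <
    -2 * ((C.wx i - C.px (i + 1)) * C.vx i + (C.wy i - C.py (i + 1)) * C.vy i) := by
  have h1 := C.own i hi
  have h2 := C.eq_norm i hi
  nlinarith

theorem Pf_right {i : ℕ} (hi : i < C.M) (x y : ℝ) :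
    C.Pf i x y = -2 * ((x - C.px (i + 1)) * C.vx i + (y - C.py (i + 1)) * C.vy i) -
      ((x - C.px (i + 1)) ^ 2 + (y - C.py (i + 1)) ^ 2) := by
  have h2 := C.eq_norm i hi
  unfold Pf ux uy
  linear_combination -h2

theorem bf_right (i : ℕ) (x y : ℝ) :
    C.bf i x y = (C.px (i + 1) - C.px i) * (y - C.py (i + 1)) -
      (C.py (i + 1) - C.py i) * (x - C.px (i + 1)) := by
  unfold bf
  ring

theorem right_adj {i : ℕ} (hi : i + 1 < C.M) (hlam : |C.lam i| ≤ 8500)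
    (hcov : C.Cov i (i + 1)) :
    C.lam i * C.B (i + 1) < 0 ∧ |C.lam (i + 1)| ≤ 1.001 * |C.lam i| ∧
      C.T (i + 1) + 1.8 * |C.B (i + 1)| ≤ C.T i := by
  obtain ⟨mu, hmu, ht1, ht2⟩ := C.tangent i hi
  have hmu' : |mu - 1| ≤ 0.000001 := by linarith
  have hi' : i < C.M := by omega
  have hg := C.near_v i hi'
  have hh := C.near_u i hi'
  have hk := C.near_v (i + 1) hi
  have hm := C.near_u (i + 1) hi
  have hn := C.eq_norm (i + 1) hi
  have how := C.own (i + 1) hi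
  rw [ht1, ht2] at hm hn how
  have hcov' : (C.wx (i + 1) - C.px (i + 1)) ^ 2 + (C.wy (i + 1) - C.py (i + 1)) ^ 2 <
      2 * ((C.wx (i + 1) - C.px (i + 1)) *
        (-C.vx i + C.lam i * (C.vy i + (C.py (i + 1) - C.py i - C.vy i))) +
        (C.wy (i + 1) - C.py (i + 1)) *
        (-C.vy i - C.lam i * (C.vx i + (C.px (i + 1) - C.px i - C.vx i)))) := by
    unfold Cov at hcov
    rw [C.Pf_right hi', C.bf_right] at hcov
    linarith
  have hbk : (mu * C.vx i + C.vx (i + 1)) * (C.wy (i + 1) - C.py (i + 1)) -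
      (mu * C.vy i + C.vy (i + 1)) * (C.wx (i + 1) - C.px (i + 1)) = C.B (i + 1) := by
    rw [← ht1, ← ht2]
    unfold B bf
    ring
  have s1 := adj_sign _ _ _ _ _ _ mu _ _ _ hg hh hk hm hmu' hn hlam how hcov'
  rw [hbk] at s1
  have hB : C.B (i + 1) ≠ 0 := by
    intro h0
    rw [h0] at s1
    simp at s1
  have hlk : 2 * ((C.wx (i + 1) - C.px (i + 1)) * (mu * C.vx i) +
      (C.wy (i + 1) - C.py (i + 1)) * (mu * C.vy i)) -
      ((C.wx (i + 1) - C.px (i + 1)) ^ 2 + (C.wy (i + 1) - C.py (i + 1)) ^ 2) =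
      2 * C.lam (i + 1) * ((mu * C.vx i + C.vx (i + 1)) * (C.wy (i + 1) - C.py (i + 1)) -
      (mu * C.vy i + C.vy (i + 1)) * (C.wx (i + 1) - C.px (i + 1))) := by
    rw [hbk, ← C.Pw_eq hB]
    unfold Pw Pf ux uy
    rw [ht1, ht2]
  obtain ⟨r1, r2, r3, r4⟩ := adj_descent _ _ _ _ _ _ mu _ _ _ _ hg hh hk hm hmu' hn hlam
    how hcov' hlk
  refine ⟨s1, r3, ?_⟩
  rw [hbk] at r4
  unfold T
  have e1 : C.ux (i + 1) = mu * C.vx i := ht1
  have e2 : C.uy (i + 1) = mu * C.vy i := ht2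
  rw [e1, e2]
  exact r4

theorem left_adj {i : ℕ} (hi : i + 1 < C.M) (hlam : |C.lam (i + 1)| ≤ 8500)
    (hcov : C.Cov (i + 1) i) :
    C.lam (i + 1) * C.B i < 0 ∧ |C.lam i| ≤ 1.001 * |C.lam (i + 1)| ∧
      C.T i + 1.8 * |C.B i| ≤ C.T (i + 1) := by
  obtain ⟨mu, hmu, ht1, ht2⟩ := C.tangent i hi
  have hi' : i < C.M := by omega
  obtain ⟨hmu1, hmu2⟩ := abs_le.mp hmu
  have hmu0 : 0 < mu := by linarith
  have hmuinv : |mu⁻¹ - 1| ≤ 0.000001 := by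
    have e : mu⁻¹ - 1 = (1 - mu) * mu⁻¹ := by field_simp
    rw [e, abs_mul, abs_sub_comm, abs_of_pos (inv_pos.mpr hmu0)]
    have : mu⁻¹ ≤ 2 := by
      rw [inv_le_comm₀ hmu0 (by norm_num)]; linarith
    calc |mu - 1| * mu⁻¹ ≤ 0.0000001 * 2 :=
          mul_le_mul hmu this (inv_pos.mpr hmu0).le (by norm_num)
      _ ≤ 0.000001 := by norm_num
  have e1 : mu⁻¹ * C.ux (i + 1) = C.vx i := by
    have : C.ux (i + 1) = mu * C.vx i := ht1
    rw [this]; field_simp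
  have e2 : mu⁻¹ * (-C.uy (i + 1)) = -C.vy i := by
    have : C.uy (i + 1) = mu * C.vy i := ht2
    rw [this]; field_simp
  have neg : ∀ {a b : ℝ}, NearHalf a b → NearHalf a (-b) := by
    intro a b h
    exact ⟨h.1, by rw [abs_neg]; exact h.2⟩
  have hg : NearHalf (C.ux (i + 1)) (-C.uy (i + 1)) := neg (C.near_u (i + 1) hi)
  have hh : NearHalf (C.vx (i + 1)) (-C.vy (i + 1)) := neg (C.near_v (i + 1) hi)
  have hk : NearHalf (C.ux i) (-C.uy i) := neg (C.near_u i hi')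
  have hm : NearHalf (mu⁻¹ * C.ux (i + 1)) (mu⁻¹ * (-C.uy (i + 1))) := by
    rw [e1, e2]; exact neg (C.near_v i hi')
  have hn : C.ux i ^ 2 + (-C.uy i) ^ 2 =
      (mu⁻¹ * C.ux (i + 1)) ^ 2 + (mu⁻¹ * (-C.uy (i + 1))) ^ 2 := by
    rw [e1, e2, neg_sq, neg_sq]
    exact (C.eq_norm i hi').symm
  have how : (-(C.wx i - C.px (i + 1))) ^ 2 + (C.wy i - C.py (i + 1)) ^ 2 <
      2 * ((-(C.wx i - C.px (i + 1))) * (mu⁻¹ * C.ux (i + 1)) +
        (C.wy i - C.py (i + 1)) * (mu⁻¹ * (-C.uy (i + 1)))) := by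
    rw [e1, e2]
    have := C.own_right hi'
    linarith
  have hcov' : (-(C.wx i - C.px (i + 1))) ^ 2 + (C.wy i - C.py (i + 1)) ^ 2 <
      2 * ((-(C.wx i - C.px (i + 1))) *
        (-C.ux (i + 1) + C.lam (i + 1) * (-C.uy (i + 1) + -C.vy (i + 1))) +
        (C.wy i - C.py (i + 1)) *
        (-(-C.uy (i + 1)) - C.lam (i + 1) * (C.ux (i + 1) + C.vx (i + 1)))) := by
    unfold Cov bf Pf at hcov
    unfold ux uy at hcov ⊢
    linarith
  have hbk : (mu⁻¹ * C.ux (i + 1) + C.ux i) * (C.wy i - C.py (i + 1)) -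
      (mu⁻¹ * (-C.uy (i + 1)) + -C.uy i) * (-(C.wx i - C.px (i + 1))) = C.B i := by
    rw [e1, e2]
    unfold B
    rw [C.bf_right]
    unfold ux uy
    ring
  have s1 := adj_sign _ _ _ _ _ _ mu⁻¹ _ _ _ hg hh hk hm hmuinv hn hlam how hcov'
  rw [hbk] at s1
  have hB : C.B i ≠ 0 := by
    intro h0
    rw [h0] at s1
    simp at s1
  have hlk : 2 * ((-(C.wx i - C.px (i + 1))) * (mu⁻¹ * C.ux (i + 1)) +
        (C.wy i - C.py (i + 1)) * (mu⁻¹ * (-C.uy (i + 1)))) -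
      ((-(C.wx i - C.px (i + 1))) ^ 2 + (C.wy i - C.py (i + 1)) ^ 2) =
      2 * C.lam i * ((mu⁻¹ * C.ux (i + 1) + C.ux i) * (C.wy i - C.py (i + 1)) -
      (mu⁻¹ * (-C.uy (i + 1)) + -C.uy i) * (-(C.wx i - C.px (i + 1)))) := by
    rw [hbk, ← C.Pw_eq hB, e1, e2]
    unfold Pw
    rw [C.Pf_right hi']
    ring
  obtain ⟨r1, r2, r3, r4⟩ := adj_descent _ _ _ _ _ _ mu⁻¹ _ _ _ _ hg hh hk hm hmuinv hn hlam
    how hcov' hlk
  refine ⟨s1, r3, ?_⟩
  rw [hbk, e1, e2] at r4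
  have t1 : Tq (C.lam i) (C.ux i) (-C.uy i) (C.vx i) (-C.vy i) = C.T i :=
    Tq_mirror (C.eq_norm i hi')
  have t2 : Tq (C.lam (i + 1)) (C.ux (i + 1)) (-C.uy (i + 1)) (C.vx (i + 1)) (-C.vy (i + 1)) =
      C.T (i + 1) :=
    Tq_mirror (C.eq_norm (i + 1) hi)
  rw [t1, t2] at r4
  exact r4

theorem T_est {i : ℕ} (hi : i < C.M) (h : |C.lam i| ≤ 8600) :
    1.9998 * |C.lam i| ≤ C.T i ∧ C.T i ≤ 2.0002 * |C.lam i| :=
  Tq_est (C.near_v i hi) (C.near_u i hi) h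

theorem far_case {i k : ℕ} (hi : i < C.M) (hk : k < C.M) (hd : i + 2 ≤ k ∨ k + 2 ≤ i)
    (hlam : |C.lam i| ≤ 8500) (hcov : C.Cov i k) :
    C.lam i * C.B k < 0 ∧ |C.lam k| ≤ 1.001 * |C.lam i| ∧
      0.98 ≤ |C.lam i| * |C.B k| ∧ |(k : ℝ) - i| ≤ 100 ∧
      C.T k + 0.1 * |(k : ℝ) - i| < C.T i := by
  obtain ⟨hi1, hi2⟩ := C.near_p i hi.le
  obtain ⟨hk1, hk2⟩ := C.near_p k hk.le
  have ha : |(C.px k - k) - (C.px i - i)| ≤ 0.0000000002 :=
    (abs_sub _ _).trans (by linarith)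
  have hb : |C.py k - C.py i| ≤ 0.0000000002 := (abs_sub _ _).trans (by linarith)
  have hd' : 2 ≤ (k : ℝ) - i ∨ (k : ℝ) - i ≤ -2 := by
    rcases hd with hd | hd
    · left
      have : (i : ℝ) + 2 ≤ k := by exact_mod_cast hd
      linarith
    · right
      have : (k : ℝ) + 2 ≤ i := by exact_mod_cast hd
      linarith
  have hcov' : 2 * C.lam i * ((C.vx i + C.ux i) * ((C.py k - C.py i) + (C.wy k - C.py k)) -
        (C.vy i + C.uy i) * (((k : ℝ) - i) + ((C.px k - k) - (C.px i - i)) +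
          (C.wx k - C.px k))) <
      2 * ((((k : ℝ) - i) + ((C.px k - k) - (C.px i - i)) + (C.wx k - C.px k)) * C.ux i +
        ((C.py k - C.py i) + (C.wy k - C.py k)) * C.uy i) -
      ((((k : ℝ) - i) + ((C.px k - k) - (C.px i - i)) + (C.wx k - C.px k)) ^ 2 +
        ((C.py k - C.py i) + (C.wy k - C.py k)) ^ 2) := by
    have e1 : ((k : ℝ) - i) + ((C.px k - k) - (C.px i - i)) + (C.wx k - C.px k) =
        C.wx k - C.px i := by ring
    have e2 : (C.py k - C.py i) + (C.wy k - C.py k) = C.wy k - C.py i := by ring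
    have e3 : C.vx i + C.ux i = C.px (i + 1) - C.px i := by unfold ux; ring
    have e4 : C.vy i + C.uy i = C.py (i + 1) - C.py i := by unfold uy; ring
    rw [e1, e2, e3, e4]
    exact hcov
  have hown : (C.wx k - C.px k) ^ 2 + (C.wy k - C.py k) ^ 2 <
    2 * ((C.wx k - C.px k) * C.ux k + (C.wy k - C.py k) * C.uy k) := C.own_left hk
  obtain ⟨r1, r2, r3, r4, r5⟩ := far_support _ _ _ _ (C.ux k) (C.uy k) (C.vx k) (C.vy k)
    _ _ _ _ _ _ (C.near_v i hi) (C.near_u i hi)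
    (C.near_u k hk) (C.near_v k hk) ha hb hd' hlam hown hcov'
  have hBk : (C.ux k + C.vx k) * (C.wy k - C.py k) - (C.uy k + C.vy k) * (C.wx k - C.px k) =
      C.B k := by
    unfold B bf ux uy; ring
  rw [hBk] at r1 r2
  have hB : C.B k ≠ 0 := by
    intro h0; rw [h0] at r1; simp at r1
  have hBpos : 0 < |C.B k| := abs_pos.mpr hB
  have hP := C.abs_lam_B hk hB
  have hPle : C.Pw k ≤ 0.2501 := (own_box _ _ _ _ (C.near_u k hk) (C.own k hk)).2.2.2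
  have hlk : |C.lam k| ≤ 0.13 * |C.lam i| := by
    have : |C.lam k| * |C.B k| ≤ (0.13 * |C.lam i|) * |C.B k| := by
      have : 2 * |C.lam k| * |C.B k| ≤ 0.2501 := by rw [← hP]; exact hPle
      linarith
    exact le_of_mul_le_mul_right this hBpos
  have hli := abs_nonneg (C.lam i)
  obtain ⟨t1, t2⟩ := C.T_est hi (by linarith)
  obtain ⟨t3, t4⟩ := C.T_est hk (by linarith)
  refine ⟨r1, by linarith, r2, r3, by linarith⟩

/-- All supporters satisfy the descent. -/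
theorem cov_cases {i k : ℕ} (hi : i < C.M) (hk : k < C.M) (hBi : C.B i ≠ 0)
    (hlam : |C.lam i| ≤ 8500) (hcov : C.Cov i k) :
    C.lam i * C.B k < 0 ∧ |C.lam k| ≤ 1.001 * |C.lam i| ∧ C.T k < C.T i ∧
    (((k = i + 1 ∨ i = k + 1) ∧ C.T k + 1.8 * |C.B k| ≤ C.T i) ∨
      (0.98 ≤ |C.lam i| * |C.B k| ∧ |(k : ℝ) - i| ≤ 100 ∧
      C.T k + 0.1 * |(k : ℝ) - i| < C.T i)) := by
  rcases lt_trichotomy k i with h | h | h
  · rcases Nat.eq_or_lt_of_le (Nat.succ_le_of_lt h) with h2 | h2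
    · have h2' : i = k + 1 := h2.symm
      subst h2'
      obtain ⟨r1, r2, r3⟩ := C.left_adj hi hlam hcov
      have hB : C.B k ≠ 0 := by
        intro h0; rw [h0] at r1; simp at r1
      have := abs_pos.mpr hB
      exact ⟨r1, r2, by linarith, Or.inl ⟨Or.inr rfl, r3⟩⟩
    · obtain ⟨r1, r2, r3, r4, r5⟩ := C.far_case hi hk (Or.inr (by omega)) hlam hcov
      have := abs_nonneg ((k : ℝ) - i)
      exact ⟨r1, r2, by linarith, Or.inr ⟨r3, r4, r5⟩⟩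
  · subst h
    exact absurd hcov (C.not_cov_self hBi)
  · rcases Nat.eq_or_lt_of_le (Nat.succ_le_of_lt h) with h2 | h2
    · have h2' : k = i + 1 := h2.symm
      subst h2'
      obtain ⟨r1, r2, r3⟩ := C.right_adj hk hlam hcov
      have hB : C.B (i + 1) ≠ 0 := by
        intro h0; rw [h0] at r1; simp at r1
      have := abs_pos.mpr hB
      exact ⟨r1, r2, by linarith, Or.inl ⟨Or.inl rfl, r3⟩⟩
    · obtain ⟨r1, r2, r3, r4, r5⟩ := C.far_case hi hk (Or.inl (by omega)) hlam hcov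
      have := abs_nonneg ((k : ℝ) - i)
      exact ⟨r1, r2, by linarith, Or.inr ⟨r3, r4, r5⟩⟩

end Chain

end Pool.Agent.Lib.P962033
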