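import Mathlib

/-!
Choosing heights one after the other so that the points are in general position.
-/

namespace Pool.Agent.Lib.P962033

/-- twice the signed area -/
def det3 (X y : ℕ → ℝ) (i j k : ℕ) : ℝ :=
  (X j - X i) * (y k - y i) - (X k - X i) * (y j - y i)

def OnCirc (X y : ℕ → ℝ) (o1 o2 r : ℝ) (i : ℕ) : Prop := (X i - o1) ^ 2 + (y i - o2) ^ 2 = r

def Cocirc (X y : ℕ → ℝ) (i j k l : ℕ) : Prop :=
  ∃ o1 o2 r, OnCirc X y o1 o2 r i ∧ OnCirc X y o1 o2 r j ∧ OnCirc X y o1 o2 r k ∧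
    OnCirc X y o1 o2 r l

theorem finite_line (X y : ℕ → ℝ) (i j : ℕ) (x : ℝ) (hij : X i ≠ X j) :
    {t : ℝ | (X j - X i) * (t - y i) - (x - X i) * (y j - y i) = 0}.Finite := by
  apply Set.Subsingleton.finite
  intro t ht t' ht'
  simp only [Set.mem_ofPred_eq] at ht ht'
  have h : (X j - X i) * (t - t') = 0 := by linear_combination ht - ht'
  rcases mul_eq_zero.mp h with h | h
  · exact absurd (by linarith) hij
  · linarith

theorem circle_unique (X y : ℕ → ℝ) {i j k : ℕ} (hd : det3 X y i j k ≠ 0)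
    {o1 o2 r o1' o2' r' : ℝ}
    (h1 : OnCirc X y o1 o2 r i) (h2 : OnCirc X y o1 o2 r j) (h3 : OnCirc X y o1 o2 r k)
    (h1' : OnCirc X y o1' o2' r' i) (h2' : OnCirc X y o1' o2' r' j)
    (h3' : OnCirc X y o1' o2' r' k) : o1 = o1' ∧ o2 = o2' ∧ r = r' := by
  unfold OnCirc at *
  unfold det3 at hd
  have e1 : (o1 - o1') * (X j - X i) + (o2 - o2') * (y j - y i) = 0 := by
    linear_combination (h1 - h1' - h2 + h2') / 2
  have e2 : (o1 - o1') * (X k - X i) + (o2 - o2') * (y k - y i) = 0 := by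
    linear_combination (h1 - h1' - h3 + h3') / 2
  have f1 : (o1 - o1') * ((X j - X i) * (y k - y i) - (X k - X i) * (y j - y i)) = 0 := by
    linear_combination (y k - y i) * e1 - (y j - y i) * e2
  have f2 : (o2 - o2') * ((X j - X i) * (y k - y i) - (X k - X i) * (y j - y i)) = 0 := by
    linear_combination (X j - X i) * e2 - (X k - X i) * e1
  have g1 : o1 - o1' = 0 := by
    rcases mul_eq_zero.mp f1 with h | h
    · exact h
    · exact absurd h hd
  have g2 : o2 - o2' = 0 := by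
    rcases mul_eq_zero.mp f2 with h | h
    · exact h
    · exact absurd h hd
  have g1' : o1 = o1' := by linarith
  have g2' : o2 = o2' := by linarith
  refine ⟨g1', g2', ?_⟩
  rw [g1', g2'] at h1
  rw [← h1, ← h1']

theorem finite_circ (X y : ℕ → ℝ) {i j k : ℕ} (x : ℝ) (hd : det3 X y i j k ≠ 0) :
    {t : ℝ | ∃ o1 o2 r, OnCirc X y o1 o2 r i ∧ OnCirc X y o1 o2 r j ∧
      OnCirc X y o1 o2 r k ∧ (x - o1) ^ 2 + (t - o2) ^ 2 = r}.Finite := by
  by_cases hex : ∃ o1 o2 r, OnCirc X y o1 o2 r i ∧ OnCirc X y o1 o2 r j ∧ OnCirc X y o1 o2 r k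
  · obtain ⟨p1, p2, s, q1, q2, q3⟩ := hex
    apply Set.Finite.subset
      (Set.toFinite ({p2 + Real.sqrt (s - (x - p1) ^ 2), p2 - Real.sqrt (s - (x - p1) ^ 2)} : Set ℝ))
    rintro t ⟨o1, o2, r, h1, h2, h3, h4⟩
    obtain ⟨e1, e2, e3⟩ := circle_unique X y hd h1 h2 h3 q1 q2 q3
    subst e1 e2 e3
    have h5 : (t - o2) ^ 2 = r - (x - o1) ^ 2 := by linarith
    have h6 : Real.sqrt (r - (x - o1) ^ 2) = |t - o2| := by
      rw [← h5, Real.sqrt_sq_eq_abs]
    rw [h6]
    simp only [Set.mem_insert_iff, Set.mem_singleton_iff]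
    rcases abs_choice (t - o2) with h | h
    · left; rw [h]; ring
    · right; rw [h]; ring
  · apply Set.Finite.subset Set.finite_empty
    rintro t ⟨o1, o2, r, h1, h2, h3, _⟩
    exact absurd ⟨o1, o2, r, h1, h2, h3⟩ hex

theorem exists_generic (X a b : ℕ → ℝ) (hab : ∀ k, a k < b k) (n : ℕ)
    (hX : ∀ i < n, ∀ j < n, i ≠ j → X i ≠ X j) :
    ∃ y : ℕ → ℝ, (∀ k < n, a k < y k ∧ y k < b k) ∧
      (∀ i < n, ∀ j < n, ∀ k < n, i ≠ j → i ≠ k → j ≠ k → det3 X y i j k ≠ 0) ∧
      (∀ i < n, ∀ j < n, ∀ k < n, ∀ l < n, i ≠ j → i ≠ k → i ≠ l → j ≠ k → j ≠ l → k ≠ l →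
        ¬ Cocirc X y i j k l) := by
  induction n with
  | zero =>
    exact ⟨fun _ => 0, by simp, by simp, by simp⟩
  | succ n ih =>
    obtain ⟨y, hy1, hy2, hy3⟩ := ih (fun i hi j hj => hX i (by omega) j (by omega))
    -- bad heights
    set B1 : Set ℝ := ⋃ i ∈ {i : ℕ | i < n}, ⋃ j ∈ {j : ℕ | j < n ∧ i ≠ j},
      {t : ℝ | (X j - X i) * (t - y i) - (X n - X i) * (y j - y i) = 0} with hB1
    set B2 : Set ℝ := ⋃ i ∈ {i : ℕ | i < n}, ⋃ j ∈ {j : ℕ | j < n ∧ i ≠ j},
      ⋃ k ∈ {k : ℕ | k < n ∧ i ≠ k ∧ j ≠ k},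
      {t : ℝ | ∃ o1 o2 r, OnCirc X y o1 o2 r i ∧ OnCirc X y o1 o2 r j ∧
      OnCirc X y o1 o2 r k ∧ (X n - o1) ^ 2 + (t - o2) ^ 2 = r} with hB2
    have hfin1 : B1.Finite := by
      apply Set.Finite.biUnion (Set.finite_lt_nat n)
      intro i hi
      apply Set.Finite.biUnion ((Set.finite_lt_nat n).subset (fun j hj => hj.1))
      intro j hj
      exact finite_line X y i j (X n) (hX i (Nat.lt_succ_of_lt hi) j (Nat.lt_succ_of_lt hj.1) hj.2)
    have hfin2 : B2.Finite := by
      apply Set.Finite.biUnion (Set.finite_lt_nat n)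
      intro i hi
      apply Set.Finite.biUnion ((Set.finite_lt_nat n).subset (fun j hj => hj.1))
      intro j hj
      apply Set.Finite.biUnion ((Set.finite_lt_nat n).subset (fun k hk => hk.1))
      intro k hk
      exact finite_circ X y (X n) (hy2 i hi j hj.1 k hk.1 hj.2 hk.2.1 hk.2.2)
    have hinf : (Set.Ioo (a n) (b n)).Infinite := Set.Ioo_infinite (hab n)
    obtain ⟨t, ht1, ht2⟩ := (hinf.sdiff (hfin1.union hfin2)).nonempty
    have htB1 : t ∉ B1 := fun h => ht2 (Or.inl h)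
    have htB2 : t ∉ B2 := fun h => ht2 (Or.inr h)
    set y' : ℕ → ℝ := Function.update y n t with hy'
    have hyn : y' n = t := by rw [hy']; simp
    have hyk : ∀ k < n, y' k = y k := by
      intro k hk
      rw [hy', Function.update_of_ne (by omega)]
    have hdet : ∀ i < n, ∀ j < n, i ≠ j → det3 X y' i j n ≠ 0 := by
      intro i hi j hj hij h
      apply htB1
      rw [hB1]
      simp only [Set.mem_iUnion, Set.mem_ofPred_eq]
      refine ⟨i, hi, j, ⟨hj, hij⟩, ?_⟩
      unfold det3 at h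
      rw [hyn, hyk i hi, hyk j hj] at h
      exact h
    have hcirc : ∀ i < n, ∀ j < n, ∀ k < n, i ≠ j → i ≠ k → j ≠ k → ¬ Cocirc X y' i j k n := by
      intro i hi j hj k hk hij hik hjk h
      apply htB2
      rw [hB2]
      simp only [Set.mem_iUnion, Set.mem_ofPred_eq]
      refine ⟨i, hi, j, ⟨hj, hij⟩, k, ⟨hk, hik, hjk⟩, ?_⟩
      obtain ⟨o1, o2, r, h1, h2, h3, h4⟩ := h
      unfold OnCirc at h1 h2 h3 h4 ⊢
      rw [hyk i hi] at h1
      rw [hyk j hj] at h2
      rw [hyk k hk] at h3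
      rw [hyn] at h4
      exact ⟨o1, o2, r, h1, h2, h3, h4⟩
    refine ⟨y', ?_, ?_, ?_⟩
    · intro k hk
      rcases Nat.lt_succ_iff_lt_or_eq.mp hk with h | h
      · rw [hyk k h]; exact hy1 k h
      · rw [h, hyn]; exact ht1
    · intro i hi j hj k hk hij hik hjk
      by_cases hkn : k = n
      · subst hkn
        exact hdet i (by omega) j (by omega) hij
      by_cases hjn : j = n
      · subst hjn
        intro h
        apply hdet i (by omega) k (by omega) hik
        unfold det3 at h ⊢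
        linear_combination -h
      by_cases hin : i = n
      · subst hin
        intro h
        apply hdet j (by omega) k (by omega) hjk
        unfold det3 at h ⊢
        linear_combination h
      have e := hy2 i (by omega) j (by omega) k (by omega) hij hik hjk
      unfold det3 at e ⊢
      rw [hyk i (by omega), hyk j (by omega), hyk k (by omega)]
      exact e
    · intro i hi j hj k hk l hl hij hik hil hjk hjl hkl
      by_cases hln : l = n
      · subst hln
        exact hcirc i (by omega) j (by omega) k (by omega) hij hik hjk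
      by_cases hkn : k = n
      · subst hkn
        rintro ⟨o1, o2, r, h1, h2, h3, h4⟩
        exact hcirc i (by omega) j (by omega) l (by omega) hij hil hjl ⟨o1, o2, r, h1, h2, h4, h3⟩
      by_cases hjn : j = n
      · subst hjn
        rintro ⟨o1, o2, r, h1, h2, h3, h4⟩
        exact hcirc i (by omega) k (by omega) l (by omega) hik hil hkl ⟨o1, o2, r, h1, h3, h4, h2⟩
      by_cases hin : i = n
      · subst hin
        rintro ⟨o1, o2, r, h1, h2, h3, h4⟩
        exact hcirc j (by omega) k (by omega) l (by omega) hjk hjl hkl ⟨o1, o2, r, h2, h3, h4, h1⟩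
      have e := hy3 i (by omega) j (by omega) k (by omega) l (by omega) hij hik hil hjk hjl hkl
      unfold Cocirc OnCirc at e ⊢
      rw [hyk i (by omega), hyk j (by omega), hyk k (by omega), hyk l (by omega)]
      exact e

end Pool.Agent.Lib.P962033
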