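import Pool.Agent.Lib.P962033.Bound
import Pool.Agent.Lib.P962033.Generic

/-!
Existence of a strip configuration in convex and general position.
-/

namespace Pool.Agent.Lib.P962033

open Finset

abbrev Plane := EuclideanSpace ℝ (Fin 2)

theorem dist_sq_plane (z o : Plane) : dist z o ^ 2 = (z 0 - o 0) ^ 2 + (z 1 - o 1) ^ 2 := by
  rw [EuclideanSpace.dist_eq, Real.sq_sqrt (by positivity), Fin.sum_univ_two, Real.dist_eq,
    Real.dist_eq, sq_abs, sq_abs]

theorem dist_lt_plane (z a o : Plane) : dist z o < dist a o ↔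
    (z 0 - o 0) ^ 2 + (z 1 - o 1) ^ 2 < (a 0 - o 0) ^ 2 + (a 1 - o 1) ^ 2 := by
  rw [← dist_sq_plane, ← dist_sq_plane]
  constructor
  · intro h
    exact pow_lt_pow_left₀ h dist_nonneg (by norm_num)
  · intro h
    exact lt_of_pow_lt_pow_left₀ 2 dist_nonneg h

theorem not_collinear_of_det {a b c : Plane}
    (h : (b 0 - a 0) * (c 1 - a 1) - (c 0 - a 0) * (b 1 - a 1) ≠ 0) :
    ¬ Collinear ℝ {a, b, c} := by
  intro hc
  rw [collinear_iff_of_mem (p₀ := a) (by simp)] at hc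
  obtain ⟨v, hv⟩ := hc
  obtain ⟨r1, hr1⟩ := hv b (by simp)
  obtain ⟨r2, hr2⟩ := hv c (by simp)
  apply h
  rw [hr1, hr2]
  simp only [vadd_eq_add, PiLp.add_apply, PiLp.smul_apply, smul_eq_mul]
  ring

theorem convexIndependent_of_support (P : Finset Plane)
    (h : ∀ x ∈ P, ∃ al be : ℝ, ∀ z ∈ P, z ≠ x → al * z 0 + be * z 1 < al * x 0 + be * x 1) :
    ConvexIndependent ℝ (fun p : P => (p : Plane)) := by
  change ConvexIndependent ℝ (Subtype.val : ↥(P : Set Plane) → Plane)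
  rw [convexIndependent_set_iff_notMem_convexHull_sdiff]
  intro x hx hmem
  obtain ⟨al, be, hs⟩ := h x hx
  have hlin : IsLinearMap ℝ (fun z : Plane => al * z 0 + be * z 1) := by
    constructor
    · intro u v
      simp only [PiLp.add_apply]
      ring
    · intro c u
      simp only [PiLp.smul_apply, smul_eq_mul]
      ring
  have hconv : Convex ℝ {z : Plane | al * z 0 + be * z 1 < al * x 0 + be * x 1} :=
    convex_halfSpace_lt hlin _
  have hsub : convexHull ℝ ((P : Set Plane) \ {x}) ⊆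
      {z : Plane | al * z 0 + be * z 1 < al * x 0 + be * x 1} := by
    apply convexHull_min _ hconv
    rintro z ⟨hz1, hz2⟩
    exact hs z hz1 hz2
  have h' := hsub hmem
  rw [Set.mem_ofPred_eq] at h'
  exact lt_irrefl _ h'

/-- base abscissae -/
noncomputable def cfgX (M : ℕ) (eta : ℝ) (k : ℕ) : ℝ :=
  if k ≤ M then (k : ℝ) else 400 * ((k - (M + 1) : ℕ) : ℝ) + eta

noncomputable def cfgC (M : ℕ) (e : ℝ) (k : ℕ) : ℝ :=
  if k ≤ M then -(e * (k : ℝ) ^ 2) else -3200 + e * (400 * ((k - (M + 1) : ℕ) : ℝ)) ^ 2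

theorem cfgX_top {M : ℕ} {eta : ℝ} {k : ℕ} (h : k ≤ M) : cfgX M eta k = k := by
  unfold cfgX; rw [if_pos h]

theorem cfgX_bot {M : ℕ} {eta : ℝ} (j : ℕ) : cfgX M eta (M + 1 + j) = 400 * j + eta := by
  unfold cfgX
  rw [if_neg (by omega), show M + 1 + j - (M + 1) = j by omega]

theorem cfgC_top {M : ℕ} {e : ℝ} {k : ℕ} (h : k ≤ M) : cfgC M e k = -(e * (k : ℝ) ^ 2) := by
  unfold cfgC; rw [if_pos h]

theorem cfgC_bot {M : ℕ} {e : ℝ} (j : ℕ) : cfgC M e (M + 1 + j) = -3200 + e * (400 * j) ^ 2 := by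
  unfold cfgC
  rw [if_neg (by omega), show M + 1 + j - (M + 1) = j by omega]

theorem cfgX_inj {N : ℕ} {eta : ℝ} (h1 : 0 < eta) (h2 : eta < 1) :
    ∀ i < 400 * N + 1 + (N + 1), ∀ j < 400 * N + 1 + (N + 1), i ≠ j →
      cfgX (400 * N) eta i ≠ cfgX (400 * N) eta j := by
  have hne : ∀ k l : ℕ, (k : ℝ) ≠ 400 * l + eta := by
    intro k l h
    have h3 : (400 * l : ℝ) < k := by linarith
    have h4 : (k : ℝ) < 400 * l + 1 := by linarith
    have h3' : 400 * l < k := by exact_mod_cast h3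
    have h4' : k < 400 * l + 1 := by exact_mod_cast h4
    omega
  intro i hi j hj hij
  by_cases hiM : i ≤ 400 * N
  · by_cases hjM : j ≤ 400 * N
    · rw [cfgX_top hiM, cfgX_top hjM]
      exact_mod_cast hij
    · obtain ⟨l, rfl⟩ : ∃ l, j = 400 * N + 1 + l := ⟨j - (400 * N + 1), by omega⟩
      rw [cfgX_top hiM, cfgX_bot]
      exact hne i l
  · obtain ⟨k, rfl⟩ : ∃ l, i = 400 * N + 1 + l := ⟨i - (400 * N + 1), by omega⟩
    by_cases hjM : j ≤ 400 * N
    · rw [cfgX_top hjM, cfgX_bot]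
      exact (hne j k).symm
    · obtain ⟨l, rfl⟩ : ∃ l, j = 400 * N + 1 + l := ⟨j - (400 * N + 1), by omega⟩
      rw [cfgX_bot, cfgX_bot]
      intro h
      apply hij
      have : (k : ℝ) = l := by linarith
      have : k = l := by exact_mod_cast this
      rw [this]

/-- strict supporting lines -/
theorem cfg_support {N : ℕ} {eta e : ℝ} (h1 : 0 < eta) (h2 : eta < 1) (he : 0 < e)
    (heM : 8 * e * ((400 * N : ℕ) + 1 : ℝ) ^ 2 ≤ 1) (y : ℕ → ℝ)
    (hy : ∀ k < 400 * N + 1 + (N + 1), cfgC (400 * N) e k - e / 8 < y k ∧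
      y k < cfgC (400 * N) e k + e / 8) :
    ∀ k < 400 * N + 1 + (N + 1), ∃ al be : ℝ, ∀ l < 400 * N + 1 + (N + 1), l ≠ k →
      al * cfgX (400 * N) eta l + be * y l < al * cfgX (400 * N) eta k + be * y k := by
  set M := 400 * N with hM
  have hMR : (0 : ℝ) ≤ M := Nat.cast_nonneg M
  have htop : ∀ k ≤ M, (k : ℝ) ^ 2 ≤ (M : ℝ) ^ 2 ∧ 0 ≤ (k : ℝ) ∧ (k : ℝ) ≤ M := by
    intro k hk
    have hk' : (k : ℝ) ≤ M := by exact_mod_cast hk
    have hk0 : (0 : ℝ) ≤ k := Nat.cast_nonneg k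
    exact ⟨pow_le_pow_left₀ hk0 hk' 2, hk0, hk'⟩
  have hbot : ∀ j ≤ N, (400 * j : ℝ) ≤ M ∧ 0 ≤ (400 * j : ℝ) := by
    intro j hj
    have : 400 * j ≤ M := by omega
    constructor
    · exact_mod_cast this
    · positivity
  have hexp : ((M : ℝ) + 1) ^ 2 = (M : ℝ) ^ 2 + 2 * M + 1 := by ring
  rw [hexp] at heM
  have heM2 : 0 ≤ e * (M : ℝ) ^ 2 := by positivity
  have heM1 : 0 ≤ e * (M : ℝ) := by positivity
  intro k hk
  by_cases hkM : k ≤ M
  · obtain ⟨k1, k2, k3⟩ := htop k hkM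
    refine ⟨2 * e * k, 1, ?_⟩
    intro l hl hlk
    have hyk := (hy k hk).1
    have hyl := (hy l hl).2
    rw [cfgC_top hkM] at hyk
    rw [cfgX_top hkM]
    by_cases hlM : l ≤ M
    · rw [cfgC_top hlM] at hyl
      rw [cfgX_top hlM]
      have hsq : 1 ≤ ((k : ℝ) - l) ^ 2 := by
        have : (1 : ℤ) ≤ ((k : ℤ) - l) ^ 2 := by
          have hne : (k : ℤ) - l ≠ 0 := by
            intro h0
            apply hlk
            omega
          have := sq_pos_of_ne_zero hne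
          omega
        exact_mod_cast this
      have : e * 1 ≤ e * ((k : ℝ) - l) ^ 2 := mul_le_mul_of_nonneg_left hsq he.le
      nlinarith
    · obtain ⟨j, rfl⟩ : ∃ j, l = M + 1 + j := ⟨l - (M + 1), by omega⟩
      rw [cfgC_bot] at hyl
      rw [cfgX_bot]
      obtain ⟨j1, j2⟩ := hbot j (by omega)
      have g1 : (400 * j : ℝ) ^ 2 ≤ (M : ℝ) ^ 2 := pow_le_pow_left₀ j2 j1 2
      have g2 : e * (400 * j : ℝ) ^ 2 ≤ e * (M : ℝ) ^ 2 := mul_le_mul_of_nonneg_left g1 he.le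
      have g3 : (k : ℝ) * (400 * j + eta) ≤ M * (M + 1) := by
        apply mul_le_mul k3 _ (by linarith) hMR
        linarith
      have g4 : e * ((k : ℝ) * (400 * j + eta)) ≤ e * (M * (M + 1)) :=
        mul_le_mul_of_nonneg_left g3 he.le
      have g5 : 0 ≤ e * (k : ℝ) ^ 2 := by positivity
      have g6 : e * (k : ℝ) ^ 2 ≤ e * (M : ℝ) ^ 2 := mul_le_mul_of_nonneg_left k1 he.le
      nlinarith
  · obtain ⟨i, rfl⟩ : ∃ i, k = M + 1 + i := ⟨k - (M + 1), by omega⟩
    obtain ⟨i1, i2⟩ := hbot i (by omega)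
    refine ⟨2 * e * (400 * i), -1, ?_⟩
    intro l hl hlk
    have hyk := (hy _ hk).2
    have hyl := (hy l hl).1
    rw [cfgC_bot] at hyk
    rw [cfgX_bot]
    have g1 : (400 * i : ℝ) ^ 2 ≤ (M : ℝ) ^ 2 := pow_le_pow_left₀ i2 i1 2
    have g2 : e * (400 * i : ℝ) ^ 2 ≤ e * (M : ℝ) ^ 2 := mul_le_mul_of_nonneg_left g1 he.le
    by_cases hlM : l ≤ M
    · obtain ⟨l1, l2, l3⟩ := htop l hlM
      rw [cfgC_top hlM] at hyl
      rw [cfgX_top hlM]
      have g3 : (400 * i : ℝ) * l ≤ M * M := mul_le_mul i1 l3 l2 hMR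
      have g4 : e * ((400 * i : ℝ) * l) ≤ e * (M * M) := mul_le_mul_of_nonneg_left g3 he.le
      have g6 : e * (l : ℝ) ^ 2 ≤ e * (M : ℝ) ^ 2 := mul_le_mul_of_nonneg_left l1 he.le
      have g7 : 0 ≤ e * ((400 * i : ℝ) * (400 * i + eta)) := by positivity
      nlinarith
    · obtain ⟨j, rfl⟩ : ∃ j, l = M + 1 + j := ⟨l - (M + 1), by omega⟩
      rw [cfgC_bot] at hyl
      rw [cfgX_bot]
      have hsq : 1 ≤ ((i : ℝ) - j) ^ 2 := by
        have : (1 : ℤ) ≤ ((i : ℤ) - j) ^ 2 := by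
          have hne : (i : ℤ) - j ≠ 0 := by
            intro h0
            apply hlk
            omega
          have := sq_pos_of_ne_zero hne
          omega
        exact_mod_cast this
      have : e * 1 ≤ e * ((i : ℝ) - j) ^ 2 := mul_le_mul_of_nonneg_left hsq he.le
      nlinarith

/-- no three points collinear, no four points on a common circle -/
def GenPos (S : Set Plane) : Prop :=
  (∀ a ∈ S, ∀ b ∈ S, ∀ c ∈ S, a ≠ b → a ≠ c → b ≠ c → ¬ Collinear ℝ {a, b, c}) ∧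
  (∀ a ∈ S, ∀ b ∈ S, ∀ c ∈ S, ∀ d ∈ S, a ≠ b → a ≠ c → a ≠ d → b ≠ c → b ≠ d → c ≠ d →
    ¬ ∃ (o : Plane) (r : ℝ), dist a o = r ∧ dist b o = r ∧ dist c o = r ∧ dist d o = r)

theorem exists_config (N : ℕ) : ∃ (S : Strip N) (P : Finset Plane), P.card = 401 * N + 2 ∧
    ConvexIndependent ℝ (fun p : P => (p : Plane)) ∧ GenPos (P : Set Plane) ∧
    ∀ z : Plane, z ∈ P ↔ ((z 0, z 1) : ℝ × ℝ) ∈ S.P := by
  classical
  obtain ⟨d1, hd1, H1⟩ := exists_necklace (400 * N)
  obtain ⟨d2, hd2, H2⟩ := exists_necklace N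
  set d := min (min d1 d2) (1/2) with hd
  have hdpos : 0 < d := lt_min (lt_min hd1 hd2) (by norm_num)
  have hdd1 : d ≤ d1 := (min_le_left _ _).trans (min_le_left _ _)
  have hdd2 : d ≤ d2 := (min_le_left _ _).trans (min_le_right _ _)
  have hdh : d ≤ 1/2 := min_le_right _ _
  set M := 400 * N with hM
  have hMR : (0 : ℝ) ≤ M := Nat.cast_nonneg M
  set e := d / (8 * ((M : ℝ) + 1) ^ 2) with he
  have hden : 0 < 8 * ((M : ℝ) + 1) ^ 2 := by positivity
  have hepos : 0 < e := div_pos hdpos hden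
  have heq : 8 * e * ((M : ℝ) + 1) ^ 2 = d := by
    rw [he]; field_simp
  have heM : 8 * e * ((M : ℝ) + 1) ^ 2 ≤ 1 := by rw [heq]; linarith
  obtain ⟨y, hy1, hy2, hy3⟩ := exists_generic (cfgX M d) (fun k => cfgC M e k - e / 8)
    (fun k => cfgC M e k + e / 8) (fun k => by linarith) (M + 1 + (N + 1))
    (cfgX_inj hdpos (by linarith))
  have hexp : ((M : ℝ) + 1) ^ 2 = (M : ℝ) ^ 2 + 2 * M + 1 := by ring
  have heq' := heq
  rw [hexp] at heq'
  have heM0 : 0 ≤ e * (M : ℝ) := by positivity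
  -- closeness
  have hct : ∀ k ≤ M, |cfgX M d k - k| ≤ d ∧ |y k| ≤ d := by
    intro k hk
    have hyk := hy1 k (by omega)
    rw [cfgC_top hk] at hyk
    rw [cfgX_top hk]
    have hk' : (k : ℝ) ≤ M := by exact_mod_cast hk
    have hk0 : (0 : ℝ) ≤ k := Nat.cast_nonneg k
    have g1 : (k : ℝ) ^ 2 ≤ (M : ℝ) ^ 2 := pow_le_pow_left₀ hk0 hk' 2
    have g2 : e * (k : ℝ) ^ 2 ≤ e * (M : ℝ) ^ 2 := mul_le_mul_of_nonneg_left g1 hepos.le
    have g3 : 0 ≤ e * (k : ℝ) ^ 2 := by positivity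
    constructor
    · rw [sub_self, abs_zero]; exact hdpos.le
    · rw [abs_le]; constructor <;> nlinarith
  have hcb : ∀ j ≤ N, |cfgX M d (M + 1 + j) / 400 - j| ≤ d ∧
      |-(y (M + 1 + j) + 3200) / 400| ≤ d := by
    intro j hj
    have hyk := hy1 (M + 1 + j) (by omega)
    rw [cfgC_bot] at hyk
    rw [cfgX_bot]
    have hk' : (400 * j : ℝ) ≤ M := by
      have : 400 * j ≤ M := by omega
      exact_mod_cast this
    have hk0 : (0 : ℝ) ≤ 400 * j := by positivity
    have g1 : (400 * j : ℝ) ^ 2 ≤ (M : ℝ) ^ 2 := pow_le_pow_left₀ hk0 hk' 2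
    have g2 : e * (400 * j : ℝ) ^ 2 ≤ e * (M : ℝ) ^ 2 := mul_le_mul_of_nonneg_left g1 hepos.le
    have g3 : 0 ≤ e * (400 * j : ℝ) ^ 2 := by positivity
    constructor
    · rw [show (400 * (j : ℝ) + d) / 400 - j = d / 400 by ring, abs_of_pos (by positivity)]
      linarith
    · rw [abs_le]; constructor <;> nlinarith
  obtain ⟨vx, vy, ht⟩ := H1 (cfgX M d) y (fun k hk => by
    obtain ⟨a, b⟩ := hct k hk; exact ⟨a.trans hdd1, b.trans hdd1⟩)
  obtain ⟨sx, sy, hb⟩ := H2 (fun j => cfgX M d (M + 1 + j) / 400)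
    (fun j => -(y (M + 1 + j) + 3200) / 400) (fun j hj => by
    obtain ⟨a, b⟩ := hcb j hj; exact ⟨a.trans hdd2, b.trans hdd2⟩)
  let S : Strip N := {
    px := cfgX M d
    py := y
    qx := fun j => cfgX M d (M + 1 + j)
    qy := fun j => y (M + 1 + j)
    vx := vx
    vy := vy
    sx := sx
    sy := sy
    top := ht
    bot := hb }
  set n := M + 1 + (N + 1) with hn
  let pt : ℕ → Plane := fun k => !₂[cfgX M d k, y k]
  have pt0 : ∀ k, pt k 0 = cfgX M d k := fun k => rfl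
  have pt1 : ∀ k, pt k 1 = y k := fun k => rfl
  have hXinj := cfgX_inj (N := N) hdpos (by linarith : d < 1)
  have hptinj : ∀ i < n, ∀ j < n, pt i = pt j → i = j := by
    intro i hi j hj h
    by_contra hij
    apply hXinj i hi j hj hij
    rw [← pt0, ← pt0, h]
  refine ⟨S, (range n).image pt, ?_, ?_, ?_, ?_⟩
  · rw [card_image_of_injOn, card_range]
    · omega
    · intro i hi j hj h
      rw [Finset.coe_range, Set.mem_Iio] at hi hj
      exact hptinj i hi j hj h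
  · apply convexIndependent_of_support
    intro x hx
    rw [mem_image] at hx
    obtain ⟨k, hk, rfl⟩ := hx
    rw [mem_range] at hk
    obtain ⟨al, be, hs⟩ := cfg_support hdpos (by linarith : d < 1) hepos heM y hy1 k hk
    refine ⟨al, be, ?_⟩
    intro z hz hzx
    rw [mem_image] at hz
    obtain ⟨l, hl, rfl⟩ := hz
    rw [mem_range] at hl
    rw [pt0, pt1, pt0, pt1]
    exact hs l hl (fun h => hzx (by rw [h]))
  · constructor
    · intro a ha b hb c hc hab hac hbc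
      rw [coe_image, coe_range] at ha hb hc
      obtain ⟨i, hi, rfl⟩ := ha
      obtain ⟨j, hj, rfl⟩ := hb
      obtain ⟨k, hk, rfl⟩ := hc
      apply not_collinear_of_det
      have := hy2 i hi j hj k hk (fun h => hab (by rw [h])) (fun h => hac (by rw [h]))
        (fun h => hbc (by rw [h]))
      unfold det3 at this
      rw [pt0, pt0, pt0, pt1, pt1, pt1]
      exact this
    · rintro a ha b hb c hc q hq hab hac haq hbc hbq hcq ⟨o, r, h1, h2, h3, h4⟩
      rw [coe_image, coe_range] at ha hb hc hq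
      obtain ⟨i, hi, rfl⟩ := ha
      obtain ⟨j, hj, rfl⟩ := hb
      obtain ⟨k, hk, rfl⟩ := hc
      obtain ⟨l, hl, rfl⟩ := hq
      apply hy3 i hi j hj k hk l hl (fun h => hab (by rw [h])) (fun h => hac (by rw [h]))
        (fun h => haq (by rw [h])) (fun h => hbc (by rw [h])) (fun h => hbq (by rw [h]))
        (fun h => hcq (by rw [h]))
      refine ⟨o 0, o 1, r ^ 2, ?_, ?_, ?_, ?_⟩
      · rw [← h1, dist_sq_plane, pt0, pt1]; rfl
      · rw [← h2, dist_sq_plane, pt0, pt1]; rfl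
      · rw [← h3, dist_sq_plane, pt0, pt1]; rfl
      · rw [← h4, dist_sq_plane, pt0, pt1]; rfl
  · intro z
    have hzext : ∀ k, pt k = z ↔ ((z 0, z 1) : ℝ × ℝ) = (cfgX M d k, y k) := by
      intro k
      constructor
      · intro h
        rw [← h, pt0, pt1]
      · intro h
        have h0 : z 0 = cfgX M d k := congrArg Prod.fst h
        have h1 : z 1 = y k := congrArg Prod.snd h
        ext i
        fin_cases i
        · exact h0.symm
        · exact h1.symm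
    rw [mem_image]
    constructor
    · rintro ⟨k, hk, hkz⟩
      rw [mem_range] at hk
      have h := (hzext k).mp hkz
      by_cases hkM : k ≤ M
      · exact Or.inl ⟨k, hkM, h⟩
      · refine Or.inr ⟨k - (M + 1), by omega, ?_⟩
        have : M + 1 + (k - (M + 1)) = k := by omega
        change _ = (cfgX M d (M + 1 + (k - (M + 1))), y (M + 1 + (k - (M + 1))))
        rw [this]
        exact h
    · rintro (⟨k, hk, h⟩ | ⟨l, hl, h⟩)
      · exact ⟨k, mem_range.mpr (by omega), (hzext k).mpr h⟩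
      · exact ⟨M + 1 + l, mem_range.mpr (by omega), (hzext _).mpr h⟩

end Pool.Agent.Lib.P962033
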