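import Mathlib

/-!
Pure real-number lemmas for the chain argument.
-/

namespace Pool.Agent.Lib.P962033

/-- Abstract descent inequality for two adjacent gaps, one sign. -/
theorem descent_abs_neg (al nu t D K mu G Kk om Pk bk : ℝ)
    (hown : al ^ 2 + nu ^ 2 < 2 * mu * G * al)
    (hcov : al ^ 2 + nu ^ 2 < -2 * al * D + 2 * t * K * nu)
    (ht0 : 0 ≤ t) (ht : t ≤ 8500)
    (hD : |D - 1/4| ≤ 0.00001) (hK : |K - 1/2| ≤ 0.00001) (hmu : |mu - 1| ≤ 0.00001)
    (hG : |G - 1/4| ≤ 0.00001) (hKk : |Kk - 1/2| ≤ 0.00001) (hom : |om| ≤ 0.000000001)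
    (hbk : mu * G * bk = nu * Kk + al * om)
    (hPk : G * Pk = 2 * mu * G * al - (al ^ 2 + nu ^ 2)) :
    0 < al ∧ 0 < nu ∧ 0 < bk ∧ 0 < t ∧ |bk - 2 * nu| ≤ 0.001 * nu ∧ 0 < Pk ∧
      Pk ≤ 2 * (1.001 * t) * bk := by
  obtain ⟨hD1, hD2⟩ := abs_le.mp hD
  obtain ⟨hK1, hK2⟩ := abs_le.mp hK
  obtain ⟨hmu1, hmu2⟩ := abs_le.mp hmu
  obtain ⟨hG1, hG2⟩ := abs_le.mp hG
  obtain ⟨hKk1, hKk2⟩ := abs_le.mp hKk
  have hGpos : 0 < G := by linarith
  have hmupos : 0 < mu := by linarith
  have hmuG : 0 < mu * G := mul_pos hmupos hGpos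
  have hal : 0 < al := by
    by_contra h
    push Not at h
    have : 2 * mu * G * al ≤ 0 := by
      apply mul_nonpos_of_nonneg_of_nonpos _ h
      positivity
    linarith [sq_nonneg al, sq_nonneg nu]
  have hDpos : 0 < D := by linarith
  have hKpos : 0 < K := by linarith
  have halD : 0 < al * D := mul_pos hal hDpos
  have h1 : 0 < 2 * t * K * nu := by
    linarith [sq_nonneg al, sq_nonneg nu]
  have hnu : 0 < nu := by
    by_contra h
    push Not at h
    have : 2 * t * K * nu ≤ 0 := by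
      apply mul_nonpos_of_nonneg_of_nonpos _ h
      positivity
    linarith
  have htpos : 0 < t := by
    by_contra h
    push Not at h
    have : t = 0 := le_antisymm h ht0
    subst this
    simp at h1
  -- al D ≤ t K nu
  have h2 : al * D ≤ t * K * nu := by linarith [sq_nonneg al, sq_nonneg nu]
  have htn : 0 < t * nu := mul_pos htpos hnu
  have h31 : al * 0.24999 ≤ al * D := by
    apply mul_le_mul_of_nonneg_left _ hal.le; linarith
  have h32 : t * K * nu ≤ 0.50001 * (t * nu) := by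
    have : t * K * nu = K * (t * nu) := by ring
    rw [this]
    apply mul_le_mul_of_nonneg_right _ htn.le; linarith
  have h3 : al ≤ 2.0002 * (t * nu) := by linarith
  have h4 : al ≤ 20000 * nu := by
    have : t * nu ≤ 8500 * nu := mul_le_mul_of_nonneg_right ht hnu.le
    linarith
  -- bk estimate
  have hmuG1 : mu * G ≤ 0.25002 := by
    have : mu * G ≤ 1.00001 * 0.25001 := by
      apply mul_le_mul <;> linarith
    linarith
  have hmuG2 : 0.24998 ≤ mu * G := by
    have : 0.99999 * 0.24999 ≤ mu * G := by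
      apply mul_le_mul <;> linarith
    linarith
  have hao : |al * om| ≤ 0.00002 * nu := by
    rw [abs_mul, abs_of_pos hal]
    calc al * |om| ≤ (20000 * nu) * 0.000000001 := by
          apply mul_le_mul h4 hom (abs_nonneg _) (by positivity)
      _ ≤ 0.00002 * nu := by linarith
  obtain ⟨hao1, hao2⟩ := abs_le.mp hao
  have hnK1 : nu * Kk ≤ nu * 0.50001 := mul_le_mul_of_nonneg_left (by linarith) hnu.le
  have hnK2 : nu * 0.49999 ≤ nu * Kk := mul_le_mul_of_nonneg_left (by linarith) hnu.le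
  have hbk1 : mu * G * bk ≤ 0.50003 * nu := by
    rw [hbk]; linarith
  have hbk2 : 0.49997 * nu ≤ mu * G * bk := by
    rw [hbk]; linarith
  have hbkpos : 0 < bk := by
    by_contra h
    push Not at h
    have : mu * G * bk ≤ 0 := mul_nonpos_of_nonneg_of_nonpos hmuG.le h
    linarith
  have hbk3 : bk ≤ 2.001 * nu := by
    have : 0.24998 * bk ≤ mu * G * bk := mul_le_mul_of_nonneg_right hmuG2 hbkpos.le
    linarith
  have hbk4 : 1.999 * nu ≤ bk := by
    have : mu * G * bk ≤ 0.25002 * bk := mul_le_mul_of_nonneg_right hmuG1 hbkpos.le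
    linarith
  have hbk5 : 1.9997 * nu ≤ bk := by
    have : mu * G * bk ≤ 0.25002 * bk := mul_le_mul_of_nonneg_right hmuG1 hbkpos.le
    linarith
  have hPkpos : 0 < Pk := by
    by_contra h
    push Not at h
    have : G * Pk ≤ 0 := mul_nonpos_of_nonneg_of_nonpos hGpos.le h
    linarith
  refine ⟨hal, hnu, hbkpos, htpos, ?_, hPkpos, ?_⟩
  · rw [abs_le]; constructor <;> linarith
  · -- Pk ≤ 2 mu al ≤ ...
    have hP1 : G * Pk ≤ G * (2 * mu * al) := by
      have : G * (2 * mu * al) = 2 * mu * G * al := by ring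
      rw [this, hPk]
      linarith [sq_nonneg al, sq_nonneg nu]
    have hP2 : Pk ≤ 2 * mu * al := le_of_mul_le_mul_left hP1 hGpos
    have hP3 : 2 * mu * al ≤ 2.00002 * al := by
      apply mul_le_mul_of_nonneg_right _ hal.le; linarith
    have hb5 : 1.9997 * (t * nu) ≤ t * bk := by
      have : t * (1.9997 * nu) ≤ t * bk := mul_le_mul_of_nonneg_left hbk5 ht0
      linarith
    have : 2 * (1.001 * t) * bk = 2.002 * (t * bk) := by ring
    rw [this]
    linarith


theorem descent_T_neg (al nu t D K mu G Kk om Pk bk lk : ℝ)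
    (hown : al ^ 2 + nu ^ 2 < 2 * mu * G * al)
    (hcov : al ^ 2 + nu ^ 2 < -2 * al * D + 2 * t * K * nu)
    (ht0 : 0 ≤ t) (ht : t ≤ 8500)
    (hD : |D - 1/4| ≤ 0.00001) (hK : |K - 1/2| ≤ 0.00001) (hmu : |mu - 1| ≤ 0.00001)
    (hG : |G - 1/4| ≤ 0.00001) (hKk : |Kk - 1/2| ≤ 0.00001) (hom : |om| ≤ 0.000000001)
    (hbk : mu * G * bk = nu * Kk + al * om)
    (hPk : G * Pk = 2 * mu * G * al - (al ^ 2 + nu ^ 2))
    (hlk : Pk = 2 * lk * bk) :
    0 < lk ∧ lk ≤ 1.001 * t ∧ 0 < mu ^ 2 * G - lk * om ∧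
      lk * Kk / (mu ^ 2 * G - lk * om) + 1.8 * bk ≤ t * K / D := by
  obtain ⟨hal, hnu, hbkpos, htpos, hbn, hPkpos, hPk2⟩ :=
    descent_abs_neg al nu t D K mu G Kk om Pk bk hown hcov ht0 ht hD hK hmu hG hKk hom hbk hPk
  obtain ⟨hD1, hD2⟩ := abs_le.mp hD
  obtain ⟨hK1, hK2⟩ := abs_le.mp hK
  obtain ⟨hmu1, hmu2⟩ := abs_le.mp hmu
  obtain ⟨hG1, hG2⟩ := abs_le.mp hG
  obtain ⟨hKk1, hKk2⟩ := abs_le.mp hKk
  obtain ⟨hbn1, hbn2⟩ := abs_le.mp hbn
  have hlkpos : 0 < lk := by
    by_contra h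
    push Not at h
    have : 2 * lk * bk ≤ 0 := mul_nonpos_of_nonpos_of_nonneg (by linarith) hbkpos.le
    linarith
  have hlk1 : lk ≤ 1.001 * t := by
    rw [hlk] at hPk2
    have h1 : 2 * lk ≤ 2 * (1.001 * t) := le_of_mul_le_mul_right hPk2 hbkpos
    linarith
  have hlk2 : lk ≤ 8600 := by linarith
  have hlo : |lk * om| ≤ 0.00001 := by
    rw [abs_mul, abs_of_pos hlkpos]
    calc lk * |om| ≤ 8600 * 0.000000001 :=
          mul_le_mul hlk2 hom (abs_nonneg _) (by norm_num)
      _ ≤ 0.00001 := by norm_num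
  obtain ⟨hlo1, hlo2⟩ := abs_le.mp hlo
  have hm2 : mu ^ 2 * G ≤ 0.2501 := by
    have h0 : mu * mu ≤ 1.00001 * 1.00001 := by
      apply mul_le_mul <;> linarith
    have h1 : mu ^ 2 ≤ 1.00003 := by rw [sq]; linarith
    have : mu ^ 2 * G ≤ 1.00003 * 0.25001 := by
      apply mul_le_mul h1 (by linarith) (by linarith) (by norm_num)
    linarith
  have hm3 : 0.2499 ≤ mu ^ 2 * G := by
    have h0 : 0.99999 * 0.99999 ≤ mu * mu := by
      apply mul_le_mul <;> linarith
    have h1 : 0.99997 ≤ mu ^ 2 := by rw [sq]; linarith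
    have : 0.99997 * 0.24999 ≤ mu ^ 2 * G := by
      apply mul_le_mul h1 (by linarith) (by norm_num) (by positivity)
    linarith
  set Dk := mu ^ 2 * G - lk * om with hDk
  have hDk1 : Dk ≤ 0.2502 := by linarith
  have hDk2 : 0.2498 ≤ Dk := by linarith
  have hDkpos : 0 < Dk := by linarith
  have hDpos : 0 < D := by linarith
  refine ⟨hlkpos, hlk1, hDkpos, ?_⟩
  -- C3
  have hC3 : mu * (al ^ 2 + nu ^ 2) = 2 * al * Dk - 2 * lk * Kk * nu := by
    have e1 : mu * (G * Pk) = 2 * lk * (mu * G * bk) := by rw [hlk]; ring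
    rw [hPk, hbk] at e1
    rw [hDk]
    linear_combination -e1
  set q := al ^ 2 + nu ^ 2 with hq
  have hqnu : nu * nu ≤ q := by rw [hq]; linarith [sq_nonneg al, sq nu]
  have hqpos : 0 < q := by
    have := mul_pos hnu hnu
    linarith
  set T := t * K / D with hT
  set Tk := lk * Kk / Dk with hTk
  have hTD : T * D = t * K := by rw [hT]; field_simp
  have hTkD : Tk * Dk = lk * Kk := by rw [hTk]; field_simp
  -- q/D + 2 al < 2 T nu
  have e2 : q / D + 2 * al < 2 * T * nu := by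
    have : (q / D + 2 * al) * D < (2 * T * nu) * D := by
      have e3 : (q / D + 2 * al) * D = q + 2 * al * D := by field_simp
      have e4 : (2 * T * nu) * D = 2 * (T * D) * nu := by ring
      rw [e3, e4, hTD]
      linarith
    exact lt_of_mul_lt_mul_right this hDpos.le
  have e5 : mu * q / Dk = 2 * al - 2 * Tk * nu := by
    rw [div_eq_iff hDkpos.ne']
    have : (2 * al - 2 * Tk * nu) * Dk = 2 * al * Dk - 2 * (Tk * Dk) * nu := by ring
    rw [this, hTkD, hC3]
    ring
  have e6 : 3.99 * q ≤ q / D := by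
    rw [le_div_iff₀ hDpos]
    have : q * (3.99 * D) ≤ q * 1 := mul_le_mul_of_nonneg_left (by linarith) hqpos.le
    linarith
  have e7 : 3.99 * q ≤ mu * q / Dk := by
    rw [le_div_iff₀ hDkpos]
    have : q * (3.99 * Dk) ≤ q * mu := mul_le_mul_of_nonneg_left (by linarith) hqpos.le
    linarith
  have e8 : 7.98 * q < 2 * (T - Tk) * nu := by linarith
  have e9 : 3.99 * nu < T - Tk := by
    have : (3.99 * nu) * nu < (T - Tk) * nu := by linarith
    exact lt_of_mul_lt_mul_right this hnu.le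
  linarith

end Pool.Agent.Lib.P962033
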