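import Pool.Agent.Lib.P962033.Window

/-!
The abstract facts hold for a light window of a chain.
-/

namespace Pool.Agent.Lib.P962033

theorem neg_of_mul_pos {E Y : ℝ} (hE : 0 < E) (h : E * Y < 0) : Y < 0 := by
  by_contra hc
  push Not at hc
  have := mul_nonneg hE.le hc
  linarith

namespace Chain

variable (C : Chain)

def nearL (R : ℝ) (j : ℕ) : Prop := ∃ a c, RngG R a c ∧ C.Hit j j a c
def farL (R : ℝ) (j : ℕ) : Prop := ∃ a c, RngG R a c ∧ C.Hit j j (-a) c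
def nearR (R : ℝ) (j : ℕ) : Prop := ∃ a c, RngG R a c ∧ C.Hit (j + 1) j (-a) c
def farR (R : ℝ) (j : ℕ) : Prop := ∃ a c, RngG R a c ∧ C.Hit (j + 1) j a c
def Up (j : ℕ) : Prop := 0 ≤ C.B j
def Tl (R : ℝ) (j : ℕ) (c : ℝ) : Prop := C.Pw j < 2 * (c * R) * |C.B j|

/-- Local frame with the tests translated. -/
theorem frame {R : ℝ} (hR : 3.9 ≤ R) (hR3 : R ≤ 1601) {j : ℕ} (hj : j < C.M) :
    ∃ X Y s E : ℝ, |E - 1| ≤ 0.000000001 ∧ |s| ≤ 0.000000001 ∧
      C.B j = E * Y ∧ C.Pw j = E * (X + 2 * s * Y - X ^ 2 - Y ^ 2) ∧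
      (C.nearL R j → ∃ a c, Rng R a c ∧ PL X Y a c) ∧
      (C.farL R j → ∃ a c, Rng R a c ∧ PL X Y (-a) c) ∧
      (C.nearR R j → ∃ a c, Rng R a c ∧ PL (1 - X) Y a c) ∧
      (C.farR R j → ∃ a c, Rng R a c ∧ PL (1 - X) Y (-a) c) := by
  obtain ⟨X, Y, s, E, hE, hs, hB, hP, hm⟩ := C.local_frame hj
  refine ⟨X, Y, s, E, hE, hs, hB, hP, ?_, ?_, ?_, ?_⟩
  · rintro ⟨a, c, hr, hh⟩
    obtain ⟨h1, h2⟩ := hr.abs (by linarith)
    obtain ⟨a', c', ha, hc, hl, _⟩ := hm a c h1 h2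
    exact ⟨a', c', hr.loc hR ha hc, hl.mp hh⟩
  · rintro ⟨a, c, hr, hh⟩
    obtain ⟨h1, h2⟩ := hr.abs (by linarith)
    obtain ⟨a', c', ha, hc, hl, _⟩ := hm (-a) c (by rwa [abs_neg]) h2
    refine ⟨-a', c', hr.loc hR ?_ hc, ?_⟩
    · rw [show -a' - a = -(a' - -a) by ring, abs_neg]; exact ha
    · rw [neg_neg]; exact hl.mp hh
  · rintro ⟨a, c, hr, hh⟩
    obtain ⟨h1, h2⟩ := hr.abs (by linarith)
    obtain ⟨a', c', ha, hc, _, hl⟩ := hm (-a) c (by rwa [abs_neg]) h2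
    refine ⟨-a', c', hr.loc hR ?_ hc, hl.mp hh⟩
    rw [show -a' - a = -(a' - -a) by ring, abs_neg]; exact ha
  · rintro ⟨a, c, hr, hh⟩
    obtain ⟨h1, h2⟩ := hr.abs (by linarith)
    obtain ⟨a', c', ha, hc, _, hl⟩ := hm a c h1 h2
    exact ⟨a', c', hr.loc hR ha hc, hl.mp hh⟩

section facts

variable {R r0 : ℝ}

theorem fact_nofar (hR : 3.9 ≤ R) (hR3 : R ≤ 1601) {j : ℕ} (hj : j < C.M) (hU : C.Up j) :
    ¬ C.farL R j ∧ ¬ C.farR R j := by
  obtain ⟨X, Y, s, E, hE, hs, hB, hP, hnL, hfL, hnR, hfR⟩ := C.frame hR hR3 hj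
  have hEpos : 0 < E := by have := (abs_le.mp hE).1; linarith
  have hP0 := C.Pw_pos hj
  have hD : 0 < X + 2 * s * Y - X ^ 2 - Y ^ 2 := by
    rw [hP] at hP0; exact (mul_pos_iff_of_pos_left hEpos).mp hP0
  have hY : 0 ≤ Y := by
    unfold Up at hU; rw [hB] at hU; exact (mul_nonneg_iff_of_pos_left hEpos).mp hU
  constructor
  · intro h
    obtain ⟨a, c, hr, hh⟩ := hfL h
    exact U_nofar X Y s R a c (by linarith) hs (by linarith) hY hr hh
  · intro h
    obtain ⟨a, c, hr, hh⟩ := hfR h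
    exact U_nofar (1 - X) Y s R a c (by linarith) hs (by linarith) hY hr hh

theorem fact_notnear (hR : 3.9 ≤ R) (hR3 : R ≤ 1601) {j : ℕ} (hj : j < C.M) (hU : C.Up j) :
    ¬ (C.nearL R j ∧ C.nearR R j) := by
  obtain ⟨X, Y, s, E, hE, hs, hB, hP, hnL, hfL, hnR, hfR⟩ := C.frame hR hR3 hj
  have hEpos : 0 < E := by have := (abs_le.mp hE).1; linarith
  have hY : 0 ≤ Y := by
    unfold Up at hU; rw [hB] at hU; exact (mul_nonneg_iff_of_pos_left hEpos).mp hU
  rintro ⟨h1, h2⟩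
  obtain ⟨a, c, hr, hh⟩ := hnL h1
  obtain ⟨a', c', hr', hh'⟩ := hnR h2
  have k1 := (U_near_X X Y R a c (by linarith) hY hr hh).2.1
  have k2 := (U_near_X (1 - X) Y R a' c' (by linarith) hY hr' hh').2.1
  linarith

theorem fact_notfar (hr0 : 3.9 ≤ r0) (hR : 3.9 ≤ R) (hR2 : R ≤ 1.08 * r0) (hR3 : R ≤ 1601)
    {j : ℕ} (hj : j < C.M) (hlight : ¬ C.Heavy r0 j) :
    ¬ (C.farL R j ∧ C.farR R j) := by
  rintro ⟨h1, h2⟩
  by_cases hU : C.Up j
  · exact (C.fact_nofar hR hR3 hj hU).1 h1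
  obtain ⟨X, Y, s, E, hE, hs, hB, hP, hnL, hfL, hnR, hfR⟩ := C.frame hR hR3 hj
  obtain ⟨E1, E2⟩ := abs_le.mp hE
  have hEpos : 0 < E := by linarith
  have hY : Y < 0 := by
    unfold Up at hU; rw [hB] at hU; push Not at hU
    exact neg_of_mul_pos hEpos hU
  obtain ⟨a, c, hr, hh⟩ := hfL h1
  obtain ⟨a', c', hr', hh'⟩ := hfR h2
  have hr0p : 0 < r0 := by linarith
  unfold Heavy at hlight
  push Not at hlight
  rw [lt_div_iff₀ hr0p, hB, abs_mul, abs_of_pos hEpos, abs_of_neg hY] at hlight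
  have hYR : R * (-Y) ≤ 0.136 := by
    have g1 : R * (-Y) ≤ (1.08 * r0) * (-Y) := mul_le_mul_of_nonneg_right hR2 (by linarith)
    have g2 : 0.999 * (-Y * r0) ≤ E * (-Y * r0) := by
      apply mul_le_mul_of_nonneg_right (by linarith)
      exact mul_nonneg (by linarith) hr0p.le
    linarith
  exact L_notboth X Y R a c a' c' (by linarith) hY hYR hr hr' hh hh'

theorem tl_iff {j : ℕ} {X Y s E c : ℝ} (hEpos : 0 < E) (hY : Y < 0)
    (hB : C.B j = E * Y) (hP : C.Pw j = E * (X + 2 * s * Y - X ^ 2 - Y ^ 2))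
    (h : X + 2 * s * Y - X ^ 2 - Y ^ 2 < 2 * c * R * (-Y)) : C.Tl R j c := by
  unfold Tl
  rw [hB, hP, abs_mul, abs_of_pos hEpos, abs_of_neg hY]
  have := mul_lt_mul_of_pos_left h hEpos
  linarith

theorem fact_farnear (hR : 3.9 ≤ R) (hR3 : R ≤ 1601)
    {j : ℕ} (hj : j < C.M) (h1 : C.farL R j) (h2 : C.nearR R j) : C.Tl R j 1.35 := by
  by_cases hU : C.Up j
  · exact absurd h1 (C.fact_nofar hR hR3 hj hU).1
  obtain ⟨X, Y, s, E, hE, hs, hB, hP, hnL, hfL, hnR, hfR⟩ := C.frame hR hR3 hj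
  obtain ⟨E1, E2⟩ := abs_le.mp hE
  have hEpos : 0 < E := by linarith
  have hY : Y < 0 := by
    unfold Up at hU; rw [hB] at hU; push Not at hU
    exact neg_of_mul_pos hEpos hU
  obtain ⟨a, c, hr, hh⟩ := hfL h1
  obtain ⟨a', c', hr', hh'⟩ := hnR h2
  apply C.tl_iff hEpos hY hB hP
  have := L_farnear X Y s R a c a' c' (by linarith) hY hs hr hr' hh hh'
  linarith

theorem fact_farnear' (hR : 3.9 ≤ R) (hR3 : R ≤ 1601)
    {j : ℕ} (hj : j < C.M) (h1 : C.farR R j) (h2 : C.nearL R j) : C.Tl R j 1.35 := by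
  by_cases hU : C.Up j
  · exact absurd h1 (C.fact_nofar hR hR3 hj hU).2
  obtain ⟨X, Y, s, E, hE, hs, hB, hP, hnL, hfL, hnR, hfR⟩ := C.frame hR hR3 hj
  obtain ⟨E1, E2⟩ := abs_le.mp hE
  have hEpos : 0 < E := by linarith
  have hY : Y < 0 := by
    unfold Up at hU; rw [hB] at hU; push Not at hU
    exact neg_of_mul_pos hEpos hU
  obtain ⟨a, c, hr, hh⟩ := hfR h1
  obtain ⟨a', c', hr', hh'⟩ := hnL h2
  apply C.tl_iff hEpos hY hB hP
  have hh'' : PL (1 - (1 - X)) Y a' c' := by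
    rw [show 1 - (1 - X) = X by ring]; exact hh'
  have := L_farnear (1 - X) Y s R a c a' c' (by linarith) hY hs hr hr' hh hh''
  linarith

theorem fact_nearnear (hR : 3.9 ≤ R) (hR3 : R ≤ 1601)
    {j : ℕ} (hj : j < C.M) (hU : ¬ C.Up j) (h1 : C.nearL R j) (h2 : C.nearR R j) :
    C.Tl R j 2.6 := by
  obtain ⟨X, Y, s, E, hE, hs, hB, hP, hnL, hfL, hnR, hfR⟩ := C.frame hR hR3 hj
  obtain ⟨E1, E2⟩ := abs_le.mp hE
  have hEpos : 0 < E := by linarith
  have hY : Y < 0 := by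
    unfold Up at hU; rw [hB] at hU; push Not at hU
    exact neg_of_mul_pos hEpos hU
  obtain ⟨a, c, hr, hh⟩ := hnL h1
  obtain ⟨a', c', hr', hh'⟩ := hnR h2
  apply C.tl_iff hEpos hY hB hP
  have := L_nearnear X Y s R a c a' c' (by linarith) hY hs hr hr' hh hh'
  linarith

theorem fact_far (hR : 3.9 ≤ R) (hR3 : R ≤ 1601)
    {j : ℕ} (hj : j < C.M) (h : C.farL R j ∨ C.farR R j) :
    C.Tl R j 5.1 := by
  by_cases hU : C.Up j
  · have := C.fact_nofar hR hR3 hj hU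
    tauto
  obtain ⟨X, Y, s, E, hE, hs, hB, hP, hnL, hfL, hnR, hfR⟩ := C.frame hR hR3 hj
  obtain ⟨E1, E2⟩ := abs_le.mp hE
  have hEpos : 0 < E := by linarith
  have hY : Y < 0 := by
    unfold Up at hU; rw [hB] at hU; push Not at hU
    exact neg_of_mul_pos hEpos hU
  apply C.tl_iff hEpos hY hB hP
  rcases h with h1 | h1
  · obtain ⟨a, c, hr, hh⟩ := hfL h1
    have := L_far_tau X Y s R a c (by linarith) hY hs hr hh
    linarith
  · obtain ⟨a, c, hr, hh⟩ := hfR h1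
    have := L_far_tau (1 - X) Y s R a c (by linarith) hY hs hr hh
    linarith

theorem fact_near (hR : 3.9 ≤ R) (hR3 : R ≤ 1601)
    {j : ℕ} (hj : j < C.M) (hU : C.Up j) (h : C.nearL R j ∨ C.nearR R j) :
    ¬ C.Tl R j 3 := by
  obtain ⟨X, Y, s, E, hE, hs, hB, hP, hnL, hfL, hnR, hfR⟩ := C.frame hR hR3 hj
  obtain ⟨E1, E2⟩ := abs_le.mp hE
  have hEpos : 0 < E := by linarith
  have hY : 0 ≤ Y := by
    unfold Up at hU; rw [hB] at hU; exact (mul_nonneg_iff_of_pos_left hEpos).mp hU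
  unfold Tl
  push Not
  rw [hB, hP, abs_mul, abs_of_pos hEpos, abs_of_nonneg hY]
  have key : 6 * R * Y ≤ X + 2 * s * Y - X ^ 2 - Y ^ 2 := by
    rcases h with h1 | h1
    · obtain ⟨a, c, hr, hh⟩ := hnL h1
      exact U_near_tau X Y s R a c (by linarith) hs hY hr hh
    · obtain ⟨a, c, hr, hh⟩ := hnR h1
      have := U_near_tau (1 - X) Y s R a c (by linarith) hs hY hr hh
      linarith
  have := mul_le_mul_of_nonneg_left key hEpos.le
  linarith

theorem tl_pos {R : ℝ} (hR : 3.9 ≤ R) {j : ℕ} (hj : j < C.M) {c : ℝ} (h : C.Tl R j c) :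
    C.B j ≠ 0 ∧ 0 < c ∧ |C.lam j| < c * R := by
  unfold Tl at h
  have hP := C.Pw_pos hj
  have hBn := abs_nonneg (C.B j)
  have hB : C.B j ≠ 0 := by
    intro h0
    rw [h0, abs_zero, mul_zero] at h
    linarith
  have hBp : 0 < |C.B j| := abs_pos.mpr hB
  have h2 : 0 < 2 * (c * R) * |C.B j| := by linarith
  have h3 : 0 < 2 * (c * R) := (mul_pos_iff_of_pos_right hBp).mp h2
  have h4 : 0 < c := by
    by_contra hc
    push Not at hc
    have : c * R ≤ 0 := mul_nonpos_of_nonpos_of_nonneg hc (by linarith)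
    linarith
  refine ⟨hB, h4, ?_⟩
  have h5 := C.abs_lam_B hj hB
  rw [h5] at h
  have h6 := lt_of_mul_lt_mul_right h hBn
  linarith

theorem tl_of_lam {R : ℝ} {j : ℕ} (hj : j < C.M) {c : ℝ} (hB : C.B j ≠ 0)
    (h : |C.lam j| < c * R) : C.Tl R j c := by
  unfold Tl
  rw [C.abs_lam_B hj hB]
  apply mul_lt_mul_of_pos_right _ (abs_pos.mpr hB)
  linarith

theorem fact_sup {lo hi : ℕ} (hhi : hi ≤ C.M) (hr0 : 3.9 ≤ r0) (hR : 3.9 ≤ R)
    (hR2 : R ≤ 1.08 * r0) (hR3 : R ≤ 1601)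
    (hS : C.Supp lo hi (5.2 * R) (1.001 * r0))
    (hlight : ∀ k, lo ≤ k → k < hi → ¬ C.Heavy r0 k)
    {j : ℕ} (h1 : lo + 101 ≤ j) (h2 : j + 101 < hi) (hU : ¬ C.Up j) (ht : C.Tl R j 5.1) :
    ∃ k, (k = j + 1 ∨ j = k + 1) ∧ C.Up k ∧ C.Cov j k ∧
      ∀ c, c ≤ 5.1 → C.Tl R j c → C.Tl R k (1.01 * c) := by
  have hj : j < C.M := by omega
  obtain ⟨hB, _, hlam⟩ := C.tl_pos hR hj ht
  unfold Up at hU
  push Not at hU
  have hlB := C.lam_B_pos hj hB
  have hlneg : C.lam j < 0 := by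
    by_contra hc
    push Not at hc
    have : C.lam j * C.B j ≤ 0 := mul_nonpos_of_nonneg_of_nonpos hc hU.le
    linarith
  have hr0p : 0 < r0 := by linarith
  obtain ⟨l1, l2⟩ := abs_lt.mp hlam
  obtain ⟨k, hkM, hk⟩ := hS j (by omega) (by omega) (C.lam j) (by linarith) (by linarith)
  have hk' : C.Cov j k := hk
  obtain ⟨r1, r2, r3, r4⟩ := C.cov_cases hj hkM hB (by linarith) hk'
  have hBkpos : 0 < C.B k := by
    by_contra hc
    push Not at hc
    have : 0 ≤ C.lam j * C.B k := mul_nonneg_of_nonpos_of_nonpos hlneg.le hc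
    linarith
  rcases r4 with ⟨hadj, _⟩ | ⟨h98, h100, _⟩
  · refine ⟨k, hadj, hBkpos.le, hk', ?_⟩
    intro c _ htc
    obtain ⟨_, hc0, hlc⟩ := C.tl_pos hR hj htc
    apply C.tl_of_lam hkM hBkpos.ne'
    have : 0 < c * R := mul_pos hc0 (by linarith)
    linarith
  · exfalso
    obtain ⟨d1, d2⟩ := abs_le.mp h100
    have hkwin : lo ≤ k ∧ k < hi := by
      have h1 : (k : ℝ) ≤ j + 100 := by linarith
      have h2 : (j : ℝ) ≤ k + 100 := by linarith
      have h1' : k ≤ j + 100 := by exact_mod_cast h1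
      have h2' : j ≤ k + 100 := by exact_mod_cast h2
      omega
    apply hlight k hkwin.1 hkwin.2
    unfold Heavy
    rw [div_le_iff₀ hr0p]
    have hBn := abs_nonneg (C.B k)
    have e1 : |C.lam j| * |C.B k| ≤ (5.1 * R) * |C.B k| :=
      mul_le_mul_of_nonneg_right hlam.le hBn
    have e2 : R * |C.B k| ≤ (1.08 * r0) * |C.B k| := mul_le_mul_of_nonneg_right hR2 hBn
    linarith

/-- an upper white point supporting both neighbours has a large parameter -/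
theorem sup_both_large {lo hi : ℕ} (hhi : hi ≤ C.M) (hr0 : 3.9 ≤ r0)
    (hrR : r0 ≤ R) (hR3 : R ≤ 1601)
    (hS : C.Supp lo hi (5.2 * R) (1.001 * r0))
    (hlight : ∀ k, lo ≤ k → k < hi → ¬ C.Heavy r0 k)
    {j : ℕ} (h1 : lo + 101 ≤ j) (h2 : j + 103 < hi)
    (hB1 : C.B j ≠ 0) (hB3 : C.B (j + 2) ≠ 0)
    (hl1 : |C.lam j| ≤ 8500) (hl3 : |C.lam (j + 2)| ≤ 8500)
    (hUpos : 0 < C.B (j + 1))
    (hc1 : C.Cov j (j + 1)) (hc2 : C.Cov (j + 2) (j + 1)) : r0 ≤ C.lam (j + 1) := by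
  by_contra hcon
  push Not at hcon
  have hj1 : j + 1 < C.M := by omega
  have hlB := C.lam_B_pos hj1 hUpos.ne'
  have hlpos : 0 < C.lam (j + 1) := (mul_pos_iff_of_pos_right hUpos).mp hlB
  obtain ⟨k, hkM, hk⟩ := hS (j + 1) (by omega) (by omega) (C.lam (j + 1)) (by linarith)
    (by linarith)
  have hk' : C.Cov (j + 1) k := hk
  have hlam2 : |C.lam (j + 1)| ≤ 8500 := by rw [abs_of_pos hlpos]; linarith
  obtain ⟨r1, r2, r3, r4⟩ := C.cov_cases hj1 hkM hUpos.ne' hlam2 hk'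
  have t1 := (C.cov_cases (by omega) hj1 hB1 hl1 hc1).2.2.1
  have t2 := (C.cov_cases (by omega) hj1 hB3 hl3 hc2).2.2.1
  have hr0p : 0 < r0 := by linarith
  rcases r4 with ⟨hadj, _⟩ | ⟨h98, h100, _⟩
  · rcases hadj with h | h
    · subst h
      have e : j + 1 + 1 = j + 2 := by ring
      rw [e] at r3
      linarith
    · have : k = j := by omega
      subst this
      linarith
  · obtain ⟨d1, d2⟩ := abs_le.mp h100
    have hkwin : lo ≤ k ∧ k < hi := by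
      have h1 : (k : ℝ) ≤ (j + 1 : ℕ) + 100 := by linarith
      have h2 : ((j + 1 : ℕ) : ℝ) ≤ k + 100 := by linarith
      have h1' : k ≤ (j + 1) + 100 := by exact_mod_cast h1
      have h2' : (j + 1) ≤ k + 100 := by exact_mod_cast h2
      omega
    apply hlight k hkwin.1 hkwin.2
    unfold Heavy
    rw [div_le_iff₀ hr0p]
    have hBn := abs_nonneg (C.B k)
    have e1 : |C.lam (j + 1)| * |C.B k| ≤ r0 * |C.B k| := by
      apply mul_le_mul_of_nonneg_right _ hBn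
      rw [abs_of_pos hlpos]; exact hcon.le
    linarith

/-- the support relation as a hit, right neighbour -/
theorem cov_hit_right {j : ℕ} (hj : j < C.M) (h : C.Cov j (j + 1)) :
    C.Hit (j + 1) (j + 1) (-C.vx j + C.lam j * (C.vy j + C.uy j))
      (-C.vy j - C.lam j * (C.vx j + C.ux j)) := by
  unfold Cov at h
  rw [C.Pf_right hj, C.bf_right] at h
  unfold Hit ux uy
  linarith

theorem cov_hit_left {j : ℕ} (h : C.Cov (j + 1) j) :
    C.Hit (j + 1) j (C.ux (j + 1) + C.lam (j + 1) * (C.vy (j + 1) + C.uy (j + 1)))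
      (C.uy (j + 1) - C.lam (j + 1) * (C.vx (j + 1) + C.ux (j + 1))) := by
  unfold Cov bf Pf at h
  unfold Hit
  unfold ux uy at h ⊢
  linarith

theorem fact_both {lo hi : ℕ} (hhi : hi ≤ C.M) (hr0 : 3.9 ≤ r0)
    (hrR : r0 ≤ R) (hR2 : R ≤ 1.08 * r0) (hR3 : R ≤ 1601)
    (hS : C.Supp lo hi (5.2 * R) (1.001 * r0))
    (hlight : ∀ k, lo ≤ k → k < hi → ¬ C.Heavy r0 k)
    {j : ℕ} (h1 : lo + 101 ≤ j) (h2 : j + 103 < hi)
    (hU : C.Up (j + 1)) (hc1 : C.Cov j (j + 1)) (hc2 : C.Cov (j + 2) (j + 1)) :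
    ¬ (C.Tl R j 1.36 ∧ C.Tl R (j + 2) 5.2) ∧ ¬ (C.Tl R j 5.2 ∧ C.Tl R (j + 2) 1.36) := by
  have hj : j < C.M := by omega
  have hj1 : j + 1 < C.M := by omega
  have hj2 : j + 2 < C.M := by omega
  have hR : 3.9 ≤ R := by linarith
  have main : ∀ c1 c2 : ℝ, c1 ≤ 5.2 → c2 ≤ 5.2 → (c1 ≤ 1.36 ∨ c2 ≤ 1.36) →
      C.Tl R j c1 → C.Tl R (j + 2) c2 → 0 ≤ C.B (j + 1) → False := by
    intro c1 c2 hcc1 hcc2 hcc ht1 ht2 hU
    obtain ⟨hB1, hc10, hl1⟩ := C.tl_pos hR hj ht1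
    obtain ⟨hB3, hc30, hl3⟩ := C.tl_pos hR hj2 ht2
    have hR0 : 0 < R := by linarith
    have m1 : c1 * R ≤ 5.2 * R := mul_le_mul_of_nonneg_right hcc1 hR0.le
    have m2 : c2 * R ≤ 5.2 * R := mul_le_mul_of_nonneg_right hcc2 hR0.le
    have hl1' : |C.lam j| ≤ 8500 := by linarith
    have hl3' : |C.lam (j + 2)| ≤ 8500 := by linarith
    have s1 := (C.cov_cases hj hj1 hB1 hl1' hc1).1
    have s2 := (C.cov_cases hj2 hj1 hB3 hl3' hc2).1
    have hUpos : 0 < C.B (j + 1) := by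
      rcases hU.lt_or_eq with h | h
      · exact h
      · rw [← h] at s1; simp at s1
    have hlneg1 : C.lam j < 0 := by
      by_contra hc
      push Not at hc
      have := mul_nonneg hc hUpos.le
      linarith
    have hlneg3 : C.lam (j + 2) < 0 := by
      by_contra hc
      push Not at hc
      have := mul_nonneg hc hUpos.le
      linarith
    have hlarge := C.sup_both_large hhi hr0 hrR hR3 hS hlight h1 h2 hB1 hB3 hl1' hl3'
      hUpos hc1 hc2
    obtain ⟨X, Y, s, E, hE, hs, hB, hP, hm⟩ := C.local_frame hj1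
    obtain ⟨E1, E2⟩ := abs_le.mp hE
    have hEpos : 0 < E := by linarith
    have hY : 0 < Y := by
      rw [hB] at hUpos; exact (mul_pos_iff_of_pos_left hEpos).mp hUpos
    have hown : X + 2 * s * Y - X ^ 2 - Y ^ 2 = 2 * C.lam (j + 1) * Y := by
      have e := C.Pw_eq hUpos.ne'
      rw [hP, hB] at e
      have : E * (X + 2 * s * Y - X ^ 2 - Y ^ 2) = E * (2 * C.lam (j + 1) * Y) := by
        rw [e]; ring
      exact mul_left_cancel₀ hEpos.ne' this
    rw [abs_of_neg hlneg1] at hl1 hl1'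
    rw [abs_of_neg hlneg3] at hl3 hl3'
    -- right neighbour relation for gap j
    have q1 := C.cov_hit_right hj hc1
    have q2 : C.Hit (j + 1 + 1) (j + 1)
        (C.ux (j + 1 + 1) + C.lam (j + 1 + 1) * (C.vy (j + 1 + 1) + C.uy (j + 1 + 1)))
        (C.uy (j + 1 + 1) - C.lam (j + 1 + 1) * (C.vx (j + 1 + 1) + C.ux (j + 1 + 1))) :=
      C.cov_hit_left hc2
    have e22 : j + 1 + 1 = j + 2 := rfl
    rw [e22] at q2
    have nv := C.near_v j hj
    have nu := C.near_u j hj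
    have nv3 := C.near_v (j + 2) hj2
    have nu3 := C.near_u (j + 2) hj2
    have sum1 := nv.sum nu
    have sum3 := nv3.sum nu3
    -- estimates
    have est : ∀ l e1 e2 g1 g2 : ℝ, l < 0 → -l ≤ 8500 → |e1 - 1| ≤ 0.0000000002 →
        |e2| ≤ 0.0000000002 → |g1 + 1/2| ≤ 0.0000000001 → |g2| ≤ 0.0000000001 →
        |(g1 + l * e2) + 1/2| ≤ 0.00001 ∧ |(g2 - l * e1) - -l| ≤ 0.00001 ∧
        |g1 + l * e2| ≤ 9000 ∧ |g2 - l * e1| ≤ 9000 := by
      intro l e1 e2 g1 g2 hl hl' he1 he2 hg1 hg2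
      have hla : |l| ≤ 8500 := by rw [abs_of_neg hl]; exact hl'
      obtain ⟨x1, x2⟩ := abs_le.mp (abs_mul_le' hla he2)
      obtain ⟨x3, x4⟩ := abs_le.mp (abs_mul_le' hla he1)
      obtain ⟨x5, x6⟩ := abs_le.mp hg1
      obtain ⟨x7, x8⟩ := abs_le.mp hg2
      refine ⟨?_, ?_, ?_, ?_⟩
      · rw [abs_le]; constructor <;> linarith
      · rw [show (g2 - l * e1) - -l = g2 - l * (e1 - 1) by ring, abs_le]
        constructor <;> linarith
      · rw [abs_le]; constructor <;> linarith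
      · rw [show g2 - l * e1 = g2 - l * (e1 - 1) - l by ring, abs_le]
        constructor <;> linarith
    have g11 : |-C.vx j + 1/2| ≤ 0.0000000001 := by
      rw [show -C.vx j + 1/2 = -(C.vx j - 1/2) by ring, abs_neg]; exact nv.1
    have g12 : |-C.vy j| ≤ 0.0000000001 := by rw [abs_neg]; exact nv.2
    have se1 : |(C.vx j + C.ux j) - 1| ≤ 0.0000000002 := sum1.1
    have se2 : |C.vy j + C.uy j| ≤ 0.0000000002 := sum1.2
    obtain ⟨z1, z2, z3, z4⟩ := est (C.lam j) (C.vx j + C.ux j) (C.vy j + C.uy j)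
      (-C.vx j) (-C.vy j) hlneg1 hl1' se1 se2 g11 g12
    obtain ⟨a, c, ha, hc, hl, _⟩ := hm _ _ z3 z4
    have hPL1 := hl.mp q1
    -- for the right side use the reflected first coordinate
    have te1 : |(C.vx (j + 2) + C.ux (j + 2)) - 1| ≤ 0.0000000002 := sum3.1
    have te2 : |-(C.vy (j + 2) + C.uy (j + 2))| ≤ 0.0000000002 := by
      rw [abs_neg]; exact sum3.2
    have g31 : |-C.ux (j + 2) + 1/2| ≤ 0.0000000001 := by
      rw [show -C.ux (j + 2) + 1/2 = -(C.ux (j + 2) - 1/2) by ring, abs_neg]; exact nu3.1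
    obtain ⟨w1, w2, w3, w4⟩ := est (C.lam (j + 2)) (C.vx (j + 2) + C.ux (j + 2))
      (-(C.vy (j + 2) + C.uy (j + 2))) (-C.ux (j + 2)) (C.uy (j + 2)) hlneg3 hl3' te1 te2
      g31 nu3.2
    have w1' : |(C.ux (j + 2) + C.lam (j + 2) * (C.vy (j + 2) + C.uy (j + 2))) - 1/2| ≤
        0.00001 := by
      rw [← abs_neg]
      have : -((C.ux (j + 2) + C.lam (j + 2) * (C.vy (j + 2) + C.uy (j + 2))) - 1/2) =
        (-C.ux (j + 2) + C.lam (j + 2) * -(C.vy (j + 2) + C.uy (j + 2))) + 1/2 := by ring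
      rw [this]; exact w1
    have w3' : |C.ux (j + 2) + C.lam (j + 2) * (C.vy (j + 2) + C.uy (j + 2))| ≤ 9000 := by
      obtain ⟨y1, y2⟩ := abs_le.mp w1'
      rw [abs_le]; constructor <;> linarith
    obtain ⟨a', c', ha', hc', _, hr⟩ := hm _ _ w3' w4
    have hPL2 := hr.mp q2
    obtain ⟨a1, a2⟩ := abs_le.mp ha
    obtain ⟨a3, a4⟩ := abs_le.mp ha'
    obtain ⟨b1, b2⟩ := abs_le.mp hc
    obtain ⟨b3, b4⟩ := abs_le.mp hc'
    obtain ⟨z11, z12⟩ := abs_le.mp z1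
    obtain ⟨z21, z22⟩ := abs_le.mp z2
    obtain ⟨w11, w12⟩ := abs_le.mp w1'
    obtain ⟨w21, w22⟩ := abs_le.mp w2
    have A1 : |a + 1/2| ≤ 0.0001 := by rw [abs_le]; constructor <;> linarith
    have A2 : |c - -C.lam j| ≤ 0.0001 := by rw [abs_le]; constructor <;> linarith
    have A3 : |-a' + 1/2| ≤ 0.0001 := by rw [abs_le]; constructor <;> linarith
    have A4 : |c' - -C.lam (j + 2)| ≤ 0.0001 := by rw [abs_le]; constructor <;> linarith
    rcases hcc with hcc | hcc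
    · have m3 : c1 * R ≤ 1.36 * R := mul_le_mul_of_nonneg_right hcc hR0.le
      exact U_both X Y s r0 (C.lam (j + 1)) (-C.lam j) (-C.lam (j + 2)) a c (-a') c'
        (by linarith) hY hs hown hlarge (by linarith) (by linarith) A1 A2 A3 A4 hPL1 hPL2
    · have m3 : c2 * R ≤ 1.36 * R := mul_le_mul_of_nonneg_right hcc hR0.le
      have hPL1' : PL (1 - (1 - X)) Y a c := by
        rw [show 1 - (1 - X) = X by ring]; exact hPL1
      exact U_both (1 - X) Y s r0 (C.lam (j + 1)) (-C.lam (j + 2)) (-C.lam j) (-a') c' a c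
        (by linarith) hY hs (by linarith) hlarge (by linarith) (by linarith) A3 A4 A1 A2
        hPL2 hPL1'
  constructor
  · rintro ⟨ht1, ht2⟩
    exact main 1.36 5.2 (by norm_num) le_rfl (Or.inl le_rfl) ht1 ht2 hU
  · rintro ⟨ht1, ht2⟩
    exact main 5.2 1.36 le_rfl (by norm_num) (Or.inr le_rfl) ht1 ht2 hU

theorem gapFacts {lo hi : ℕ} (hhi : hi ≤ C.M) (hr0 : 3.9 ≤ r0)
    (hrR : r0 ≤ R) (hR2 : R ≤ 1.08 * r0) (hR3 : R ≤ 1601)
    (hS : C.Supp lo hi (5.2 * R) (1.001 * r0))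
    (hlight : ∀ k, lo ≤ k → k < hi → ¬ C.Heavy r0 k) :
    GapFacts (lo + 101) (hi - 103) (C.nearL R) (C.farL R) (C.nearR R) (C.farR R) C.Up
      (C.Tl R) C.Cov where
  nofar := fun j h1 h2 hU => C.fact_nofar (by linarith) hR3 (by omega) hU
  notnear := fun j h1 h2 hU => C.fact_notnear (by linarith) hR3 (by omega) hU
  notfar := fun j h1 h2 => C.fact_notfar hr0 (by linarith) hR2 hR3 (by omega)
    (hlight j (by omega) (by omega))
  farnear := fun j h1 h2 a b => C.fact_farnear (by linarith) hR3 (by omega) a b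
  farnear' := fun j h1 h2 a b => C.fact_farnear' (by linarith) hR3 (by omega) a b
  nearnear := fun j h1 h2 hU a b => C.fact_nearnear (by linarith) hR3 (by omega) hU a b
  far := fun j h1 h2 h => C.fact_far (by linarith) hR3 (by omega) h
  near := fun j h1 h2 hU h => C.fact_near (by linarith) hR3 (by omega) hU h
  mono := by
    intro j c c' h hcc
    unfold Tl at h ⊢
    have hBn := abs_nonneg (C.B j)
    have h1 : c * R ≤ c' * R := mul_le_mul_of_nonneg_right hcc (by linarith)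
    have h2 : 2 * (c * R) * |C.B j| ≤ 2 * (c' * R) * |C.B j| :=
      mul_le_mul_of_nonneg_right (by linarith) hBn
    linarith
  sup := fun j h1 h2 hU ht => C.fact_sup hhi hr0 (by linarith) hR2 hR3 hS hlight
    (by omega) (by omega) hU ht
  both := fun j h1 h2 hU hc1 hc2 => C.fact_both hhi hr0 hrR hR2 hR3 hS hlight
    (by omega) (by omega) hU hc1 hc2

/-- Ten consecutive black points `i+1, ..., i+10` in a light window: their twenty tests are
not all hit. -/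
theorem window_contra {lo hi : ℕ} (hhi : hi ≤ C.M) (hr0 : 3.9 ≤ r0)
    (hrR : r0 ≤ R) (hR2 : R ≤ 1.08 * r0) (hR3 : R ≤ 1601)
    (hS : C.Supp lo hi (5.2 * R) (1.001 * r0))
    (hlight : ∀ k, lo ≤ k → k < hi → ¬ C.Heavy r0 k)
    {i : ℕ} (h1 : lo + 101 ≤ i) (h2 : i + 116 ≤ hi)
    (hpos : ∀ j < 10, ∃ a c k, RngG R a c ∧ k < C.M ∧ C.Hit (i + j + 1) k a c)
    (hneg : ∀ j < 10, ∃ a c k, RngG R a c ∧ k < C.M ∧ C.Hit (i + j + 1) k (-a) c) : False := by
  have F := C.gapFacts hhi hr0 hrR hR2 hR3 hS hlight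
  refine F.c4 (i := i) h1 (by omega) ?_
  intro j hj
  constructor
  · obtain ⟨a, c, k, hr, hk, hh⟩ := hpos j hj
    obtain ⟨r1, r2, r3, r4⟩ := hr
    have := C.hit_near hhi hr0 hR2 hR3 (by linarith) hlight (i := i + j + 1) (by omega)
      (by omega) hk (by rw [abs_of_nonneg (by linarith)]; exact r2) r3 (by linarith) hh
    rcases this with h | h
    · left
      subst h
      exact ⟨a, c, ⟨r1, r2, r3, r4⟩, hh⟩
    · right
      have : k = i + j := by omega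
      subst this
      exact ⟨a, c, ⟨r1, r2, r3, r4⟩, hh⟩
  · obtain ⟨a, c, k, hr, hk, hh⟩ := hneg j hj
    obtain ⟨r1, r2, r3, r4⟩ := hr
    have := C.hit_near hhi hr0 hR2 hR3 (by linarith) hlight (i := i + j + 1) (by omega)
      (by omega) hk (by rw [abs_neg, abs_of_nonneg (by linarith)]; exact r2) r3
      (by linarith) hh
    rcases this with h | h
    · left
      subst h
      exact ⟨a, c, ⟨r1, r2, r3, r4⟩, hh⟩
    · right
      have : k = i + j := by omega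
      subst this
      exact ⟨a, c, ⟨r1, r2, r3, r4⟩, hh⟩

end facts

end Chain

end Pool.Agent.Lib.P962033
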