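import Pool.Agent.Lib.P962033.Adj

/-!
Support between non-adjacent gaps.
-/

namespace Pool.Agent.Lib.P962033

theorem abs_mul_le' {a b c d : ℝ} (h1 : |a| ≤ c) (h2 : |b| ≤ d) : |a * b| ≤ c * d := by
  rw [abs_mul]
  exact mul_le_mul h1 h2 (abs_nonneg _) (le_trans (abs_nonneg _) h1)

theorem NearHalf.sum {a b c d : ℝ} (h : NearHalf a b) (h' : NearHalf c d) :
    |a + c - 1| ≤ 0.0000000002 ∧ |b + d| ≤ 0.0000000002 := by
  obtain ⟨h1, h2⟩ := h
  obtain ⟨h3, h4⟩ := h'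
  rw [abs_le] at h1 h2 h3 h4 ⊢
  rw [abs_le]
  refine ⟨⟨?_, ?_⟩, ⟨?_, ?_⟩⟩ <;> linarith

/-- a point of a gap disk: crude bounds -/
theorem own_box (m1 m2 x y : ℝ) (hm : NearHalf m1 m2)
    (hown : x ^ 2 + y ^ 2 < 2 * (x * m1 + y * m2)) :
    -0.001 ≤ x ∧ x ≤ 1.001 ∧ |y| ≤ 0.501 ∧
      2 * (x * m1 + y * m2) - (x ^ 2 + y ^ 2) ≤ 0.2501 := by
  have hG := hm.G
  obtain ⟨hm1, hm2⟩ := hm
  obtain ⟨a1, a2⟩ := abs_le.mp hm1
  obtain ⟨b1, b2⟩ := abs_le.mp hm2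
  obtain ⟨g1, g2⟩ := abs_le.mp hG
  have e : (x - m1) ^ 2 + (y - m2) ^ 2 < 0.2501 := by
    have : (x - m1) ^ 2 + (y - m2) ^ 2 =
      (x ^ 2 + y ^ 2) - 2 * (x * m1 + y * m2) + (m1 ^ 2 + m2 ^ 2) := by ring
    rw [this]; linarith
  have ex : |x - m1| ≤ 0.5002 := by
    apply abs_le_of_sq_le_sq _ (by norm_num)
    norm_num
    linarith [sq_nonneg (y - m2)]
  have ey : |y - m2| ≤ 0.5002 := by
    apply abs_le_of_sq_le_sq _ (by norm_num)
    norm_num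
    linarith [sq_nonneg (x - m1)]
  obtain ⟨c1, c2⟩ := abs_le.mp ex
  obtain ⟨d1, d2⟩ := abs_le.mp ey
  refine ⟨by linarith, by linarith, ?_, ?_⟩
  · rw [abs_le]; constructor <;> linarith
  · have : 2 * (x * m1 + y * m2) - (x ^ 2 + y ^ 2) =
      (m1 ^ 2 + m2 ^ 2) - ((x - m1) ^ 2 + (y - m2) ^ 2) := by ring
    rw [this]; linarith [sq_nonneg (x - m1), sq_nonneg (y - m2)]

theorem far_F (h1 h2 z1 z2 : ℝ) (hh : NearHalf h1 h2)
    (hz : 1.998 ≤ z1 ∨ z1 ≤ -0.998) :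
    1.99 ≤ (z1 ^ 2 + z2 ^ 2) - 2 * (z1 * h1 + z2 * h2) ∧
    |z1| ^ 2 - 1.0001 * |z1| - 0.0001 ≤ (z1 ^ 2 + z2 ^ 2) - 2 * (z1 * h1 + z2 * h2) := by
  obtain ⟨hh1, hh2⟩ := hh
  obtain ⟨h11, h12⟩ := abs_le.mp hh1
  have hq2 : 0 ≤ z2 ^ 2 - 2 * (z2 * h2) + 0.0001 := by
    have : z2 ^ 2 - 2 * (z2 * h2) = (z2 - h2) ^ 2 - h2 * h2 := by ring
    have h' : |h2 * h2| ≤ 0.0000000001 * 0.0000000001 := abs_mul_le' hh2 hh2
    have := (abs_le.mp h').2
    linarith [sq_nonneg (z2 - h2)]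
  constructor
  · rcases hz with hd | hd
    · have c2 : 0.997 ≤ z1 - 2 * h1 := by linarith
      have := mul_le_mul hd c2 (by norm_num) (by linarith)
      have e : z1 ^ 2 - 2 * (z1 * h1) = z1 * (z1 - 2 * h1) := by ring
      linarith
    · have c1 : 0.998 ≤ -z1 := by linarith
      have c2 : 1.997 ≤ 2 * h1 - z1 := by linarith
      have := mul_le_mul c1 c2 (by norm_num) (by linarith)
      have e : z1 ^ 2 - 2 * (z1 * h1) = (-z1) * (2 * h1 - z1) := by ring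
      linarith
  · have : 2 * (z1 * h1) ≤ 1.0001 * |z1| := by
      have e3 : z1 * h1 ≤ |z1 * h1| := le_abs_self _
      rw [abs_mul] at e3
      have e4 : |z1| * |h1| ≤ |z1| * 0.50005 := by
        apply mul_le_mul_of_nonneg_left _ (abs_nonneg _)
        rw [abs_le]; constructor <;> linarith
      linarith
    rw [sq_abs]
    linarith

theorem bi_bk (x y b z1 z2 e1 e2 f1 f2 : ℝ) (hz2 : z2 = b + y)
    (he1 : |e1 - 1| ≤ 0.0000000002) (he2 : |e2| ≤ 0.0000000002)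
    (hf1 : |f1 - 1| ≤ 0.0000000002) (hf2 : |f2| ≤ 0.0000000002)
    (hb : |b| ≤ 0.0000000002) (hx : |x| ≤ 2) (hy : |y| ≤ 1) (hz1a : |z1| ≤ 96)
    (hz2a : |z2| ≤ 1) :
    |(e1 * z2 - e2 * z1) - (f1 * y - f2 * x)| ≤ 0.0000001 := by
  have e : (e1 * z2 - e2 * z1) - (f1 * y - f2 * x) =
      (e1 - 1) * z2 + b - e2 * z1 - (f1 - 1) * y + f2 * x := by
    rw [hz2]; ring
  obtain ⟨f11, f12⟩ := abs_le.mp (abs_mul_le' he1 hz2a)
  obtain ⟨f21, f22⟩ := abs_le.mp (abs_mul_le' he2 hz1a)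
  obtain ⟨f31, f32⟩ := abs_le.mp (abs_mul_le' hf1 hy)
  obtain ⟨f41, f42⟩ := abs_le.mp (abs_mul_le' hf2 hx)
  obtain ⟨b1, b2⟩ := abs_le.mp hb
  rw [e, abs_le]
  constructor <;> linarith

theorem far_support (g1 g2 h1 h2 m1 m2 k1 k2 x y a b d lam : ℝ)
    (hg : NearHalf g1 g2) (hh : NearHalf h1 h2) (hm : NearHalf m1 m2) (hk : NearHalf k1 k2)
    (ha : |a| ≤ 0.0000000002) (hb : |b| ≤ 0.0000000002)
    (hd : 2 ≤ d ∨ d ≤ -2) (hlam : |lam| ≤ 8500)
    (hown : x ^ 2 + y ^ 2 < 2 * (x * m1 + y * m2))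
    (hcov : 2 * lam * ((g1 + h1) * (b + y) - (g2 + h2) * (d + a + x)) <
      2 * ((d + a + x) * h1 + (b + y) * h2) - ((d + a + x) ^ 2 + (b + y) ^ 2)) :
    lam * ((m1 + k1) * y - (m2 + k2) * x) < 0 ∧
    0.98 ≤ |lam| * |(m1 + k1) * y - (m2 + k2) * x| ∧
    |d| ≤ 100 ∧ 1.9 ≤ |lam| ∧ |d| ≤ 3.1 + |lam| := by
  obtain ⟨hx1, hx2, hy, hP⟩ := own_box m1 m2 x y hm hown
  obtain ⟨hs1, hs2⟩ := hg.sum hh
  obtain ⟨ht1, ht2⟩ := hm.sum hk
  have hx : |x| ≤ 1.001 := by rw [abs_le]; constructor <;> linarith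
  have hax : |a + x| ≤ 1.0011 := by
    refine (abs_add_le _ _).trans ?_; linarith
  obtain ⟨a1, a2⟩ := abs_le.mp ha
  set z1 := d + a + x with hz1
  set z2 := b + y with hz2
  have hz2a : |z2| ≤ 0.502 := (abs_add_le _ _).trans (by linarith)
  have hz1a : 1.998 ≤ z1 ∨ z1 ≤ -0.998 := by
    rcases hd with hd | hd
    · left; linarith
    · right; linarith
  obtain ⟨hF3, hF4⟩ := far_F h1 h2 z1 z2 hh hz1a
  clear hg hh hm hk hP hown
  set e1 := g1 + h1 with he1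
  set e2 := g2 + h2 with he2
  set f1 := m1 + k1 with hf1
  set f2 := m2 + k2 with hf2
  set bi := e1 * z2 - e2 * z1 with hbi
  set bk := f1 * y - f2 * x with hbk
  set F := (z1 ^ 2 + z2 ^ 2) - 2 * (z1 * h1 + z2 * h2) with hF
  have hF1 : F < -2 * lam * bi := by linarith only [hcov]
  -- bound on |z1|
  have hz1n := abs_nonneg z1
  have hln := abs_nonneg lam
  have hbn := abs_nonneg bi
  have he1a : |e1| ≤ 1.0001 := by
    obtain ⟨c1, c2⟩ := abs_le.mp hs1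
    rw [abs_le]; constructor <;> linarith only [c1, c2]
  have hbiabs : |bi| ≤ 0.5025 + 0.0000000002 * |z1| := by
    have u1 : |e1 * z2| ≤ 1.0001 * 0.502 := abs_mul_le' he1a hz2a
    have u2 : |e2 * z1| ≤ 0.0000000002 * |z1| := abs_mul_le' hs2 le_rfl
    calc |bi| ≤ |e1 * z2| + |e2 * z1| := abs_sub _ _
      _ ≤ _ := by linarith only [u1, u2]
  have hprod : -2 * lam * bi ≤ 2 * (|lam| * |bi|) := by
    have : -(lam * bi) ≤ |lam * bi| := neg_le_abs _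
    rw [abs_mul] at this
    linarith only [this]
  have hprod2 : |lam| * |bi| ≤ |lam| * (0.5025 + 0.0000000002 * |z1|) :=
    mul_le_mul_of_nonneg_left hbiabs hln
  have hprod3 : |lam| * (0.5025 + 0.0000000002 * |z1|) ≤
      8500 * (0.5025 + 0.0000000002 * |z1|) :=
    mul_le_mul_of_nonneg_right hlam (by positivity)
  have hZ : |z1| ≤ 96 := by
    by_contra hcon
    push Not at hcon
    have : 96 * |z1| ≤ |z1| * |z1| := mul_le_mul_of_nonneg_right hcon.le hz1n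
    rw [← sq] at this
    linarith only [this, hprod, hprod2, hprod3, hF4, hF1, hcon]
  have hdz : |d| ≤ |z1| + 1.002 := by
    have : d = z1 - (a + x) := by rw [hz1]; ring
    rw [this]
    calc |z1 - (a + x)| ≤ |z1| + |a + x| := abs_sub _ _
      _ ≤ |z1| + 1.002 := by linarith only [hax]
  -- bi vs bk
  have hbb : |bi - bk| ≤ 0.0000001 :=
    bi_bk x y b z1 z2 e1 e2 f1 f2 rfl hs1 hs2 ht1 ht2 hb (by linarith only [hx])
      (by linarith only [hy]) hZ (by linarith only [hz2a])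
  have hlb : |lam * (bi - bk)| ≤ 8500 * 0.0000001 := abs_mul_le' hlam hbb
  obtain ⟨lb1, lb2⟩ := abs_le.mp hlb
  have hneg : lam * bk ≤ -0.99 := by
    have : lam * bk = lam * bi - lam * (bi - bk) := by ring
    rw [this]; linarith only [lb1, lb2, hF1, hF3]
  have hkb : 0.99 ≤ |lam| * |bk| := by
    rw [← abs_mul]
    have := neg_le_abs (lam * bk)
    linarith only [this, hneg]
  have hbk1 : |bk| ≤ 0.51 := by
    obtain ⟨c1, c2⟩ := abs_le.mp hbb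
    have : |bi| ≤ 0.503 := by linarith only [hbiabs, hZ]
    obtain ⟨c3, c4⟩ := abs_le.mp this
    rw [abs_le]; constructor <;> linarith only [c1, c2, c3, c4]
  have hl19 : 1.9 ≤ |lam| := by
    by_contra hcon
    push Not at hcon
    have : |lam| * |bk| ≤ 1.9 * 0.51 :=
      mul_le_mul hcon.le hbk1 (abs_nonneg _) (by norm_num)
    linarith only [this, hkb]
  refine ⟨by linarith only [hneg], by linarith only [hkb], by linarith only [hZ, hdz], hl19, ?_⟩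
  -- |d| ≤ 3.1 + |lam|
  by_cases hc : |z1| ≤ 2.03
  · linarith only [hc, hdz, hl19]
  · push Not at hc
    have e0 : 2.03 * |z1| ≤ |z1| * |z1| := mul_le_mul_of_nonneg_right hc.le hz1n
    rw [← sq] at e0
    have e2 : |bi| ≤ 0.503 := by linarith only [hbiabs, hZ]
    have e3 : |lam| * |bi| ≤ |lam| * 0.503 := mul_le_mul_of_nonneg_left e2 hln
    linarith only [e0, e3, hF4, hF1, hprod, hdz, hln]

end Pool.Agent.Lib.P962033
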