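import Pool.Agent.Lib.P962033.Neck

/-!
Emptiness of the test disks and the strip configuration.
-/

namespace Pool.Agent.Lib.P962033

/-- `(zx, zy)` is in the open disk through `(ax, ay)` with centre `(ax + m1, ay + m2)`. -/
def HitP (ax ay m1 m2 zx zy : ℝ) : Prop :=
  (zx - ax) ^ 2 + (zy - ay) ^ 2 < 2 * ((zx - ax) * m1 + (zy - ay) * m2)

theorem HitP.extent {ax ay m1 m2 zx zy a b : ℝ} (h : HitP ax ay m1 m2 zx zy)
    (h1 : |m1| ≤ a) (h2 : |m2| ≤ b) : |zx - ax| ≤ 2 * a + b := by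
  unfold HitP at h
  set z1 := zx - ax
  set z2 := zy - ay
  have ha : 0 ≤ a := (abs_nonneg _).trans h1
  have hb : 0 ≤ b := (abs_nonneg _).trans h2
  have e1 : z1 * m1 ≤ |z1| * a := by
    calc z1 * m1 ≤ |z1 * m1| := le_abs_self _
      _ = |z1| * |m1| := abs_mul _ _
      _ ≤ |z1| * a := mul_le_mul_of_nonneg_left h1 (abs_nonneg _)
  have e2 : z2 * m2 ≤ |z2| * b := by
    calc z2 * m2 ≤ |z2 * m2| := le_abs_self _
      _ = |z2| * |m2| := abs_mul _ _
      _ ≤ |z2| * b := mul_le_mul_of_nonneg_left h2 (abs_nonneg _)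
  rw [← sq_abs z1, ← sq_abs z2] at h
  by_contra hc
  push Not at hc
  have h3 : (|z1| - a) ^ 2 + (|z2| - b) ^ 2 < a ^ 2 + b ^ 2 := by
    linarith
  have h4 : (a + b) ^ 2 ≤ (|z1| - a) ^ 2 := by
    apply sq_le_sq' <;> linarith
  have h5 : 0 ≤ a * b := mul_nonneg ha hb
  linarith [sq_nonneg (|z2| - b)]

theorem HitP.scale {ax ay m1 m2 zx zy : ℝ} :
    HitP (ax / 400) (-(ay + 3200) / 400) (m1 / 400) (-m2 / 400) (zx / 400) (-(zy + 3200) / 400) ↔
      HitP ax ay m1 m2 zx zy := by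
  unfold HitP
  have e1 : (zx / 400 - ax / 400) ^ 2 + (-(zy + 3200) / 400 - -(ay + 3200) / 400) ^ 2 =
      ((zx - ax) ^ 2 + (zy - ay) ^ 2) / 160000 := by ring
  have e2 : 2 * ((zx / 400 - ax / 400) * (m1 / 400) +
      (-(zy + 3200) / 400 - -(ay + 3200) / 400) * (-m2 / 400)) =
      (2 * ((zx - ax) * m1 + (zy - ay) * m2)) / 160000 := by ring
  rw [e1, e2]
  exact div_lt_div_iff_of_pos_right (by norm_num)

theorem no_hit_far {ax ay m1 m2 zx zy G Lam : ℝ} (hm1 : |m1| ≤ 0.6) (hm2 : -m2 ≤ Lam)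
    (hz : zy - ay ≤ -G) (hG : 2 * Lam + 0.1 ≤ G) (hG7 : 7 ≤ G) :
    ¬ HitP ax ay m1 m2 zx zy := by
  unfold HitP
  set z1 := zx - ax
  set z2 := zy - ay
  push Not
  have h1 : m1 ^ 2 ≤ 0.36 := by
    have := sq_le_sq' (by linarith [(abs_le.mp hm1).1]) (abs_le.mp hm1).2
    norm_num at this ⊢
    linarith
  have h2 : 0 ≤ (z1 - m1) ^ 2 := sq_nonneg _
  have h3 : (-z2) * (-m2) ≤ (-z2) * Lam := mul_le_mul_of_nonneg_left hm2 (by linarith)
  have h4 : (-z2) * (0.1 + 2 * Lam) ≤ (-z2) * (-z2) :=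
    mul_le_mul_of_nonneg_left (by linarith) (by linarith)
  nlinarith

section neck

variable {M : ℕ} {px py vx vy : ℕ → ℝ}

theorem Necklace.diff (S : Necklace M px py vx vy) {i k : ℕ} (hi : i ≤ M) (hk : k ≤ M) :
    |px k - px i - ((k : ℝ) - i)| ≤ 0.0000000002 ∧ |py k - py i| ≤ 0.0000000002 := by
  obtain ⟨a, b⟩ := S.near_p i hi
  obtain ⟨a', b'⟩ := S.near_p k hk
  rw [abs_le] at a b a' b'
  constructor
  · rw [abs_le]; constructor <;> linarith
  · rw [abs_le]; constructor <;> linarith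

/-- a disk through two consecutive points of the sequence contains no point of the sequence -/
theorem Necklace.empty_own (S : Necklace M px py vx vy) {i k : ℕ} (hi : i < M) (hk : k ≤ M)
    {l : ℝ} (hl : |l| ≤ 8500) :
    ¬ HitP (px i) (py i) ((px (i + 1) - px i - vx i) + l * (py (i + 1) - py i))
      ((py (i + 1) - py i - vy i) - l * (px (i + 1) - px i)) (px k) (py k) := by
  unfold HitP
  have hn := S.eq_norm i hi
  by_cases hki : k = i
  · subst hki; simp
  by_cases hki1 : k = i + 1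
  · subst hki1
    push Not
    apply le_of_eq
    linear_combination -hn
  obtain ⟨d1, d2⟩ := S.diff hi.le hk
  obtain ⟨e1a, e1b⟩ := S.diff (i := i) (k := i + 1) hi.le hi
  have e1a' : |px (i + 1) - px i - 1| ≤ 0.0000000002 := by
    push_cast at e1a
    rw [show px (i + 1) - px i - 1 = px (i + 1) - px i - ((i : ℝ) + 1 - i) by ring]
    exact e1a
  obtain ⟨d11, d12⟩ := abs_le.mp d1
  have hz : 1.998 ≤ px k - px i ∨ px k - px i ≤ -0.998 := by
    rcases lt_or_gt_of_ne hki with h | h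
    · right
      have : (k : ℝ) + 1 ≤ i := by exact_mod_cast h
      linarith
    · left
      have : (i : ℝ) + 2 ≤ k := by
        have : i + 2 ≤ k := by omega
        exact_mod_cast this
      linarith
  obtain ⟨F1, F2⟩ := far_F _ _ (px k - px i) (py k - py i) (S.near_u i hi) hz
  set z1 := px k - px i
  set z2 := py k - py i
  set f1 := px (i + 1) - px i
  set f2 := py (i + 1) - py i
  set u1 := f1 - vx i
  set u2 := f2 - vy i
  push Not
  have hz1n := abs_nonneg z1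
  have g1 : |z1 * f2| ≤ |z1| * 0.0000000002 := abs_mul_le' le_rfl e1b
  have hf1 : |f1| ≤ 1.1 := by
    obtain ⟨x1, x2⟩ := abs_le.mp e1a'
    rw [abs_le]; constructor <;> linarith
  have g2 : |z2 * f1| ≤ 0.0000000002 * 1.1 := abs_mul_le' d2 hf1
  have g3 : |l * (z1 * f2 - z2 * f1)| ≤ 8500 * (|z1| * 0.0000000002 + 0.0000000002 * 1.1) := by
    apply abs_mul_le' hl
    exact (abs_sub _ _).trans (by linarith)
  have g4 := (abs_le.mp g3).2
  have key : 2 * (z1 * (u1 + l * f2) + z2 * (u2 - l * f1)) =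
      2 * (z1 * u1 + z2 * u2) + 2 * (l * (z1 * f2 - z2 * f1)) := by ring
  rw [key]
  by_cases hc : |z1| ≤ 3
  · linarith
  · push Not at hc
    have : 3 * |z1| ≤ |z1| * |z1| := mul_le_mul_of_nonneg_right hc.le hz1n
    rw [← sq] at this
    linarith

/-- a test disk contains no point of the sequence -/
theorem Necklace.empty_test (S : Necklace M px py vx vy) {i k : ℕ} (hi : i ≤ M) (hk : k ≤ M)
    {m1 m2 : ℝ} (h1 : |m1| ≤ 0.15) (h2 : |m2| ≤ 1700) :
    ¬ HitP (px i) (py i) m1 m2 (px k) (py k) := by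
  unfold HitP
  by_cases hki : k = i
  · subst hki; simp
  push Not
  obtain ⟨d1, d2⟩ := S.diff hi hk
  obtain ⟨d11, d12⟩ := abs_le.mp d1
  set z1 := px k - px i
  set z2 := py k - py i
  have hz : 0.999 ≤ |z1| := by
    rcases lt_or_gt_of_ne hki with h | h
    · have : (k : ℝ) + 1 ≤ i := by exact_mod_cast h
      have := neg_le_abs z1
      linarith
    · have : (i : ℝ) + 1 ≤ k := by exact_mod_cast h
      have := le_abs_self z1
      linarith
  have g1 : z1 * m1 ≤ |z1| * 0.15 := (le_abs_self _).trans (abs_mul_le' le_rfl h1)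
  have g2 : z2 * m2 ≤ 0.0000000002 * 1700 := (le_abs_self _).trans (abs_mul_le' d2 h2)
  have g3 : 0.999 * |z1| ≤ |z1| * |z1| := mul_le_mul_of_nonneg_right hz (abs_nonneg _)
  rw [← sq, sq_abs] at g3
  linarith [sq_nonneg z2]

end neck

end Pool.Agent.Lib.P962033
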