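import Pool.Agent.Lib.P962033.Strip
import Pool.Agent.Lib.P962033.Facts

/-!
The global counting argument.
-/

namespace Pool.Agent.Lib.P962033

open Finset

theorem Chain.inj_lt (C : Chain) {i k : ℕ} (hk : k < C.M) (hik : i < k)
    (hx : C.wx i = C.wx k) (hy : C.wy i = C.wy k) : False := by
  have hi : i < C.M := by omega
  rcases Nat.eq_or_lt_of_le (Nat.succ_le_of_lt hik) with h | h
  · have h' : k = i + 1 := h.symm
    subst h'
    obtain ⟨mu, hmu, t1, t2⟩ := C.tangent i hk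
    have o1 := C.own_left hk
    have o2 := C.own_right hi
    rw [hx, hy] at o2
    have t1' : C.ux (i + 1) = mu * C.vx i := t1
    have t2' : C.uy (i + 1) = mu * C.vy i := t2
    rw [t1', t2'] at o1
    obtain ⟨m1, m2⟩ := abs_le.mp hmu
    have hmu0 : 0 < mu := by linarith
    set D := (C.wx (i + 1) - C.px (i + 1)) * C.vx i + (C.wy (i + 1) - C.py (i + 1)) * C.vy i
    have hD1 : 0 < mu * D := by
      have e : 2 * ((C.wx (i + 1) - C.px (i + 1)) * (mu * C.vx i) +
        (C.wy (i + 1) - C.py (i + 1)) * (mu * C.vy i)) = 2 * (mu * D) := by ring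
      rw [e] at o1
      linarith [sq_nonneg (C.wx (i + 1) - C.px (i + 1)), sq_nonneg (C.wy (i + 1) - C.py (i + 1))]
    have hD2 : 0 < D := (mul_pos_iff_of_pos_left hmu0).mp hD1
    linarith [sq_nonneg (C.wx (i + 1) - C.px (i + 1)), sq_nonneg (C.wy (i + 1) - C.py (i + 1))]
  · obtain ⟨a1, a2, _, _⟩ := own_box _ _ _ _ (C.near_u k hk) (C.own k hk)
    obtain ⟨b1, b2, _, _⟩ := own_box _ _ _ _ (C.near_u i hi) (C.own i hi)
    obtain ⟨c1, _⟩ := C.near_p i hi.le
    obtain ⟨c2, _⟩ := C.near_p k hk.le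
    have hki : (i : ℝ) + 2 ≤ k := by
      have : i + 2 ≤ k := h
      exact_mod_cast this
    rw [abs_le] at c1 c2
    rw [hx] at b2
    linarith

theorem Chain.inj (C : Chain) {i k : ℕ} (hi : i < C.M) (hk : k < C.M)
    (hx : C.wx i = C.wx k) (hy : C.wy i = C.wy k) : i = k := by
  rcases lt_trichotomy i k with h | h | h
  · exact (C.inj_lt hk h hx hy).elim
  · exact h
  · exact (C.inj_lt hi h hx.symm hy.symm).elim

theorem Chain.Supp.mono {C : Chain} {lo hi lo' hi' : ℕ} {bm bp bm' bp' : ℝ}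
    (h : C.Supp lo hi bm bp) (h1 : lo ≤ lo') (h2 : hi' ≤ hi) (h3 : bm' ≤ bm) (h4 : bp' ≤ bp) :
    C.Supp lo' hi' bm' bp' := by
  intro i hi1 hi2 l hl1 hl2
  exact h i (by omega) (by omega) l (by linarith) (by linarith)

theorem cnt_add (H : ℕ → Prop) {a b c : ℕ} (h1 : a ≤ b) (h2 : b ≤ c) :
    cnt H a b + cnt H b c ≤ cnt H a c := by
  classical
  unfold cnt
  rw [← card_union_of_disjoint]
  · apply card_le_card
    intro x hx
    simp only [mem_union, mem_filter, mem_Ico] at hx ⊢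
    rcases hx with hx | hx
    · exact ⟨⟨hx.1.1, by omega⟩, hx.2⟩
    · exact ⟨⟨by omega, hx.1.2⟩, hx.2⟩
  · rw [disjoint_left]
    intro x hx hx'
    simp only [mem_filter, mem_Ico] at hx hx'
    omega

theorem one_le_cnt (H : ℕ → Prop) {a b k : ℕ} (h1 : a ≤ k) (h2 : k < b) (h : H k) :
    1 ≤ cnt H a b := by
  classical
  unfold cnt
  rw [Nat.one_le_iff_ne_zero, Ne, card_eq_zero, ← Ne, ← nonempty_iff_ne_empty]
  exact ⟨k, by rw [mem_filter, mem_Ico]; exact ⟨⟨h1, h2⟩, h⟩⟩

/-- some block is free of both kinds of heavy points -/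
theorem exists_light_block (H1 H2 : ℕ → Prop) (A0 Nb : ℕ)
    (h : cnt H1 (400 * A0) (400 * (A0 + 300 * Nb)) + cnt H2 A0 (A0 + 300 * Nb) < Nb) :
    ∃ A A', A' = A + 300 ∧ A0 ≤ A ∧ A' ≤ A0 + 300 * Nb ∧
      (∀ k, 400 * A ≤ k → k < 400 * A' → ¬ H1 k) ∧
      (∀ k, A ≤ k → k < A' → ¬ H2 k) := by
  suffices hsuff : ∃ A, A0 ≤ A ∧ A + 300 ≤ A0 + 300 * Nb ∧
      (∀ k, 400 * A ≤ k → k < 400 * (A + 300) → ¬ H1 k) ∧
      (∀ k, A ≤ k → k < A + 300 → ¬ H2 k) by
    obtain ⟨A, h1, h2, h3, h4⟩ := hsuff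
    exact ⟨A, A + 300, rfl, h1, h2, h3, h4⟩
  by_contra hcon
  push Not at hcon
  have key : ∀ t ≤ Nb, t ≤ cnt H1 (400 * A0) (400 * (A0 + 300 * t)) +
      cnt H2 A0 (A0 + 300 * t) := by
    intro t
    induction t with
    | zero => intro _; omega
    | succ t ih =>
      intro ht
      have ih' := ih (by omega)
      have g1 := cnt_add H1 (a := 400 * A0) (b := 400 * (A0 + 300 * t))
        (c := 400 * (A0 + 300 * (t + 1))) (by omega) (by omega)
      have g2 := cnt_add H2 (a := A0) (b := A0 + 300 * t) (c := A0 + 300 * (t + 1))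
        (by omega) (by omega)
      by_cases hl : ∀ k, 400 * (A0 + 300 * t) ≤ k → k < 400 * (A0 + 300 * t + 300) → ¬ H1 k
      · have hA1 : A0 ≤ A0 + 300 * t := by omega
        have hA2 : A0 + 300 * t + 300 ≤ A0 + 300 * Nb := by omega
        obtain ⟨k, hk1, hk2, hk3⟩ := hcon (A0 + 300 * t) hA1 hA2 hl
        have hk4 : k < A0 + 300 * (t + 1) := by
          clear ih' g1 g2 hcon h ih hA1 hA2
          linarith
        have := one_le_cnt H2 hk1 hk4 hk3
        omega
      · push Not at hl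
        obtain ⟨k, hk1, hk2, hk3⟩ := hl
        have hk4 : k < 400 * (A0 + 300 * (t + 1)) := by
          clear ih' g1 g2 hcon h ih
          linarith
        have := one_le_cnt H1 hk1 hk4 hk3
        omega
  have := key Nb le_rfl
  omega

/-- a Fintype-free form of the pigeonhole principle used for the slabs -/
theorem exists_free_slab {α : Type*} [DecidableEq α] (E : Finset α) (f : α → ℤ) (K : ℕ)
    (h : E.card < K) : ∃ s < K, ∀ e ∈ E, f e ≠ (s : ℤ) := by
  by_contra hcon
  push Not at hcon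
  have hsub : (range K).image (fun n : ℕ => (n : ℤ)) ⊆ E.image f := by
    intro x hx
    rw [mem_image] at hx
    obtain ⟨s, hs, rfl⟩ := hx
    obtain ⟨e, he, hfe⟩ := hcon s (mem_range.mp hs)
    exact mem_image.mpr ⟨e, he, hfe⟩
  have h1 := card_le_card hsub
  rw [card_image_of_injective _ Nat.cast_injective, card_range] at h1
  have h2 := card_image_le (s := E) (f := f)
  omega

end Pool.Agent.Lib.P962033
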