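import Pool.Agent.Lib.P962033.Chain

/-!
The number of heavy white points in a window is bounded.
-/

namespace Pool.Agent.Lib.P962033

open Finset

section cnt

variable (H : ℕ → Prop)

open Classical in
/-- number of indices in `[a, b)` satisfying `H` -/
noncomputable def cnt (a b : ℕ) : ℕ := ((Ico a b).filter H).card

theorem cnt_mono_right (a : ℕ) {b c : ℕ} (h : b ≤ c) : cnt H a b ≤ cnt H a c := by
  classical
  unfold cnt
  apply card_le_card
  apply filter_subset_filter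
  exact Ico_subset_Ico_right h

theorem cnt_mono_left {a c : ℕ} (b : ℕ) (h : a ≤ c) : cnt H c b ≤ cnt H a b := by
  classical
  unfold cnt
  apply card_le_card
  apply filter_subset_filter
  exact Ico_subset_Ico_left h

theorem cnt_split (a b c : ℕ) : cnt H a b ≤ cnt H a c + cnt H c b := by
  classical
  unfold cnt
  refine (card_le_card ?_).trans (card_union_le _ _)
  intro x hx
  simp only [mem_filter, mem_Ico, mem_union] at hx ⊢
  by_cases h : x < c
  · left; exact ⟨⟨hx.1.1, h⟩, hx.2⟩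
  · right; exact ⟨⟨by omega, hx.1.2⟩, hx.2⟩

theorem cnt_le (a b : ℕ) : cnt H a b ≤ b - a := by
  classical
  unfold cnt
  refine (card_filter_le _ _).trans ?_
  simp

theorem cnt_succ_of_not (a : ℕ) (h : ¬ H a) : cnt H a (a + 1) = 0 := by
  classical
  unfold cnt
  rw [card_eq_zero, filter_eq_empty_iff]
  intro x hx
  simp only [mem_Ico] at hx
  have : x = a := by omega
  rwa [this]

theorem exists_median (a b m : ℕ) (h : 2 * m + 1 ≤ cnt H a b) :
    ∃ i, a ≤ i ∧ i < b ∧ H i ∧ m ≤ cnt H a i ∧ m ≤ cnt H (i + 1) b := by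
  classical
  have hex : ∃ n, m + 1 ≤ cnt H a n := ⟨b, by omega⟩
  obtain ⟨n, hn, hmin⟩ : ∃ n, m + 1 ≤ cnt H a n ∧ ∀ k < n, cnt H a k < m + 1 :=
    ⟨Nat.find hex, Nat.find_spec hex, fun k hk => not_le.mp (Nat.find_min hex hk)⟩
  have hna : a < n := by
    by_contra hc
    have : cnt H a n ≤ n - a := cnt_le H a n
    omega
  obtain ⟨i, rfl⟩ : ∃ i, n = i + 1 := ⟨n - 1, by omega⟩
  have hi : cnt H a i < m + 1 := hmin i (by omega)
  have hs := cnt_split H a (i + 1) i
  have h1 : cnt H i (i + 1) ≤ 1 := by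
    have := cnt_le H i (i + 1); omega
  have hHi : H i := by
    by_contra hc
    have := cnt_succ_of_not H i hc
    omega
  have hib : i < b := by
    by_contra hc
    have : cnt H a b ≤ cnt H a i := cnt_mono_right H a (by omega)
    omega
  refine ⟨i, by omega, hib, hHi, by omega, ?_⟩
  have := cnt_split H a b (i + 1)
  have h2 : cnt H a (i + 1) ≤ m + 1 := by omega
  omega

end cnt

namespace Chain

variable (C : Chain)

def Supp (lo hi : ℕ) (bm bp : ℝ) : Prop :=
  ∀ i, lo ≤ i → i < hi → ∀ l : ℝ, -bm ≤ l → l ≤ bp →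
    ∃ k < C.M, 2 * l * C.bf i (C.wx k) (C.wy k) < C.Pf i (C.wx k) (C.wy k)

def Heavy (r0 : ℝ) (k : ℕ) : Prop := 0.1255 / r0 ≤ |C.B k|

theorem heavy_lam {r0 : ℝ} (hr0 : 0 < r0) {k : ℕ} (hk : k < C.M) (hH : C.Heavy r0 k) :
    C.B k ≠ 0 ∧ |C.lam k| ≤ 0.998 * r0 := by
  unfold Heavy at hH
  have hpos : 0 < |C.B k| := lt_of_lt_of_le (by positivity) hH
  have hB : C.B k ≠ 0 := abs_pos.mp hpos
  refine ⟨hB, ?_⟩
  have hPle : C.Pw k ≤ 0.2501 := (own_box _ _ _ _ (C.near_u k hk) (C.own k hk)).2.2.2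
  have hP := C.abs_lam_B hk hB
  rw [div_le_iff₀ hr0] at hH
  have h1 : |C.lam k| * |C.B k| ≤ 0.12505 := by linarith
  have h2 : |C.lam k| * |C.B k| ≤ (0.998 * r0) * |C.B k| := by
    nlinarith
  exact le_of_mul_le_mul_right h2 hpos

theorem descent_min {lo hi : ℕ} (hhi : hi ≤ C.M) {r0 : ℝ} (hr0 : 3.9 ≤ r0) (hr1 : r0 ≤ 2000)
    (hS : C.Supp lo hi (1.001 * r0) (1.001 * r0)) :
    ∀ i, lo ≤ i → i < hi → C.B i ≠ 0 → |C.lam i| ≤ 1.001 * r0 → C.T i ≤ 2 * r0 →
      0.2 / r0 * (min (cnt (C.Heavy r0) lo i) (cnt (C.Heavy r0) (i + 1) hi) : ℕ) ≤ C.T i := by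
  classical
  by_contra hcon
  push Not at hcon
  set S := (Ico lo hi).filter (fun i => C.B i ≠ 0 ∧ |C.lam i| ≤ 1.001 * r0 ∧ C.T i ≤ 2 * r0 ∧
    C.T i < 0.2 / r0 * (min (cnt (C.Heavy r0) lo i) (cnt (C.Heavy r0) (i + 1) hi) : ℕ)) with hSdef
  have hne : S.Nonempty := by
    obtain ⟨i, h1, h2, h3, h4, h5, h6⟩ := hcon
    exact ⟨i, by rw [hSdef, mem_filter, mem_Ico]; exact ⟨⟨h1, h2⟩, h3, h4, h5, h6⟩⟩
  obtain ⟨i, hiS, hmin⟩ := S.exists_min_image C.T hne
  rw [hSdef, mem_filter, mem_Ico] at hiS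
  obtain ⟨⟨hlo, hihi⟩, hBi, hlam, hT, hlt⟩ := hiS
  have hr0p : 0 < r0 := by linarith
  have heps : 0 < 0.2 / r0 := by positivity
  have heps2 : 0.2 / r0 ≤ 0.1 := by
    rw [div_le_iff₀ hr0p]; linarith
  obtain ⟨hl1, hl2⟩ := abs_le.mp hlam
  obtain ⟨k, hkM, hk⟩ := hS i hlo hihi (C.lam i) hl1 hl2
  have hiM : i < C.M := by omega
  obtain ⟨r1, r2, r3, r4⟩ := C.cov_cases hiM hkM hBi (by linarith) hk
  have hBk : C.B k ≠ 0 := by
    intro h0; rw [h0] at r1; simp at r1
  have hlk : |C.lam k| ≤ 8600 := by linarith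
  obtain ⟨t1, t2⟩ := C.T_est hkM hlk
  have hlkn := abs_nonneg (C.lam k)
  have hlk2 : |C.lam k| ≤ 1.001 * r0 := by linarith
  have hTk0 : 0 ≤ C.T k := by linarith
  -- bound for k
  have hkbound : 0.2 / r0 * (min (cnt (C.Heavy r0) lo k) (cnt (C.Heavy r0) (k + 1) hi) : ℕ) ≤
      C.T k := by
    by_cases hw : lo ≤ k ∧ k < hi
    · by_contra hc
      push Not at hc
      have hkS : k ∈ S := by
        rw [hSdef, mem_filter, mem_Ico]
        exact ⟨hw, hBk, hlk2, by linarith, hc⟩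
      have := hmin k hkS
      linarith
    · have hz : min (cnt (C.Heavy r0) lo k) (cnt (C.Heavy r0) (k + 1) hi) = 0 := by
        have h1 := cnt_le (C.Heavy r0) lo k
        have h2 := cnt_le (C.Heavy r0) (k + 1) hi
        omega
      rw [hz]; simpa using hTk0
  set mi := min (cnt (C.Heavy r0) lo i) (cnt (C.Heavy r0) (i + 1) hi) with hmi
  set mk := min (cnt (C.Heavy r0) lo k) (cnt (C.Heavy r0) (k + 1) hi) with hmk
  rcases r4 with ⟨hadj, hdrop⟩ | ⟨h98, h100, hdrop⟩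
  · by_cases hH : C.Heavy r0 k
    · have hm : mi ≤ mk + 1 := by
        have h1 := cnt_split (C.Heavy r0) lo i k
        have h2 := cnt_le (C.Heavy r0) k i
        have h3 := cnt_split (C.Heavy r0) (i + 1) hi (k + 1)
        have h4 := cnt_le (C.Heavy r0) (i + 1) (k + 1)
        omega
      have hm' : (mi : ℝ) ≤ mk + 1 := by exact_mod_cast hm
      have hB1 : 0.1255 / r0 ≤ |C.B k| := hH
      have e1 : 0.2 / r0 * (mi : ℝ) ≤ 0.2 / r0 * (mk + 1) :=
        mul_le_mul_of_nonneg_left hm' heps.le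
      have e2 : 0.2 / r0 ≤ 1.8 * (0.1255 / r0) := by
        rw [← mul_div_assoc]
        apply div_le_div_of_nonneg_right _ hr0p.le
        norm_num
      linarith
    · have hm : mi ≤ mk := by
        have c0 : cnt (C.Heavy r0) k (k + 1) = 0 := cnt_succ_of_not _ _ hH
        rcases hadj with h | h
        · subst h
          have h1 := cnt_mono_right (C.Heavy r0) lo (Nat.le_succ i)
          have h3 := cnt_split (C.Heavy r0) (i + 1) hi (i + 1 + 1)
          have h5 : cnt (C.Heavy r0) lo i ≤ cnt (C.Heavy r0) lo (i + 1) := h1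
          omega
        · subst h
          have h1 := cnt_split (C.Heavy r0) lo (k + 1) k
          have h3 := cnt_mono_left (C.Heavy r0) hi (Nat.le_succ (k + 1))
          have h5 : cnt (C.Heavy r0) (k + 1 + 1) hi ≤ cnt (C.Heavy r0) (k + 1) hi := h3
          omega
      have hm' : (mi : ℝ) ≤ mk := by exact_mod_cast hm
      have e1 : 0.2 / r0 * (mi : ℝ) ≤ 0.2 / r0 * mk :=
        mul_le_mul_of_nonneg_left hm' heps.le
      linarith
  · have hm : (mi : ℝ) ≤ mk + |(k : ℝ) - i| := by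
      have h1 := cnt_split (C.Heavy r0) lo i k
      have h2 := cnt_le (C.Heavy r0) k i
      have h3 := cnt_split (C.Heavy r0) (i + 1) hi (k + 1)
      have h4 := cnt_le (C.Heavy r0) (i + 1) (k + 1)
      rcases le_total k i with h | h
      · have hm : mi ≤ mk + (i - k) := by omega
        have hkr : (k : ℝ) ≤ i := by exact_mod_cast h
        have hm' : (mi : ℝ) ≤ mk + ((i : ℝ) - k) := by
          have : (mi : ℝ) ≤ ((mk + (i - k) : ℕ) : ℝ) := by exact_mod_cast hm
          rw [Nat.cast_add, Nat.cast_sub h] at this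
          exact this
        rw [abs_of_nonpos (by linarith)]
        linarith
      · have hm : mi ≤ mk + (k - i) := by omega
        have hkr : (i : ℝ) ≤ k := by exact_mod_cast h
        have hm' : (mi : ℝ) ≤ mk + ((k : ℝ) - i) := by
          have : (mi : ℝ) ≤ ((mk + (k - i) : ℕ) : ℝ) := by exact_mod_cast hm
          rw [Nat.cast_add, Nat.cast_sub h] at this
          exact this
        rw [abs_of_nonneg (by linarith)]
        linarith
    have e1 : 0.2 / r0 * (mi : ℝ) ≤ 0.2 / r0 * (mk + |(k : ℝ) - i|) :=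
      mul_le_mul_of_nonneg_left hm heps.le
    have e2 : 0.2 / r0 * |(k : ℝ) - i| ≤ 0.1 * |(k : ℝ) - i| :=
      mul_le_mul_of_nonneg_right heps2 (abs_nonneg _)
    linarith

theorem heavy_count {lo hi : ℕ} (hhi : hi ≤ C.M) {r0 : ℝ} (hr0 : 3.9 ≤ r0) (hr1 : r0 ≤ 2000)
    (hS : C.Supp lo hi (1.001 * r0) (1.001 * r0)) :
    (cnt (C.Heavy r0) lo hi : ℝ) ≤ 20 * r0 ^ 2 + 2 := by
  by_contra hcon
  push Not at hcon
  have hr0p : 0 < r0 := by linarith
  set h := cnt (C.Heavy r0) lo hi with hh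
  have h1 : 1 ≤ h := by
    have : (0 : ℝ) < h := by nlinarith [sq_nonneg r0]
    exact_mod_cast this
  obtain ⟨m, hm⟩ : ∃ m, h = 2 * m + 1 ∨ h = 2 * m + 2 := ⟨(h - 1) / 2, by omega⟩
  have hm1 : 2 * m + 1 ≤ h := by omega
  obtain ⟨i, hlo, hihi, hHi, hL, hR⟩ := exists_median (C.Heavy r0) lo hi m hm1
  have hiM : i < C.M := by omega
  obtain ⟨hB, hlam⟩ := C.heavy_lam hr0p hiM hHi
  obtain ⟨t1, t2⟩ := C.T_est hiM (by linarith)
  have hd := C.descent_min hhi hr0 hr1 hS i hlo hihi hB (by linarith) (by linarith)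
  have hmin : m ≤ min (cnt (C.Heavy r0) lo i) (cnt (C.Heavy r0) (i + 1) hi) := le_min hL hR
  have hmin' : (m : ℝ) ≤ (min (cnt (C.Heavy r0) lo i) (cnt (C.Heavy r0) (i + 1) hi) : ℕ) := by
    exact_mod_cast hmin
  have heps : 0 < 0.2 / r0 := by positivity
  have e1 : 0.2 / r0 * (m : ℝ) ≤ 2 * r0 := by
    have := mul_le_mul_of_nonneg_left hmin' heps.le
    linarith
  have e2 : 0.2 * (m : ℝ) ≤ 2 * r0 * r0 := by
    have e3 : 0.2 / r0 * (m : ℝ) = 0.2 * m / r0 := by ring
    rw [e3, div_le_iff₀ hr0p] at e1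
    exact e1
  have e4 : (h : ℝ) ≤ 2 * m + 2 := by
    have : h ≤ 2 * m + 2 := by omega
    exact_mod_cast this
  nlinarith

end Chain

end Pool.Agent.Lib.P962033
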