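import Pool.Agent.Lib.P962033.Far

/-!
Facts about one white point of a gap, in the frame where the gap is `(0,0)-(1,0)`.
-/

namespace Pool.Agent.Lib.P962033

/-- `(X, Y)` lies in the circle through the origin with centre `(a, c)`. -/
def PL (X Y a c : ℝ) : Prop := X ^ 2 + Y ^ 2 < 2 * (X * a + Y * c)

/-- near range for the first coordinate of a test centre -/
def Rng (R a c : ℝ) : Prop := 0.0999 ≤ a ∧ a ≤ 0.1501 ∧ -(1.0001 * R) ≤ c ∧ c ≤ -(0.9979 * R)

theorem pos_both {X : ℝ} (h : 0 < X * (1 - X)) : 0 < X ∧ X < 1 := by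
  constructor
  · by_contra hX
    push Not at hX
    have : X * (1 - X) ≤ 0 := mul_nonpos_of_nonpos_of_nonneg hX (by linarith)
    linarith
  · by_contra hX
    push Not at hX
    have : X * (1 - X) ≤ 0 := mul_nonpos_of_nonneg_of_nonpos (by linarith) (by linarith)
    linarith

theorem loc_X (X Y s : ℝ) (hs : |s| ≤ 0.000000001) (hY : |Y| ≤ 1)
    (hD : X ^ 2 + Y ^ 2 < X + 2 * s * Y) : -0.00000001 ≤ X ∧ X ≤ 1.00000001 := by
  have h1 : |s * Y| ≤ 0.000000001 * 1 := abs_mul_le' hs hY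
  obtain ⟨h2, h3⟩ := abs_le.mp h1
  constructor
  · nlinarith [sq_nonneg X, sq_nonneg Y]
  · by_contra hc
    push Not at hc
    nlinarith [sq_nonneg Y]

/-- upper white points never lie in far tests -/
theorem U_nofar (X Y s R a c : ℝ) (hR : 3 ≤ R) (hs : |s| ≤ 0.000000001)
    (hD : X ^ 2 + Y ^ 2 < X + 2 * s * Y) (hY : 0 ≤ Y) (hr : Rng R a c)
    (h : PL X Y (-a) c) : False := by
  obtain ⟨a1, a2, c1, c2⟩ := hr
  unfold PL at h
  obtain ⟨s1, s2⟩ := abs_le.mp hs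
  have h1 : s * Y ≤ 0.000000001 * Y := mul_le_mul_of_nonneg_right s2 hY
  have h2 : Y * c ≤ Y * (-2) := mul_le_mul_of_nonneg_left (by linarith) hY
  rcases le_or_gt 0 X with hX | hX
  · have h3 : 0 ≤ X * a := mul_nonneg hX (by linarith)
    nlinarith [sq_nonneg X, sq_nonneg Y]
  · have h3 : X * (-a) ≤ -X * 0.1501 := by nlinarith
    nlinarith [sq_nonneg X, sq_nonneg Y]

theorem U_near_X (X Y R a c : ℝ) (hR : 3 ≤ R) (hY : 0 ≤ Y) (hr : Rng R a c)
    (h : PL X Y a c) : 0 < X ∧ X < 0.3002 ∧ Y ≤ 0.1 * X ∧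
      1.9958 * (R * Y) < 0.3002 * X - X ^ 2 - Y ^ 2 := by
  obtain ⟨a1, a2, c1, c2⟩ := hr
  unfold PL at h
  have h2 : Y * c ≤ Y * (-(0.9979 * R)) := mul_le_mul_of_nonneg_left c2 hY
  have hX : 0 < X := by
    by_contra hc
    push Not at hc
    have : X * a ≤ 0 := mul_nonpos_of_nonpos_of_nonneg hc (by linarith)
    have : 0 ≤ Y * (0.9979 * R) := mul_nonneg hY (by linarith)
    nlinarith [sq_nonneg X, sq_nonneg Y]
  have h3 : X * a ≤ X * 0.1501 := mul_le_mul_of_nonneg_left a2 hX.le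
  have hRY : 3 * Y ≤ R * Y := mul_le_mul_of_nonneg_right hR hY
  have h4 : 1.9958 * (R * Y) < 0.3002 * X - X ^ 2 - Y ^ 2 := by linarith
  refine ⟨hX, ?_, ?_, h4⟩
  · have : X * X < 0.3002 * X := by linarith [sq_nonneg Y, sq X]
    exact lt_of_mul_lt_mul_right this hX.le
  · linarith [sq_nonneg X, sq_nonneg Y]

theorem U_near_tau (X Y s R a c : ℝ) (hR : 3 ≤ R) (hs : |s| ≤ 0.000000001)
    (hY : 0 ≤ Y) (hr : Rng R a c)
    (h : PL X Y a c) : 6 * R * Y ≤ X + 2 * s * Y - X ^ 2 - Y ^ 2 := by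
  obtain ⟨hX, hX2, hYX, h4⟩ := U_near_X X Y R a c hR hY hr h
  obtain ⟨s1, s2⟩ := abs_le.mp hs
  have h1 : -0.000000001 * Y ≤ s * Y := mul_le_mul_of_nonneg_right (by linarith) hY
  nlinarith [sq_nonneg X, sq_nonneg Y]

/-- estimate for lower white points in a near test -/
theorem L_near (X Y R a c : ℝ) (_hR : 3 ≤ R) (hY : Y < 0) (hr : Rng R a c)
    (hX : 0 < X) (h : PL X Y a c) : X * (X - 0.3002) < 2.0002 * (R * (-Y)) := by
  obtain ⟨a1, a2, c1, c2⟩ := hr
  unfold PL at h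
  have h2 : (-Y) * (-c) ≤ (-Y) * (1.0001 * R) :=
    mul_le_mul_of_nonneg_left (by linarith) (by linarith)
  have h3 : X * a ≤ X * 0.1501 := mul_le_mul_of_nonneg_left a2 hX.le
  nlinarith [sq_nonneg Y]

theorem L_far (X Y R a c : ℝ) (_hR : 3 ≤ R) (hY : Y < 0) (hr : Rng R a c)
    (hX : 0 < X) (h : PL X Y (-a) c) : X * (X + 0.1998) < 2.0002 * (R * (-Y)) := by
  obtain ⟨a1, a2, c1, c2⟩ := hr
  unfold PL at h
  have h2 : (-Y) * (-c) ≤ (-Y) * (1.0001 * R) :=
    mul_le_mul_of_nonneg_left (by linarith) (by linarith)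
  have h3 : X * 0.0999 ≤ X * a := mul_le_mul_of_nonneg_left a1 hX.le
  nlinarith [sq_nonneg Y]

/-- lower white point in the far tests of both ends: impossible if not heavy -/
theorem L_notboth (X Y R a c a' c' : ℝ) (hR : 3 ≤ R) (hY : Y < 0)
    (hYR : R * (-Y) ≤ 0.136) (hr : Rng R a c) (hr' : Rng R a' c')
    (h : PL X Y (-a) c) (h' : PL (1 - X) Y (-a') c') : False := by
  have h1 : X < 0.45 := by
    by_contra hc
    push Not at hc
    have := L_far X Y R a c hR hY hr (by linarith) h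
    nlinarith
  have h2 : 1 - X < 0.45 := by
    by_contra hc
    push Not at hc
    have := L_far (1 - X) Y R a' c' hR hY hr' (by linarith) h'
    nlinarith
  linarith

theorem L_farnear (X Y s R a c a' c' : ℝ) (hR : 3 ≤ R) (hY : Y < 0)
    (hs : |s| ≤ 0.000000001) (hr : Rng R a c) (hr' : Rng R a' c')
    (h : PL X Y (-a) c) (h' : PL (1 - X) Y a' c') :
    X + 2 * s * Y - X ^ 2 - Y ^ 2 < 2.7 * R * (-Y) := by
  by_contra hc
  push Not at hc
  obtain ⟨s1, s2⟩ := abs_le.mp hs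
  have h1 : s * Y ≤ 0.000000001 * (-Y) := by nlinarith
  have hRY : 3 * (-Y) ≤ R * (-Y) := mul_le_mul_of_nonneg_right hR (by linarith)
  have h2 : 2.69 * (R * (-Y)) ≤ X * (1 - X) := by nlinarith [sq_nonneg Y]
  have hq : 0 < R * (-Y) := by linarith
  obtain ⟨hX, hX1⟩ := pos_both (X := X) (by linarith)
  have f1 := L_far X Y R a c hR hY hr hX h
  have f2 := L_near (1 - X) Y R a' c' hR hY hr' (by linarith) h'
  have g1 : X * (2.69 * (X + 0.1998)) < X * (2.0002 * (1 - X)) := by linarith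
  have g1' := lt_of_mul_lt_mul_left g1 hX.le
  have g2 : (1 - X) * (2.69 * (1 - X - 0.3002)) < (1 - X) * (2.0002 * X) := by linarith
  have g2' := lt_of_mul_lt_mul_left g2 (by linarith)
  linarith

theorem L_nearnear (X Y s R a c a' c' : ℝ) (hR : 3 ≤ R) (hY : Y < 0)
    (hs : |s| ≤ 0.000000001) (hr : Rng R a c) (hr' : Rng R a' c')
    (h : PL X Y a c) (h' : PL (1 - X) Y a' c') :
    X + 2 * s * Y - X ^ 2 - Y ^ 2 < 5.2 * R * (-Y) := by
  by_contra hc
  push Not at hc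
  obtain ⟨s1, s2⟩ := abs_le.mp hs
  have h1 : s * Y ≤ 0.000000001 * (-Y) := by nlinarith
  have hRY : 3 * (-Y) ≤ R * (-Y) := mul_le_mul_of_nonneg_right hR (by linarith)
  have h2 : 5.19 * (R * (-Y)) ≤ X * (1 - X) := by nlinarith [sq_nonneg Y]
  have hq : 0 < R * (-Y) := by linarith
  obtain ⟨hX, hX1⟩ := pos_both (X := X) (by linarith)
  have f1 := L_near X Y R a c hR hY hr hX h
  have f2 := L_near (1 - X) Y R a' c' hR hY hr' (by linarith) h'
  have g1 : X * (5.19 * (X - 0.3002)) < X * (2.0002 * (1 - X)) := by linarith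
  have g1' := lt_of_mul_lt_mul_left g1 hX.le
  have g2 : (1 - X) * (5.19 * (1 - X - 0.3002)) < (1 - X) * (2.0002 * X) := by linarith
  have g2' := lt_of_mul_lt_mul_left g2 (by linarith)
  linarith

theorem L_far_tau (X Y s R a c : ℝ) (hR : 3 ≤ R) (hY : Y < 0)
    (hs : |s| ≤ 0.000000001) (hr : Rng R a c)
    (h : PL X Y (-a) c) :
    X + 2 * s * Y - X ^ 2 - Y ^ 2 < 10.2 * R * (-Y) := by
  by_contra hc
  push Not at hc
  obtain ⟨s1, s2⟩ := abs_le.mp hs
  have h1 : s * Y ≤ 0.000000001 * (-Y) := by nlinarith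
  have hRY : 3 * (-Y) ≤ R * (-Y) := mul_le_mul_of_nonneg_right hR (by linarith)
  have h2 : 10.19 * (R * (-Y)) ≤ X * (1 - X) := by nlinarith [sq_nonneg Y]
  have hq : 0 < R * (-Y) := by linarith
  obtain ⟨hX, hX1⟩ := pos_both (X := X) (by linarith)
  have f1 := L_far X Y R a c hR hY hr hX h
  have g1 : X * (10.19 * (X + 0.1998)) < X * (2.0002 * (1 - X)) := by linarith
  have g1' := lt_of_mul_lt_mul_left g1 hX.le
  linarith

/-- An upper white point cannot support both neighbours when these have small parameters. -/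
theorem U_both (X Y s r0 t t1 t2 a c a' c' : ℝ) (hr0 : 3 ≤ r0)
    (hY : 0 < Y) (hs : |s| ≤ 0.000000001)
    (hown : X + 2 * s * Y - X ^ 2 - Y ^ 2 = 2 * t * Y)
    (ht : r0 ≤ t) (ht1 : t1 ≤ 1.47 * r0) (ht2 : t2 ≤ 5.62 * r0)
    (ha : |a + 1/2| ≤ 0.0001) (hc : |c - t1| ≤ 0.0001)
    (ha' : |a' + 1/2| ≤ 0.0001) (hc' : |c' - t2| ≤ 0.0001)
    (h1 : PL X Y a c) (h2 : PL (1 - X) Y a' c') : False := by
  unfold PL at h1 h2
  obtain ⟨s1, s2⟩ := abs_le.mp hs
  obtain ⟨a1, a2⟩ := abs_le.mp ha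
  obtain ⟨a3, a4⟩ := abs_le.mp ha'
  obtain ⟨c1, c2⟩ := abs_le.mp hc
  obtain ⟨c3, c4⟩ := abs_le.mp hc'
  have hsY : |s * Y| ≤ 0.000000001 * Y := by
    rw [abs_mul, abs_of_pos hY]
    exact mul_le_mul_of_nonneg_right hs hY.le
  obtain ⟨sy1, sy2⟩ := abs_le.mp hsY
  have htY : r0 * Y ≤ t * Y := mul_le_mul_of_nonneg_right ht hY.le
  have hr0Y : 3 * Y ≤ r0 * Y := mul_le_mul_of_nonneg_right hr0 hY.le
  -- X (1 - X) is positive
  have hXX : 0 < X * (1 - X) := by nlinarith [sq_nonneg Y]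
  have hX0 : 0 < X := by
    by_contra hcon
    push Not at hcon
    have : X * (1 - X) ≤ 0 := mul_nonpos_of_nonpos_of_nonneg hcon (by linarith)
    linarith
  have hX1 : 0 < 1 - X := by
    by_contra hcon
    push Not at hcon
    have : X * (1 - X) ≤ 0 := mul_nonpos_of_nonneg_of_nonpos hX0.le hcon
    linarith
  have k1 : Y * c ≤ Y * (t1 + 0.0001) := mul_le_mul_of_nonneg_left (by linarith) hY.le
  have k2 : Y * c' ≤ Y * (t2 + 0.0001) := mul_le_mul_of_nonneg_left (by linarith) hY.le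
  have k3 : X * a ≤ X * (-0.4999) := mul_le_mul_of_nonneg_left (by linarith) hX0.le
  have k4 : (1 - X) * a' ≤ (1 - X) * (-0.4999) :=
    mul_le_mul_of_nonneg_left (by linarith) hX1.le
  -- sums
  have e1 : 1.9998 * X < 2 * (t1 + t + 0.001) * Y := by nlinarith
  have e2 : 1.9998 * (1 - X) < 2 * (t2 + t + 0.001) * Y := by nlinarith
  have e3 : 2 * (t - 0.001) * Y ≤ X * (1 - X) := by nlinarith [sq_nonneg Y]
  set q := (t - 0.001) * Y with hq
  have hqpos : 0 < q := mul_pos (by linarith) hY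
  -- compare t1 + t + 0.001 ≤ 2.472 (t - 0.001), t2 + t + 0.001 ≤ 6.63 (t-0.001)
  have e4 : (t1 + t + 0.001) * Y ≤ 2.475 * q := by
    rw [hq, ← mul_assoc]
    apply mul_le_mul_of_nonneg_right _ hY.le
    linarith
  have e5 : (t2 + t + 0.001) * Y ≤ 6.63 * q := by
    rw [hq, ← mul_assoc]
    apply mul_le_mul_of_nonneg_right _ hY.le
    linarith
  -- X < 2.4753 q, 1 - X < 6.6307 q, 2 q ≤ X (1 - X)
  have e6 : X < 2.476 * q := by linarith
  have e7 : 1 - X < 6.631 * q := by linarith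
  have e8 : 2 * q ≤ X * (1 - X) := by linarith
  -- 2 X < 2.476 X (1 - X)
  have e9 : X * 2 < X * (2.476 * (1 - X)) := by linarith
  have e10 := lt_of_mul_lt_mul_left e9 hX0.le
  have e11 : (1 - X) * 2 < (1 - X) * (6.631 * X) := by linarith
  have e12 := lt_of_mul_lt_mul_left e11 hX1.le
  linarith

end Pool.Agent.Lib.P962033
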