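import Pool.Agent.Lib.P962033.Loc

/-!
Passing to the frame of a gap.
-/

namespace Pool.Agent.Lib.P962033

theorem localize (v1 v2 u1 u2 x y : ℝ) (hv : NearHalf v1 v2) (hu : NearHalf u1 u2)
    (hn : v1 ^ 2 + v2 ^ 2 = u1 ^ 2 + u2 ^ 2) :
    ∃ X Y s E : ℝ, |E - 1| ≤ 0.000000001 ∧ |s| ≤ 0.000000001 ∧
      (v1 + u1) * y - (v2 + u2) * x = E * Y ∧
      2 * (x * u1 + y * u2) - (x ^ 2 + y ^ 2) = E * (X + 2 * s * Y - X ^ 2 - Y ^ 2) ∧
      ∀ m1 m2 : ℝ, |m1| ≤ 9000 → |m2| ≤ 9000 →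
        ∃ a c : ℝ, |a - m1| ≤ 0.00002 ∧ |c - m2| ≤ 0.00002 ∧
          (x ^ 2 + y ^ 2 < 2 * (x * m1 + y * m2) ↔ PL X Y a c) ∧
          ((x - (v1 + u1)) ^ 2 + (y - (v2 + u2)) ^ 2 <
            2 * ((x - (v1 + u1)) * m1 + (y - (v2 + u2)) * m2) ↔ PL (1 - X) Y (-a) c) := by
  obtain ⟨hs1, hs2⟩ := hv.sum hu
  set e1 := v1 + u1 with he1
  set e2 := v2 + u2 with he2
  obtain ⟨a1, a2⟩ := abs_le.mp hs1
  obtain ⟨b1, b2⟩ := abs_le.mp hs2
  have he2sq : |e2 * e2| ≤ 0.0000000002 * 0.0000000002 := abs_mul_le' hs2 hs2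
  have he1abs : |e1 + 1| ≤ 3 := by rw [abs_le]; constructor <;> linarith
  have he1sq : |(e1 - 1) * (e1 + 1)| ≤ 0.0000000002 * 3 := abs_mul_le' hs1 he1abs
  set E := e1 ^ 2 + e2 ^ 2 with hE
  have hE1 : |E - 1| ≤ 0.000000001 := by
    obtain ⟨c1, c2⟩ := abs_le.mp he2sq
    obtain ⟨c3, c4⟩ := abs_le.mp he1sq
    have : E - 1 = (e1 - 1) * (e1 + 1) + e2 * e2 := by rw [hE]; ring
    rw [this, abs_le]
    constructor <;> linarith
  obtain ⟨E1, E2⟩ := abs_le.mp hE1
  have hEpos : 0 < E := by linarith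
  have hom : |omq v1 v2 u1 u2| ≤ 0.0000000003 := hv.omq hu
  have heu : 2 * (e1 * u1 + e2 * u2) = E := by
    rw [hE, he1, he2]; linear_combination -hn
  have hecu : e1 * u2 - e2 * u1 = omq v1 v2 u1 u2 := by
    unfold omq; rw [he1, he2]; ring
  refine ⟨(e1 * x + e2 * y) / E, (e1 * y - e2 * x) / E, (e1 * u2 - e2 * u1) / E, E, hE1, ?_,
    ?_, ?_, ?_⟩
  · rw [hecu, abs_div, abs_of_pos hEpos, div_le_iff₀ hEpos]
    linarith
  · field_simp
  · set X := (e1 * x + e2 * y) / E with hX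
    set Y := (e1 * y - e2 * x) / E with hY
    set s := (e1 * u2 - e2 * u1) / E with hs
    have hx : x = e1 * X - e2 * Y := by
      rw [hX, hY]; field_simp; rw [hE]; ring
    have hy : y = e2 * X + e1 * Y := by
      rw [hX, hY]; field_simp; rw [hE]; ring
    have hsE : e1 * u2 - e2 * u1 = s * E := by rw [hs]; field_simp
    clear_value X Y s
    subst hx hy
    have : 2 * ((e1 * X - e2 * Y) * u1 + (e2 * X + e1 * Y) * u2) -
        ((e1 * X - e2 * Y) ^ 2 + (e2 * X + e1 * Y) ^ 2) =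
        X * (2 * (e1 * u1 + e2 * u2)) + 2 * Y * (e1 * u2 - e2 * u1) -
        (e1 ^ 2 + e2 ^ 2) * (X ^ 2 + Y ^ 2) := by ring
    rw [this, heu, hsE, ← hE]
    ring
  · intro m1 m2 hm1 hm2
    set X := (e1 * x + e2 * y) / E with hX
    set Y := (e1 * y - e2 * x) / E with hY
    have hx : x = e1 * X - e2 * Y := by
      rw [hX, hY]; field_simp; rw [hE]; ring
    have hy : y = e2 * X + e1 * Y := by
      rw [hX, hY]; field_simp; rw [hE]; ring
    clear_value X Y
    subst hx hy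
    have hE1e : |e1 - E| ≤ 0.0000000015 := by
      rw [abs_le]; constructor <;> linarith
    refine ⟨(e1 * m1 + e2 * m2) / E, (e1 * m2 - e2 * m1) / E, ?_, ?_, ?_, ?_⟩
    · have e : (e1 * m1 + e2 * m2) / E - m1 = ((e1 - E) * m1 + e2 * m2) / E := by
        field_simp; ring
      have f1 : |(e1 - E) * m1| ≤ 0.0000000015 * 9000 := abs_mul_le' hE1e hm1
      have f2 : |e2 * m2| ≤ 0.0000000002 * 9000 := abs_mul_le' hs2 hm2
      rw [e, abs_div, abs_of_pos hEpos, div_le_iff₀ hEpos]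
      refine (abs_add_le _ _).trans ?_
      linarith
    · have e : (e1 * m2 - e2 * m1) / E - m2 = ((e1 - E) * m2 - e2 * m1) / E := by
        field_simp; ring
      have f1 : |(e1 - E) * m2| ≤ 0.0000000015 * 9000 := abs_mul_le' hE1e hm2
      have f2 : |e2 * m1| ≤ 0.0000000002 * 9000 := abs_mul_le' hs2 hm1
      rw [e, abs_div, abs_of_pos hEpos, div_le_iff₀ hEpos]
      refine (abs_sub _ _).trans ?_
      linarith
    · set a := (e1 * m1 + e2 * m2) / E with ha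
      set c := (e1 * m2 - e2 * m1) / E with hc
      have haE : e1 * m1 + e2 * m2 = a * E := by rw [ha]; field_simp
      have hcE : e1 * m2 - e2 * m1 = c * E := by rw [hc]; field_simp
      unfold PL
      have l1 : (e1 * X - e2 * Y) ^ 2 + (e2 * X + e1 * Y) ^ 2 = (X ^ 2 + Y ^ 2) * E := by
        rw [hE]; ring
      have l2 : 2 * ((e1 * X - e2 * Y) * m1 + (e2 * X + e1 * Y) * m2) =
          2 * (X * a + Y * c) * E := by
        have : 2 * ((e1 * X - e2 * Y) * m1 + (e2 * X + e1 * Y) * m2) =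
          2 * (X * (e1 * m1 + e2 * m2) + Y * (e1 * m2 - e2 * m1)) := by ring
        rw [this, haE, hcE]; ring
      rw [l1, l2]
      exact mul_lt_mul_iff_left₀ hEpos
    · set a := (e1 * m1 + e2 * m2) / E with ha
      set c := (e1 * m2 - e2 * m1) / E with hc
      have haE : e1 * m1 + e2 * m2 = a * E := by rw [ha]; field_simp
      have hcE : e1 * m2 - e2 * m1 = c * E := by rw [hc]; field_simp
      unfold PL
      have l1 : (e1 * X - e2 * Y - e1) ^ 2 + (e2 * X + e1 * Y - e2) ^ 2 =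
          ((1 - X) ^ 2 + Y ^ 2) * E := by
        rw [hE]; ring
      have l2 : 2 * ((e1 * X - e2 * Y - e1) * m1 + (e2 * X + e1 * Y - e2) * m2) =
          2 * ((1 - X) * -a + Y * c) * E := by
        have : 2 * ((e1 * X - e2 * Y - e1) * m1 + (e2 * X + e1 * Y - e2) * m2) =
          2 * ((X - 1) * (e1 * m1 + e2 * m2) + Y * (e1 * m2 - e2 * m1)) := by ring
        rw [this, haE, hcE]; ring
      rw [l1, l2]
      exact mul_lt_mul_iff_left₀ hEpos

end Pool.Agent.Lib.P962033
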