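import Mathlib

/-!
Combinatorial part of the local argument: ten consecutive black points cannot all be served.
-/

namespace Pool.Agent.Lib.P962033

/-- Abstract properties of the white points of gaps in a window. -/
structure GapFacts (lo hi : ℕ) (nL fL nR fR U : ℕ → Prop) (tl : ℕ → ℝ → Prop)
    (Sp : ℕ → ℕ → Prop) : Prop where
  nofar : ∀ j, lo ≤ j → j < hi → U j → ¬ fL j ∧ ¬ fR j
  notnear : ∀ j, lo ≤ j → j < hi → U j → ¬ (nL j ∧ nR j)
  notfar : ∀ j, lo ≤ j → j < hi → ¬ (fL j ∧ fR j)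
  farnear : ∀ j, lo ≤ j → j < hi → fL j → nR j → tl j 1.35
  farnear' : ∀ j, lo ≤ j → j < hi → fR j → nL j → tl j 1.35
  nearnear : ∀ j, lo ≤ j → j < hi → ¬ U j → nL j → nR j → tl j 2.6
  far : ∀ j, lo ≤ j → j < hi → fL j ∨ fR j → tl j 5.1
  near : ∀ j, lo ≤ j → j < hi → U j → nL j ∨ nR j → ¬ tl j 3
  mono : ∀ j c c', tl j c → c ≤ c' → tl j c'
  sup : ∀ j, lo ≤ j → j < hi → ¬ U j → tl j 5.1 →
    ∃ k, (k = j + 1 ∨ j = k + 1) ∧ U k ∧ Sp j k ∧ ∀ c, c ≤ 5.1 → tl j c → tl k (1.01 * c)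
  both : ∀ j, lo ≤ j → j < hi → U (j + 1) → Sp j (j + 1) → Sp (j + 2) (j + 1) →
    ¬ (tl j 1.36 ∧ tl (j + 2) 5.2) ∧ ¬ (tl j 5.2 ∧ tl (j + 2) 1.36)

variable {lo hi : ℕ} {nL fL nR fR U : ℕ → Prop} {tl : ℕ → ℝ → Prop} {Sp : ℕ → ℕ → Prop}

/-- both tests at the black point `i + 1` are served by the neighbouring gaps -/
def Served (nL fL nR fR : ℕ → Prop) (i : ℕ) : Prop :=
  (nL (i + 1) ∨ fR i) ∧ (fL (i + 1) ∨ nR i)

namespace GapFacts

theorem not_near (F : GapFacts lo hi nL fL nR fR U tl Sp) {j : ℕ} (h1 : lo ≤ j) (h2 : j < hi)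
    (hU : U j) {c : ℝ} (hc : c ≤ 3) (ht : tl j c) : ¬ nL j ∧ ¬ nR j := by
  constructor
  · intro h
    exact F.near j h1 h2 hU (Or.inl h) (F.mono j c 3 ht hc)
  · intro h
    exact F.near j h1 h2 hU (Or.inr h) (F.mono j c 3 ht hc)

/-- the supporter of a gap in the left far test is the left neighbour -/
theorem c1 (F : GapFacts lo hi nL fL nR fR U tl Sp) {j : ℕ} (h1 : lo ≤ j) (h2 : j + 1 < hi)
    (hs : Served nL fL nR fR j) (hf : fL j) :
    ∃ k, j = k + 1 ∧ U k ∧ Sp j k ∧ ∀ c, c ≤ 5.1 → tl j c → tl k (1.01 * c) := by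
  have hU : ¬ U j := fun h => (F.nofar j h1 (by omega) h).1 hf
  obtain ⟨k, hk, hUk, hSp, htl⟩ := F.sup j h1 (by omega) hU (F.far j h1 (by omega) (Or.inl hf))
  rcases hk with hk | hk
  · exfalso
    subst hk
    obtain ⟨s1, s2⟩ := hs
    have nf := F.nofar (j + 1) (by omega) h2 hUk
    have hn : nR j := by tauto
    have ht := htl 1.35 (by norm_num) (F.farnear j h1 (by omega) hf hn)
    have nn := F.not_near (by omega) h2 hUk (by norm_num) ht
    have hfR : fR j := by tauto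
    exact F.notfar j h1 (by omega) ⟨hf, hfR⟩
  · exact ⟨k, hk, hUk, hSp, htl⟩

/-- the supporter of a gap in the right far test is the right neighbour -/
theorem c1' (F : GapFacts lo hi nL fL nR fR U tl Sp) {j : ℕ} (h1 : lo ≤ j) (h2 : j + 1 < hi)
    (hs : Served nL fL nR fR j) (hf : fR (j + 1)) :
    U (j + 2) ∧ Sp (j + 1) (j + 2) ∧ ∀ c, c ≤ 5.1 → tl (j + 1) c → tl (j + 2) (1.01 * c) := by
  have hU : ¬ U (j + 1) := fun h => (F.nofar (j + 1) (by omega) h2 h).2 hf
  obtain ⟨k, hk, hUk, hSp, htl⟩ := F.sup (j + 1) (by omega) h2 hU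
    (F.far (j + 1) (by omega) h2 (Or.inr hf))
  rcases hk with hk | hk
  · subst hk
    exact ⟨hUk, hSp, htl⟩
  · exfalso
    have hk' : k = j := by omega
    subst hk'
    obtain ⟨s1, s2⟩ := hs
    have nf := F.nofar k h1 (by omega) hUk
    have hn : nL (k + 1) := by tauto
    have ht := htl 1.35 (by norm_num) (F.farnear' (k + 1) (by omega) h2 hf hn)
    have nn := F.not_near h1 (by omega) hUk (by norm_num) ht
    have hfL : fL (k + 1) := by tauto
    exact F.notfar (k + 1) (by omega) h2 ⟨hfL, hf⟩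

theorem c2 (F : GapFacts lo hi nL fL nR fR U tl Sp) {j : ℕ} (h1 : lo ≤ j) (h2 : j + 2 < hi)
    (hs : Served nL fL nR fR j) (hs' : Served nL fL nR fR (j + 1))
    (hU : ¬ U (j + 1)) (hnL : nL (j + 1)) (hnR : nR (j + 1)) (hfL : ¬ fL (j + 1))
    (hfR : ¬ fR (j + 1)) : False := by
  have ht := F.nearnear (j + 1) (by omega) (by omega) hU hnL hnR
  obtain ⟨k, hk, hUk, hSp, htl⟩ := F.sup (j + 1) (by omega) (by omega) hU
    (F.mono _ _ _ ht (by norm_num))
  have ht' := htl 2.6 (by norm_num) ht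
  obtain ⟨s1, s2⟩ := hs
  obtain ⟨s3, s4⟩ := hs'
  rcases hk with hk | hk
  · subst hk
    have nn := F.not_near (by omega) h2 hUk (by norm_num) ht'
    tauto
  · have hk' : k = j := by omega
    subst hk'
    have nn := F.not_near h1 (by omega) hUk (by norm_num) ht'
    tauto

theorem c3 (F : GapFacts lo hi nL fL nR fR U tl Sp) {j : ℕ} (h1 : lo ≤ j) (h2 : j + 4 < hi)
    (hs0 : Served nL fL nR fR j) (hs1 : Served nL fL nR fR (j + 1))
    (hs2 : Served nL fL nR fR (j + 2)) (hs3 : Served nL fL nR fR (j + 3))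
    (hf : fL j) : False := by
  have hUj : ¬ U j := fun h => (F.nofar j h1 (by omega) h).1 hf
  have hnf1 : ¬ fL (j + 1) := by
    intro h
    obtain ⟨k, hk, hUk, _, _⟩ := F.c1 (j := j + 1) (by omega) (by omega) hs1 h
    have : k = j := by omega
    subst this
    exact hUj hUk
  have hnR : nR j := by
    obtain ⟨_, s2⟩ := hs0
    tauto
  have hfR : ¬ fR j := fun h => F.notfar j h1 (by omega) ⟨hf, h⟩
  have hnL1 : nL (j + 1) := by
    obtain ⟨s1, _⟩ := hs0
    tauto
  by_cases hU1 : U (j + 1)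
  · have hnR1 : ¬ nR (j + 1) := fun h => F.notnear (j + 1) (by omega) (by omega) hU1 ⟨hnL1, h⟩
    have hfL2 : fL (j + 2) := by
      obtain ⟨_, s2⟩ := hs1
      tauto
    obtain ⟨k, hk, hUk, _, htl⟩ := F.c1 (j := j + 2) (by omega) (by omega) hs2 hfL2
    have hk' : k = j + 1 := by omega
    subst hk'
    have hU2 : ¬ U (j + 2) := fun h => (F.nofar (j + 2) (by omega) (by omega) h).1 hfL2
    have hnf3 : ¬ fL (j + 3) := by
      intro h
      obtain ⟨k, hk, hUk, _, _⟩ := F.c1 (j := j + 3) (by omega) (by omega) hs3 h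
      have : k = j + 2 := by omega
      subst this
      exact hU2 hUk
    have hnR2 : nR (j + 2) := by
      obtain ⟨_, s2⟩ := hs2
      tauto
    have ht := F.farnear (j + 2) (by omega) (by omega) hfL2 hnR2
    have ht' := htl 1.35 (by norm_num) ht
    exact (F.not_near (by omega) (by omega) hU1 (by norm_num) ht').1 hnL1
  · by_cases hnR1 : nR (j + 1)
    · have hfR1 : fR (j + 1) := by
        by_contra h
        exact F.c2 h1 (by omega) hs0 hs1 hU1 hnL1 hnR1 hnf1 h
      have ht1 := F.farnear' (j + 1) (by omega) (by omega) hfR1 hnL1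
      obtain ⟨hU2, hSp, htl⟩ := F.c1' h1 (by omega) hs0 hfR1
      have ht2 := htl 1.35 (by norm_num) ht1
      have nn := F.not_near (by omega) (by omega) hU2 (by norm_num) ht2
      have hfL3 : fL (j + 3) := by
        obtain ⟨_, s2⟩ := hs2
        have := nn.2
        tauto
      obtain ⟨k, hk, hUk, hSp3, _⟩ := F.c1 (j := j + 3) (by omega) (by omega) hs3 hfL3
      have hk' : k = j + 2 := by omega
      subst hk'
      have ht3 := F.far (j + 3) (by omega) (by omega) (Or.inl hfL3)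
      exact (F.both (j + 1) (by omega) (by omega) hUk hSp hSp3).1
        ⟨F.mono _ _ _ ht1 (by norm_num), F.mono _ _ _ ht3 (by norm_num)⟩
    · have hfL2 : fL (j + 2) := by
        obtain ⟨_, s2⟩ := hs1
        tauto
      obtain ⟨k, hk, hUk, _, htl⟩ := F.c1 (j := j + 2) (by omega) (by omega) hs2 hfL2
      have hk' : k = j + 1 := by omega
      subst hk'
      exact hU1 hUk

theorem c3' (F : GapFacts lo hi nL fL nR fR U tl Sp) {i : ℕ} (h1 : lo ≤ i) (h2 : i + 5 < hi)
    (hs0 : Served nL fL nR fR i) (hs1 : Served nL fL nR fR (i + 1))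
    (hs2 : Served nL fL nR fR (i + 2)) (hs3 : Served nL fL nR fR (i + 3))
    (hf : fR (i + 4)) : False := by
  -- black points i+1, ..., i+4; gap i+4 is to the right of black i+4
  have hUj : ¬ U (i + 4) := fun h => (F.nofar (i + 4) (by omega) (by omega) h).2 hf
  have hnf1 : ¬ fR (i + 3) := by
    intro h
    obtain ⟨hUk, _, _⟩ := F.c1' (j := i + 2) (by omega) (by omega) hs2 h
    exact hUj hUk
  have hnL : nL (i + 4) := by
    obtain ⟨s1, _⟩ := hs3
    tauto
  have hfL : ¬ fL (i + 4) := fun h => F.notfar (i + 4) (by omega) (by omega) ⟨h, hf⟩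
  have hnR1 : nR (i + 3) := by
    obtain ⟨_, s2⟩ := hs3
    tauto
  by_cases hU1 : U (i + 3)
  · have hnL1 : ¬ nL (i + 3) := fun h => F.notnear (i + 3) (by omega) (by omega) hU1 ⟨h, hnR1⟩
    have hfR2 : fR (i + 2) := by
      obtain ⟨s1, _⟩ := hs2
      tauto
    obtain ⟨hUk, _, htl⟩ := F.c1' (j := i + 1) (by omega) (by omega) hs1 hfR2
    have hU2 : ¬ U (i + 2) := fun h => (F.nofar (i + 2) (by omega) (by omega) h).2 hfR2
    have hnf3 : ¬ fR (i + 1) := by
      intro h
      obtain ⟨hUk, _, _⟩ := F.c1' (j := i) (by omega) (by omega) hs0 h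
      exact hU2 hUk
    have hnL2 : nL (i + 2) := by
      obtain ⟨s1, _⟩ := hs1
      tauto
    have ht := F.farnear' (i + 2) (by omega) (by omega) hfR2 hnL2
    have ht' := htl 1.35 (by norm_num) ht
    exact (F.not_near (by omega) (by omega) hU1 (by norm_num) ht').2 hnR1
  · by_cases hnL1 : nL (i + 3)
    · have hfL1 : fL (i + 3) := by
        by_contra h
        exact F.c2 (j := i + 2) (by omega) (by omega) hs2 hs3 hU1 hnL1 hnR1 h hnf1
      have ht1 := F.farnear (i + 3) (by omega) (by omega) hfL1 hnR1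
      obtain ⟨k, hk, hU2, hSp, htl⟩ := F.c1 (j := i + 3) (by omega) (by omega) hs3 hfL1
      have hk' : k = i + 2 := by omega
      subst hk'
      have ht2 := htl 1.35 (by norm_num) ht1
      have nn := F.not_near (by omega) (by omega) hU2 (by norm_num) ht2
      have hfR3 : fR (i + 1) := by
        obtain ⟨s1, _⟩ := hs1
        have := nn.1
        tauto
      obtain ⟨hUk, hSp3, _⟩ := F.c1' (j := i) (by omega) (by omega) hs0 hfR3
      have ht3 := F.far (i + 1) (by omega) (by omega) (Or.inr hfR3)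
      exact (F.both (i + 1) (by omega) (by omega) hUk hSp3 hSp).2
        ⟨F.mono _ _ _ ht3 (by norm_num), F.mono _ _ _ ht1 (by norm_num)⟩
    · have hfR2 : fR (i + 2) := by
        obtain ⟨s1, _⟩ := hs2
        tauto
      obtain ⟨hUk, _, _⟩ := F.c1' (j := i + 1) (by omega) (by omega) hs1 hfR2
      exact hU1 hUk

/-- Ten consecutive black points `i+1, ..., i+10` cannot all be served. -/
theorem c4 (F : GapFacts lo hi nL fL nR fR U tl Sp) {i : ℕ} (h1 : lo ≤ i) (h2 : i + 12 < hi)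
    (hs : ∀ j, j < 10 → Served nL fL nR fR (i + j)) : False := by
  -- middle gap: i + 5, between black i+5 and black i+6
  have hs0 := hs 0 (by omega)
  have hs1 := hs 1 (by omega)
  have hs2 := hs 2 (by omega)
  have hs3 := hs 3 (by omega)
  have hs4 := hs 4 (by omega)
  have hs5 := hs 5 (by omega)
  have hs6 := hs 6 (by omega)
  have hs7 := hs 7 (by omega)
  have hs8 := hs 8 (by omega)
  have hs9 := hs 9 (by omega)
  have a1 : ¬ fR (i + 4) := fun h => F.c3' (i := i) (by omega) (by omega) hs0 hs1 hs2 hs3 h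
  have a2 : ¬ fR (i + 5) := fun h => F.c3' (i := i + 1) (by omega) (by omega) hs1 hs2 hs3 hs4 h
  have a3 : ¬ fL (i + 5) := fun h => F.c3 (j := i + 5) (by omega) (by omega) hs5 hs6 hs7 hs8 h
  have a4 : ¬ fL (i + 6) := fun h => F.c3 (j := i + 6) (by omega) (by omega) hs6 hs7 hs8 hs9 h
  have b1 : nL (i + 5) := by
    obtain ⟨s1, _⟩ := hs4
    tauto
  have b2 : nR (i + 5) := by
    obtain ⟨_, s2⟩ := hs5
    tauto
  by_cases hU : U (i + 5)
  · exact F.notnear (i + 5) (by omega) (by omega) hU ⟨b1, b2⟩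
  · exact F.c2 (j := i + 4) (by omega) (by omega) hs4 hs5 hU b1 b2 a3 a2

end GapFacts

end Pool.Agent.Lib.P962033
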