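import Pool.Agent.Lib.P962033.Chain

/-!
Necklaces of tangent disks along a nearly straight, nearly equally spaced sequence.
-/

namespace Pool.Agent.Lib.P962033

/-- `v i` is the vector from the centre of the `i`-th disk to `p (i+1)`. -/
structure Necklace (M : ℕ) (px py vx vy : ℕ → ℝ) : Prop where
  near_v : ∀ i < M, NearHalf (vx i) (vy i)
  near_u : ∀ i < M, NearHalf (px (i + 1) - px i - vx i) (py (i + 1) - py i - vy i)
  eq_norm : ∀ i < M, vx i ^ 2 + vy i ^ 2 =
    (px (i + 1) - px i - vx i) ^ 2 + (py (i + 1) - py i - vy i) ^ 2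
  tangent : ∀ i, i + 1 < M → ∃ mu : ℝ, |mu - 1| ≤ 0.0000001 ∧
    px (i + 1 + 1) - px (i + 1) - vx (i + 1) = mu * vx i ∧
    py (i + 1 + 1) - py (i + 1) - vy (i + 1) = mu * vy i
  near_p : ∀ i ≤ M, |px i - i| ≤ 0.0000000001 ∧ |py i| ≤ 0.0000000001

/-- one step of the recursion -/
noncomputable def neckStep (v e : ℝ × ℝ) : ℝ × ℝ :=
  (e.1 - (e.1 ^ 2 + e.2 ^ 2) / (2 * (v.1 * e.1 + v.2 * e.2)) * v.1,
    e.2 - (e.1 ^ 2 + e.2 ^ 2) / (2 * (v.1 * e.1 + v.2 * e.2)) * v.2)

noncomputable def neckV (px py : ℕ → ℝ) : ℕ → ℝ × ℝ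
  | 0 => ((px 1 - px 0) / 2, (py 1 - py 0) / 2)
  | (i + 1) => neckStep (neckV px py i)
      (px (i + 1 + 1) - px (i + 1), py (i + 1 + 1) - py (i + 1))

theorem neckStep_cont :
    ContinuousAt (fun x : (ℝ × ℝ) × (ℝ × ℝ) => neckStep x.1 x.2) (((1/2 : ℝ), (0 : ℝ)), ((1 : ℝ), (0 : ℝ))) := by
  unfold neckStep
  apply ContinuousAt.prodMk
  · apply ContinuousAt.sub (by fun_prop)
    apply ContinuousAt.mul _ (by fun_prop)
    refine ContinuousAt.div ?_ ?_ ?_
    · fun_prop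
    · fun_prop
    · norm_num
  · apply ContinuousAt.sub (by fun_prop)
    apply ContinuousAt.mul _ (by fun_prop)
    refine ContinuousAt.div ?_ ?_ ?_
    · fun_prop
    · fun_prop
    · norm_num

theorem neckStep_near (eps : ℝ) (heps : 0 < eps) : ∃ d > 0, ∀ v1 v2 e1 e2 : ℝ,
    |v1 - 1/2| ≤ d → |v2| ≤ d → |e1 - 1| ≤ d → |e2| ≤ d →
    |(neckStep (v1, v2) (e1, e2)).1 - 1/2| ≤ eps ∧ |(neckStep (v1, v2) (e1, e2)).2| ≤ eps := by
  have h := Metric.continuousAt_iff.mp neckStep_cont eps heps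
  obtain ⟨d, hd, h⟩ := h
  refine ⟨d / 2, by linarith, ?_⟩
  intro v1 v2 e1 e2 h1 h2 h3 h4
  have hdist : dist (((v1, v2), (e1, e2)) : (ℝ × ℝ) × (ℝ × ℝ))
      (((1/2 : ℝ), (0 : ℝ)), ((1 : ℝ), (0 : ℝ))) < d := by
    rw [Prod.dist_eq, Prod.dist_eq, Prod.dist_eq]
    simp only [Real.dist_eq, sub_zero]
    refine max_lt (max_lt ?_ ?_) (max_lt ?_ ?_) <;> linarith
  have hh := h hdist
  have e0 : neckStep ((1/2 : ℝ), (0 : ℝ)) ((1 : ℝ), (0 : ℝ)) = (1/2, 0) := by
    unfold neckStep; norm_num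
  simp only at hh
  rw [e0, Prod.dist_eq, Real.dist_eq, Real.dist_eq, sub_zero] at hh
  exact ⟨(le_max_left _ _).trans hh.le, (le_max_right _ _).trans hh.le⟩

theorem neckV_near (i : ℕ) : ∀ eps > 0, ∃ d > 0, ∀ px py : ℕ → ℝ,
    (∀ k ≤ i + 1, |px k - k| ≤ d ∧ |py k| ≤ d) →
    |(neckV px py i).1 - 1/2| ≤ eps ∧ |(neckV px py i).2| ≤ eps := by
  induction i with
  | zero =>
    intro eps heps
    refine ⟨eps, heps, ?_⟩
    intro px py h
    obtain ⟨h0, h0'⟩ := h 0 (by omega)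
    obtain ⟨h1, h1'⟩ := h 1 (by omega)
    simp only [Nat.cast_zero, Nat.cast_one, sub_zero] at h0 h1
    rw [abs_le] at h0 h0' h1 h1'
    simp only [neckV]
    constructor
    · rw [abs_le]; constructor <;> linarith
    · rw [abs_le]; constructor <;> linarith
  | succ i ih =>
    intro eps heps
    obtain ⟨d1, hd1, h1⟩ := neckStep_near eps heps
    obtain ⟨d2, hd2, h2⟩ := ih d1 hd1
    refine ⟨min d2 (d1 / 2), lt_min hd2 (by linarith), ?_⟩
    intro px py h
    have h3 := h2 px py (fun k hk => by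
      obtain ⟨a, b⟩ := h k (by omega)
      exact ⟨a.trans (min_le_left _ _), b.trans (min_le_left _ _)⟩)
    simp only [neckV]
    obtain ⟨a, b⟩ := h (i + 1) (by omega)
    obtain ⟨a', b'⟩ := h (i + 1 + 1) (by omega)
    have hm : min d2 (d1 / 2) ≤ d1 / 2 := min_le_right _ _
    push_cast at a a'
    rw [abs_le] at a b a' b'
    apply h1 _ _ _ _ h3.1 h3.2
    · rw [abs_le]; constructor <;> linarith
    · rw [abs_le]; constructor <;> linarith

theorem neckV_near_all (M : ℕ) : ∀ eps > 0, ∃ d > 0, ∀ px py : ℕ → ℝ,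
    (∀ k ≤ M, |px k - k| ≤ d ∧ |py k| ≤ d) →
    ∀ i < M, |(neckV px py i).1 - 1/2| ≤ eps ∧ |(neckV px py i).2| ≤ eps := by
  induction M with
  | zero =>
    intro eps heps
    exact ⟨1, one_pos, fun px py _ i hi => absurd hi (by omega)⟩
  | succ M ih =>
    intro eps heps
    obtain ⟨d1, hd1, h1⟩ := ih eps heps
    obtain ⟨d2, hd2, h2⟩ := neckV_near M eps heps
    refine ⟨min d1 d2, lt_min hd1 hd2, ?_⟩
    intro px py h i hi
    rcases Nat.lt_succ_iff_lt_or_eq.mp hi with h3 | h3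
    · apply h1 px py _ i h3
      intro k hk
      obtain ⟨a, b⟩ := h k (by omega)
      exact ⟨a.trans (min_le_left _ _), b.trans (min_le_left _ _)⟩
    · subst h3
      apply h2 px py
      intro k hk
      obtain ⟨a, b⟩ := h k (by omega)
      exact ⟨a.trans (min_le_right _ _), b.trans (min_le_right _ _)⟩

theorem exists_necklace (M : ℕ) : ∃ d > 0, ∀ px py : ℕ → ℝ,
    (∀ k ≤ M, |px k - k| ≤ d ∧ |py k| ≤ d) →
    ∃ vx vy : ℕ → ℝ, Necklace M px py vx vy := by
  obtain ⟨d, hd, h⟩ := neckV_near_all M 0.00000000001 (by norm_num)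
  refine ⟨min d 0.00000000001, lt_min hd (by norm_num), ?_⟩
  intro px py hp
  have hV := h px py (fun k hk => by
      obtain ⟨a, b⟩ := hp k hk
      exact ⟨a.trans (min_le_left _ _), b.trans (min_le_left _ _)⟩)
  have hp' : ∀ k ≤ M, |px k - k| ≤ 0.00000000001 ∧ |py k| ≤ 0.00000000001 := by
    intro k hk
    obtain ⟨a, b⟩ := hp k hk
    exact ⟨a.trans (min_le_right _ _), b.trans (min_le_right _ _)⟩
  set vx : ℕ → ℝ := fun i => (neckV px py i).1 with hvx
  set vy : ℕ → ℝ := fun i => (neckV px py i).2 with hvy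
  have hv : ∀ i < M, |vx i - 1/2| ≤ 0.00000000001 ∧ |vy i| ≤ 0.00000000001 := hV
  have hu : ∀ i < M, |px (i + 1) - px i - vx i - 1/2| ≤ 0.00000000004 ∧
      |py (i + 1) - py i - vy i| ≤ 0.00000000004 := by
    intro i hi
    obtain ⟨a, b⟩ := hv i hi
    obtain ⟨a1, b1⟩ := hp' i (by omega)
    obtain ⟨a2, b2⟩ := hp' (i + 1) (by omega)
    push_cast at a2
    rw [abs_le] at a b a1 b1 a2 b2
    constructor
    · rw [abs_le]; constructor <;> linarith
    · rw [abs_le]; constructor <;> linarith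
  -- the recursion
  have hrec : ∀ i, i + 1 < M →
      vx (i + 1) = px (i + 1 + 1) - px (i + 1) -
        ((px (i + 1 + 1) - px (i + 1)) ^ 2 + (py (i + 1 + 1) - py (i + 1)) ^ 2) /
        (2 * (vx i * (px (i + 1 + 1) - px (i + 1)) + vy i * (py (i + 1 + 1) - py (i + 1)))) *
        vx i ∧
      vy (i + 1) = py (i + 1 + 1) - py (i + 1) -
        ((px (i + 1 + 1) - px (i + 1)) ^ 2 + (py (i + 1 + 1) - py (i + 1)) ^ 2) /
        (2 * (vx i * (px (i + 1 + 1) - px (i + 1)) + vy i * (py (i + 1 + 1) - py (i + 1)))) *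
        vy i := by
    intro i _
    exact ⟨rfl, rfl⟩
  refine ⟨vx, vy, ?_, ?_, ?_, ?_, ?_⟩
  · intro i hi
    obtain ⟨a, b⟩ := hv i hi
    exact ⟨by linarith, by linarith⟩
  · intro i hi
    obtain ⟨a, b⟩ := hu i hi
    exact ⟨by linarith, by linarith⟩
  · intro i hi
    rcases i with _ | i
    · have e1 : vx 0 = (px 1 - px 0) / 2 := rfl
      have e2 : vy 0 = (py 1 - py 0) / 2 := rfl
      rw [e1, e2]; ring
    · obtain ⟨r1, r2⟩ := hrec i hi
      obtain ⟨a, b⟩ := hv i (by omega)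
      obtain ⟨a1, b1⟩ := hp' (i + 1) (by omega)
      obtain ⟨a2, b2⟩ := hp' (i + 1 + 1) (by omega)
      push_cast at a1 a2
      rw [abs_le] at a b a1 b1 a2 b2
      set e1 := px (i + 1 + 1) - px (i + 1) with he1
      set e2 := py (i + 1 + 1) - py (i + 1) with he2
      have hx : 0 < vx i * e1 + vy i * e2 := by
        have h1 : 0.4 * 0.9 ≤ vx i * e1 := by
          apply mul_le_mul <;> linarith
        have h2 : |vy i * e2| ≤ 0.1 * 0.1 := by
          apply abs_mul_le'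
          · rw [abs_le]; constructor <;> linarith
          · rw [abs_le]; constructor <;> linarith
        have := (abs_le.mp h2).1
        linarith
      rw [r1, r2]
      set D := vx i * e1 + vy i * e2 with hD
      set mu := (e1 ^ 2 + e2 ^ 2) / (2 * D) with hmu
      have hmuD : mu * (2 * D) = e1 ^ 2 + e2 ^ 2 := by rw [hmu]; field_simp
      rw [hD] at hmuD
      linear_combination -hmuD
  · intro i hi
    obtain ⟨r1, r2⟩ := hrec i hi
    refine ⟨((px (i + 1 + 1) - px (i + 1)) ^ 2 + (py (i + 1 + 1) - py (i + 1)) ^ 2) /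
        (2 * (vx i * (px (i + 1 + 1) - px (i + 1)) + vy i * (py (i + 1 + 1) - py (i + 1)))),
        ?_, ?_, ?_⟩
    · set mu := ((px (i + 1 + 1) - px (i + 1)) ^ 2 + (py (i + 1 + 1) - py (i + 1)) ^ 2) /
        (2 * (vx i * (px (i + 1 + 1) - px (i + 1)) + vy i * (py (i + 1 + 1) - py (i + 1))))
        with hmu
      obtain ⟨a, b⟩ := hv i (by omega)
      obtain ⟨a1, b1⟩ := hu (i + 1) hi
      have e : px (i + 1 + 1) - px (i + 1) - vx (i + 1) = mu * vx i := by
        rw [r1]; ring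
      rw [e] at a1
      have h1 : (mu - 1) * vx i = (mu * vx i - 1/2) - (vx i - 1/2) := by ring
      have h2 : |(mu - 1) * vx i| ≤ 0.00000000005 := by
        rw [h1]; refine (abs_sub _ _).trans ?_; linarith
      have h3 : 0.4 ≤ |vx i| := by
        have := (abs_le.mp a).1
        have := le_abs_self (vx i)
        linarith
      rw [abs_mul] at h2
      have h4 : |mu - 1| * 0.4 ≤ |mu - 1| * |vx i| :=
        mul_le_mul_of_nonneg_left h3 (abs_nonneg _)
      linarith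
    · rw [r1]; ring
    · rw [r2]; ring
  · intro i hi
    obtain ⟨a, b⟩ := hp' i hi
    exact ⟨by linarith, by linarith⟩

end Pool.Agent.Lib.P962033
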