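import Pool.Agent.Lib.P962033.Geo

/-!
The strip configuration: top points with gap about 1, bottom points with gap about 400 at
depth about 3200; existence of white points in the test disks.
-/

namespace Pool.Agent.Lib.P962033

structure Strip (N : ℕ) where
  px : ℕ → ℝ
  py : ℕ → ℝ
  qx : ℕ → ℝ
  qy : ℕ → ℝ
  vx : ℕ → ℝ
  vy : ℕ → ℝ
  sx : ℕ → ℝ
  sy : ℕ → ℝ
  top : Necklace (400 * N) px py vx vy
  bot : Necklace N (fun j => qx j / 400) (fun j => -(qy j + 3200) / 400) sx sy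

namespace Strip

variable {N : ℕ} (S : Strip N)

def P : Set (ℝ × ℝ) :=
  {z | (∃ k ≤ 400 * N, z = (S.px k, S.py k)) ∨ ∃ l ≤ N, z = (S.qx l, S.qy l)}

def Blk (W : Finset (ℝ × ℝ)) : Prop :=
  ∀ A ∈ S.P, ∀ B ∈ S.P, A ≠ B → ∀ m1 m2 : ℝ,
    (B.1 - A.1) ^ 2 + (B.2 - A.2) ^ 2 = 2 * ((B.1 - A.1) * m1 + (B.2 - A.2) * m2) →
    ∃ z, (z ∈ S.P ∨ z ∈ W) ∧ HitP A.1 A.2 m1 m2 z.1 z.2

/-- frame coordinates of the bottom chain -/
noncomputable def fx (x : ℝ) : ℝ := x / 400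
noncomputable def fy (y : ℝ) : ℝ := -(y + 3200) / 400

theorem memP_top {k : ℕ} (hk : k ≤ 400 * N) : ((S.px k, S.py k) : ℝ × ℝ) ∈ S.P :=
  Or.inl ⟨k, hk, rfl⟩

theorem memP_bot {l : ℕ} (hl : l ≤ N) : ((S.qx l, S.qy l) : ℝ × ℝ) ∈ S.P :=
  Or.inr ⟨l, hl, rfl⟩

theorem qy_near {l : ℕ} (hl : l ≤ N) : |S.qy l + 3200| ≤ 0.00000004 := by
  have h := (S.bot.near_p l hl).2
  rw [abs_div, abs_neg, abs_of_pos (by norm_num : (0 : ℝ) < 400), div_le_iff₀ (by norm_num)] at h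
  linarith

theorem qx_near {l : ℕ} (hl : l ≤ N) : |S.qx l - 400 * l| ≤ 0.00000004 := by
  have h := (S.bot.near_p l hl).1
  rw [abs_le] at h ⊢
  constructor <;> linarith

def tm1 (i : ℕ) (l : ℝ) : ℝ := (S.px (i + 1) - S.px i - S.vx i) + l * (S.py (i + 1) - S.py i)
def tm2 (i : ℕ) (l : ℝ) : ℝ := (S.py (i + 1) - S.py i - S.vy i) - l * (S.px (i + 1) - S.px i)
noncomputable def bm1 (j : ℕ) (l : ℝ) : ℝ :=
  (fx (S.qx (j + 1)) - fx (S.qx j) - S.sx j) + l * (fy (S.qy (j + 1)) - fy (S.qy j))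
noncomputable def bm2 (j : ℕ) (l : ℝ) : ℝ :=
  (fy (S.qy (j + 1)) - fy (S.qy j) - S.sy j) - l * (fx (S.qx (j + 1)) - fx (S.qx j))

theorem _root_.Pool.Agent.Lib.P962033.Necklace.m_est {M : ℕ} {px py vx vy : ℕ → ℝ}
    (S : Necklace M px py vx vy) {i : ℕ} (hi : i < M)
    {l : ℝ} (hl : |l| ≤ 8500) :
    |(px (i + 1) - px i - vx i) + l * (py (i + 1) - py i)| ≤ 0.51 ∧
    |(py (i + 1) - py i - vy i) - l * (px (i + 1) - px i) + l| ≤ 0.00001 := by
  obtain ⟨u1, u2⟩ := S.near_u i hi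
  obtain ⟨e1, e2⟩ := S.diff (i := i) (k := i + 1) hi.le hi
  push_cast at e1
  have e1' : |px (i + 1) - px i - 1| ≤ 0.0000000002 := by
    rw [show px (i + 1) - px i - 1 = px (i + 1) - px i - ((i : ℝ) + 1 - i) by ring]
    exact e1
  obtain ⟨a1, a2⟩ := abs_le.mp u1
  obtain ⟨b1, b2⟩ := abs_le.mp u2
  obtain ⟨c1, c2⟩ := abs_le.mp (abs_mul_le' hl e2)
  obtain ⟨d1, d2⟩ := abs_le.mp (abs_mul_le' hl e1')
  constructor
  · rw [abs_le]; constructor <;> linarith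
  · rw [show (py (i + 1) - py i - vy i) - l * (px (i + 1) - px i) + l =
      (py (i + 1) - py i - vy i) - l * (px (i + 1) - px i - 1) by ring, abs_le]
    constructor <;> linarith

theorem topW {W : Finset (ℝ × ℝ)} (hb : S.Blk W) {i : ℕ} (hi : i < 400 * N) {l : ℝ}
    (h1 : -8500 ≤ l) (h2 : l ≤ 1491.5) :
    ∃ z ∈ W, HitP (S.px i) (S.py i) (S.tm1 i l) (S.tm2 i l) z.1 z.2 := by
  have hl : |l| ≤ 8500 := by rw [abs_le]; constructor <;> linarith
  obtain ⟨k1, k2⟩ := S.top.m_est hi hl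
  have hn := S.top.eq_norm i hi
  obtain ⟨p1, p2⟩ := S.top.near_p i hi.le
  obtain ⟨p3, p4⟩ := S.top.near_p (i + 1) hi
  have hne : ((S.px i, S.py i) : ℝ × ℝ) ≠ (S.px (i + 1), S.py (i + 1)) := by
    intro h
    have h3 : S.px i = S.px (i + 1) := congrArg Prod.fst h
    rw [h3] at p1
    push_cast at p3
    rw [abs_le] at p1 p3
    linarith
  obtain ⟨z, hz, hh⟩ := hb _ (S.memP_top hi.le) _ (S.memP_top (k := i + 1) hi) hne
    (S.tm1 i l) (S.tm2 i l) (by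
      unfold tm1 tm2
      simp only
      linear_combination hn)
  rcases hz with hz | hz
  · exfalso
    rcases hz with ⟨k, hk, rfl⟩ | ⟨k, hk, rfl⟩
    · exact S.top.empty_own hi hk hl hh
    · have hq := S.qy_near hk
      obtain ⟨q1, q2⟩ := abs_le.mp hq
      obtain ⟨p21, p22⟩ := abs_le.mp p2
      obtain ⟨k21, k22⟩ := abs_le.mp k2
      refine no_hit_far (G := 3199) (Lam := 1491.6) ?_ ?_ ?_ (by norm_num) (by norm_num) hh
      · exact k1.trans (by norm_num)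
      · unfold tm2; linarith
      · change S.qy k - S.py i ≤ _
        linarith
  · exact ⟨z, hz, hh⟩

theorem botW {W : Finset (ℝ × ℝ)} (hb : S.Blk W) {j : ℕ} (hj : j < N) {l : ℝ}
    (h1 : -21 ≤ l) (h2 : l ≤ 3.905) :
    ∃ z ∈ W, HitP (fx (S.qx j)) (fy (S.qy j)) (S.bm1 j l) (S.bm2 j l) (fx z.1) (fy z.2) := by
  have hl : |l| ≤ 8500 := by rw [abs_le]; constructor <;> linarith
  obtain ⟨k1, k2⟩ := S.bot.m_est hj hl
  have hn := S.bot.eq_norm j hj
  obtain ⟨p1, p2⟩ := S.bot.near_p j hj.le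
  obtain ⟨p3, p4⟩ := S.bot.near_p (j + 1) hj
  have hne : ((S.qx j, S.qy j) : ℝ × ℝ) ≠ (S.qx (j + 1), S.qy (j + 1)) := by
    intro h
    have h3 : S.qx j = S.qx (j + 1) := congrArg Prod.fst h
    rw [h3] at p1
    push_cast at p3
    rw [abs_le] at p1 p3
    linarith
  obtain ⟨z, hz, hh⟩ := hb _ (S.memP_bot hj.le) _ (S.memP_bot (l := j + 1) hj) hne
    (400 * S.bm1 j l) (-(400 * S.bm2 j l)) (by
      unfold bm1 bm2 fx fy
      simp only
      linear_combination 160000 * hn)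
  have hh' : HitP (fx (S.qx j)) (fy (S.qy j)) (S.bm1 j l) (S.bm2 j l) (fx z.1) (fy z.2) := by
    have := HitP.scale.mpr hh
    have e1 : 400 * S.bm1 j l / 400 = S.bm1 j l := by field_simp
    have e2 : -(-(400 * S.bm2 j l)) / 400 = S.bm2 j l := by field_simp
    rw [e1, e2] at this
    exact this
  rcases hz with hz | hz
  · exfalso
    rcases hz with ⟨k, hk, rfl⟩ | ⟨k, hk, rfl⟩
    · have hq := (S.top.near_p k hk).2
      obtain ⟨q1, q2⟩ := abs_le.mp hq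
      obtain ⟨p21, p22⟩ := abs_le.mp p2
      obtain ⟨k21, k22⟩ := abs_le.mp k2
      refine no_hit_far (G := 7.99) (Lam := 3.906) ?_ ?_ ?_ (by norm_num) (by norm_num) hh'
      · exact k1.trans (by norm_num)
      · unfold bm2 fx fy; linarith
      · unfold fy; simp only; linarith
    · exact S.bot.empty_own hj hk hl hh'
  · exact ⟨z, hz, hh'⟩

theorem mixW {W : Finset (ℝ × ℝ)} (hb : S.Blk W) {i b : ℕ} (hi : i ≤ 400 * N) (hbN : b ≤ N)
    {m t : ℝ} (hm : m = 1/8 ∨ m = -(1/8)) (ht : t = S.px i + m - S.qx b)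
    (ht1 : 44 ≤ |t|) (ht2 : |t| ≤ 56) :
    ∃ c c' : ℝ, -1600.6 ≤ c ∧ c ≤ -1600.2 ∧ -4 ≤ c' ∧ c' ≤ -3.995 ∧
      ∃ z ∈ W, HitP (S.px i) (S.py i) m c z.1 z.2 ∧
        HitP (fx (S.qx b)) (fy (S.qy b)) (t / 400) c' (fx z.1) (fy z.2) := by
  obtain ⟨p1, p2⟩ := S.top.near_p i hi
  obtain ⟨p21, p22⟩ := abs_le.mp p2
  obtain ⟨q1, q2⟩ := abs_le.mp (S.qy_near hbN)
  set G := S.py i - S.qy b with hG
  have hG1 : 3199.9 ≤ G := by linarith
  have hG2 : G ≤ 3200.1 := by linarith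
  have hG3 : |G - 3200| ≤ 0.000001 := by
    rw [abs_le]; constructor <;> linarith
  obtain ⟨hG4, hG5⟩ := abs_le.mp hG3
  have hGpos : 0 < G := by linarith
  have hmsq : m ^ 2 = 1/64 := by rcases hm with h | h <;> rw [h] <;> norm_num
  have hmabs : |m| ≤ 0.15 := by
    rcases hm with h | h <;> rw [h] <;> norm_num
  have hmabs2 : |m| ≤ 0.125 := by
    rcases hm with h | h <;> rw [h] <;> norm_num
  have ht3 : 1936 ≤ t ^ 2 := by
    rw [← sq_abs]
    have := mul_le_mul ht1 ht1 (by norm_num) (abs_nonneg _)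
    linarith
  have ht4 : t ^ 2 ≤ 3136 := by
    rw [← sq_abs]
    have := mul_le_mul ht2 ht2 (abs_nonneg _) (by norm_num)
    linarith
  set rho := (G ^ 2 + t ^ 2 - 1/64) / (2 * G) with hrho
  have hrG : 2 * G * rho = G ^ 2 + t ^ 2 - 1/64 := by rw [hrho]; field_simp
  set x := (t ^ 2 - 1/64) / (2 * G) with hx
  have hxG : x * (2 * G) = t ^ 2 - 1/64 := by rw [hx]; field_simp
  have hx1 : 0.3 ≤ x := by
    rw [hx, le_div_iff₀ (by linarith)]; linarith
  have hx2 : x ≤ 0.5 := by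
    rw [hx, div_le_iff₀ (by linarith)]; linarith
  have hr : rho = G / 2 + x := by
    rw [hrho, hx]; field_simp; ring
  have hne : ((S.px i, S.py i) : ℝ × ℝ) ≠ (S.qx b, S.qy b) := by
    intro h
    have h3 : S.py i = S.qy b := congrArg Prod.snd h
    rw [hG, h3] at hGpos
    linarith
  obtain ⟨z, hz, hh⟩ := hb _ (S.memP_top hi) _ (S.memP_bot hbN) hne m (-rho) (by
      simp only
      have e1 : S.qx b - S.px i = m - t := by rw [ht]; ring
      have e2 : S.qy b - S.py i = -G := by rw [hG]; ring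
      rw [e1, e2]
      linear_combination -hrG - hmsq)
  simp only at hh
  have hh' : HitP (fx (S.qx b)) (fy (S.qy b)) (t / 400) (-(G - rho) / 400) (fx z.1) (fy z.2) := by
    refine HitP.scale.mpr ?_
    unfold HitP at hh ⊢
    have e1 : S.px i = S.qx b + t - m := by rw [ht]; ring
    have e2 : S.py i = S.qy b + G := by rw [hG]; ring
    rw [e1, e2] at hh
    linarith
  have hc1 : |(-(G - rho) / 400)| ≤ 1700 := by
    rw [abs_le]; constructor <;> linarith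
  have ht5 : |t / 400| ≤ 0.15 := by
    rw [abs_div, abs_of_pos (by norm_num : (0 : ℝ) < 400), div_le_iff₀ (by norm_num)]
    linarith
  refine ⟨-rho, -(G - rho) / 400, by linarith, by linarith, by linarith, by linarith, z, ?_,
    hh, hh'⟩
  rcases hz with hz | hz
  · exfalso
    rcases hz with ⟨k, hk, rfl⟩ | ⟨k, hk, rfl⟩
    · exact S.top.empty_test hi hk hmabs (by rw [abs_le]; constructor <;> linarith) hh
    · exact S.bot.empty_test hbN hk ht5 hc1 hh'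
  · exact hz

end Strip

end Pool.Agent.Lib.P962033
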