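import Pool.Agent.Lib.P962033.HeavyCount
import Pool.Agent.Lib.P962033.Localize
import Pool.Agent.Lib.P962033.Logic

/-!
In a window without heavy white points, ten consecutive black points cannot have all their
tests met by the chain.
-/

namespace Pool.Agent.Lib.P962033

/-- range of the test centres -/
def RngG (R a c : ℝ) : Prop := 0.1 ≤ a ∧ a ≤ 0.15 ∧ -R ≤ c ∧ c ≤ -(0.998 * R)

theorem RngG.loc {R a c a' c' : ℝ} (hR : 3.9 ≤ R) (h : RngG R a c) (ha : |a' - a| ≤ 0.00002)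
    (hc : |c' - c| ≤ 0.00002) : Rng R a' c' := by
  obtain ⟨h1, h2, h3, h4⟩ := h
  obtain ⟨a1, a2⟩ := abs_le.mp ha
  obtain ⟨c1, c2⟩ := abs_le.mp hc
  refine ⟨?_, ?_, ?_, ?_⟩ <;> linarith

theorem RngG.abs {R a c : ℝ} (hR : R ≤ 2000) (h : RngG R a c) : |a| ≤ 9000 ∧ |c| ≤ 9000 := by
  obtain ⟨h1, h2, h3, h4⟩ := h
  constructor
  · rw [abs_le]; constructor <;> linarith
  · rw [abs_le]; constructor <;> linarith

namespace Chain

variable (C : Chain)

/-- the white of gap `k` lies in the disk through black `i` with relative centre `(a, c)` -/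
def Hit (i k : ℕ) (a c : ℝ) : Prop :=
  (C.wx k - C.px i) ^ 2 + (C.wy k - C.py i) ^ 2 <
    2 * ((C.wx k - C.px i) * a + (C.wy k - C.py i) * c)

/-- local description of gap `j` -/
theorem local_frame {j : ℕ} (hj : j < C.M) :
    ∃ X Y s E : ℝ, |E - 1| ≤ 0.000000001 ∧ |s| ≤ 0.000000001 ∧
      C.B j = E * Y ∧ C.Pw j = E * (X + 2 * s * Y - X ^ 2 - Y ^ 2) ∧
      ∀ m1 m2 : ℝ, |m1| ≤ 9000 → |m2| ≤ 9000 →
        ∃ a c : ℝ, |a - m1| ≤ 0.00002 ∧ |c - m2| ≤ 0.00002 ∧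
          (C.Hit j j m1 m2 ↔ PL X Y a c) ∧ (C.Hit (j + 1) j m1 m2 ↔ PL (1 - X) Y (-a) c) := by
  obtain ⟨X, Y, s, E, hE, hs, hB, hP, hm⟩ := localize (C.vx j) (C.vy j) (C.ux j) (C.uy j)
    (C.wx j - C.px j) (C.wy j - C.py j) (C.near_v j hj) (C.near_u j hj) (C.eq_norm j hj)
  refine ⟨X, Y, s, E, hE, hs, ?_, ?_, ?_⟩
  · rw [← hB]; unfold B bf ux uy; ring
  · rw [← hP]; rfl
  · intro m1 m2 h1 h2
    obtain ⟨a, c, ha, hc, hl, hr⟩ := hm m1 m2 h1 h2
    refine ⟨a, c, ha, hc, ?_, ?_⟩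
    · exact hl
    · rw [← hr]
      have e1 : C.wx j - C.px j - (C.vx j + C.ux j) = C.wx j - C.px (j + 1) := by
        unfold ux; ring
      have e2 : C.wy j - C.py j - (C.vy j + C.uy j) = C.wy j - C.py (j + 1) := by
        unfold uy; ring
      rw [e1, e2]
      rfl

/-- only neighbouring whites hit a test, in a light window -/
theorem hit_near {lo hi : ℕ} (hhi : hi ≤ C.M) {R r0 : ℝ} (hr0 : 3.9 ≤ r0)
    (hR2 : R ≤ 1.08 * r0) (hR3 : R ≤ 1601) (hRp : 3.9 ≤ R)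
    (hlight : ∀ k, lo ≤ k → k < hi → ¬ C.Heavy r0 k)
    {i k : ℕ} (hi1 : lo + 50 ≤ i) (hi2 : i + 50 ≤ hi) (hk : k < C.M) {a c : ℝ}
    (ha : |a| ≤ 0.15) (hc1 : -R ≤ c) (hc2 : c ≤ 0)
    (h : C.Hit i k a c) : k = i ∨ k + 1 = i := by
  by_contra hcon
  have hcon' : i + 1 ≤ k ∨ k + 2 ≤ i := by omega
  clear hcon
  have hiM : i ≤ C.M := by omega
  obtain ⟨hi3, hi4⟩ := C.near_p i hiM
  obtain ⟨hk1, hk2⟩ := C.near_p k hk.le
  obtain ⟨hx1, hx2, hy, _⟩ := own_box _ _ _ _ (C.near_u k hk) (C.own k hk)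
  have hdx : |(C.px k - k) - (C.px i - i)| ≤ 0.0000000002 :=
    (abs_sub _ _).trans (by linarith)
  have hdy : |C.py k - C.py i| ≤ 0.0000000002 := (abs_sub _ _).trans (by linarith)
  obtain ⟨dx1, dx2⟩ := abs_le.mp hdx
  set z1 := C.wx k - C.px i with hz1
  set z2 := C.wy k - C.py i with hz2
  have hz1e : z1 = ((k : ℝ) - i) + ((C.px k - k) - (C.px i - i)) + (C.wx k - C.px k) := by
    rw [hz1]; ring
  have hz2e : z2 = (C.py k - C.py i) + (C.wy k - C.py k) := by rw [hz2]; ring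
  have hz2a : |z2| ≤ 0.502 := by
    rw [hz2e]; exact (abs_add_le _ _).trans (by linarith)
  have hz1a : 0.998 ≤ |z1| := by
    rcases hcon' with h1 | h1
    · have : (i : ℝ) + 1 ≤ k := by exact_mod_cast h1
      have h3 := le_abs_self z1
      linarith
    · have : (k : ℝ) + 2 ≤ i := by exact_mod_cast h1
      have h3 := neg_le_abs z1
      linarith
  unfold Hit at h
  rw [← hz1, ← hz2] at h
  have hz1n := abs_nonneg z1
  have hz2n := abs_nonneg z2
  have e1 : z1 * a ≤ |z1| * 0.15 := by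
    calc z1 * a ≤ |z1 * a| := le_abs_self _
      _ = |z1| * |a| := abs_mul _ _
      _ ≤ |z1| * 0.15 := mul_le_mul_of_nonneg_left ha hz1n
  have hcabs : |c| ≤ R := by rw [abs_le]; constructor <;> linarith
  have e2 : z2 * c ≤ |z2| * R := by
    calc z2 * c ≤ |z2 * c| := le_abs_self _
      _ = |z2| * |c| := abs_mul _ _
      _ ≤ |z2| * R := mul_le_mul_of_nonneg_left hcabs hz2n
  have e3 : |z1| ^ 2 - 0.3 * |z1| < 2 * (|z2| * R) := by
    rw [sq_abs]
    linarith [sq_nonneg z2]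
  have e4 : |z2| * R ≤ 0.502 * 1601 := mul_le_mul hz2a hR3 (by linarith) (by norm_num)
  have e5 : |z1| ≤ 41 := by
    by_contra hc
    push Not at hc
    have : 41 * |z1| ≤ |z1| * |z1| := mul_le_mul_of_nonneg_right hc.le hz1n
    rw [← sq] at this
    linarith
  obtain ⟨z11, z12⟩ := abs_le.mp e5
  have hkwin : lo ≤ k ∧ k < hi := by
    have h1 : (k : ℝ) ≤ i + 43 := by linarith
    have h2 : (i : ℝ) ≤ k + 43 := by linarith
    have h1' : k ≤ i + 43 := by exact_mod_cast h1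
    have h2' : i ≤ k + 43 := by exact_mod_cast h2
    omega
  have hl := hlight k hkwin.1 hkwin.2
  unfold Heavy at hl
  push Not at hl
  have hr0p : 0 < r0 := by linarith
  rw [lt_div_iff₀ hr0p] at hl
  -- |wy k - py k| ≤ 1.0001 |B k| + small
  have hsum := (C.near_v k hk).sum (C.near_u k hk)
  have hBk : C.B k = (C.vx k + (C.px (k + 1) - C.px k - C.vx k)) * (C.wy k - C.py k) -
      (C.vy k + (C.py (k + 1) - C.py k - C.vy k)) * (C.wx k - C.px k) := by
    unfold B bf; ring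
  set f1 := C.vx k + (C.px (k + 1) - C.px k - C.vx k) with hf1
  set f2 := C.vy k + (C.py (k + 1) - C.py k - C.vy k) with hf2
  have hyk : |C.wy k - C.py k| ≤ |C.B k| + 0.000000001 := by
    have e : C.wy k - C.py k = C.B k - (f1 - 1) * (C.wy k - C.py k) + f2 * (C.wx k - C.px k) := by
      rw [hBk]; ring
    have g1 : |(f1 - 1) * (C.wy k - C.py k)| ≤ 0.0000000002 * 0.501 := abs_mul_le' hsum.1 hy
    have g2 : |f2 * (C.wx k - C.px k)| ≤ 0.0000000002 * 1.001 := by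
      apply abs_mul_le' hsum.2
      rw [abs_le]; constructor <;> linarith
    rw [e]
    refine (abs_add_le _ _).trans ?_
    have := abs_sub (C.B k) ((f1 - 1) * (C.wy k - C.py k))
    linarith
  have hz2b : |z2| ≤ |C.B k| + 0.0000000015 := by
    rw [hz2e]; exact (abs_add_le _ _).trans (by linarith)
  have e6 : |z2| * R ≤ (|C.B k| + 0.0000000015) * R := mul_le_mul_of_nonneg_right hz2b (by linarith)
  have e7 : |C.B k| * R ≤ |C.B k| * (1.08 * r0) := mul_le_mul_of_nonneg_left hR2 (abs_nonneg _)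
  have e8 : |z2| * R ≤ 0.1356 := by linarith
  have e9 : 0.998 * |z1| ≤ |z1| * |z1| := mul_le_mul_of_nonneg_right hz1a hz1n
  rw [← sq] at e9
  linarith

end Chain

end Pool.Agent.Lib.P962033
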